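import Mathlib

/-! Bit-matrix utilities for kernel computations. -/

namespace Pool.Agent.OCP

def anyB (n : ℕ) (f : ℕ → Bool) : Bool :=
  Nat.rec (motive := fun _ => Bool) false (fun k r => Bool.rec r true (f k)) n

def allB (n : ℕ) (f : ℕ → Bool) : Bool :=
  Nat.rec (motive := fun _ => Bool) true (fun k r => Bool.rec false r (f k)) n

theorem anyB_iff (n : ℕ) (f : ℕ → Bool) : anyB n f = true ↔ ∃ k < n, f k = true := by
  induction n with
  | zero => simp [anyB]
  | succ n ih =>
    have : anyB (n + 1) f = (f n || anyB n f) := by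
      show (Bool.rec (anyB n f) true (f n) : Bool) = _
      cases f n <;> rfl
    rw [this, Bool.or_eq_true, ih]
    constructor
    · rintro (h | ⟨k, hk, h⟩)
      · exact ⟨n, Nat.lt_succ_self n, h⟩
      · exact ⟨k, Nat.lt_succ_of_lt hk, h⟩
    · rintro ⟨k, hk, h⟩
      rcases Nat.lt_succ_iff_lt_or_eq.1 hk with h' | rfl
      · exact Or.inr ⟨k, h', h⟩
      · exact Or.inl h

theorem allB_iff (n : ℕ) (f : ℕ → Bool) : allB n f = true ↔ ∀ k < n, f k = true := by
  induction n with
  | zero => simp [allB]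
  | succ n ih =>
    have : allB (n + 1) f = (f n && allB n f) := by
      show (Bool.rec false (allB n f) (f n) : Bool) = _
      cases f n <;> rfl
    rw [this, Bool.and_eq_true, ih]
    constructor
    · rintro ⟨h1, h2⟩ k hk
      rcases Nat.lt_succ_iff_lt_or_eq.1 hk with h' | rfl
      · exact h2 k h'
      · exact h1
    · intro h
      exact ⟨h n (Nat.lt_succ_self n), fun k hk => h k (Nat.lt_succ_of_lt hk)⟩

/-- evaluate `n` to a literal before use. -/
def frc {α : Type} (n : ℕ) (f : ℕ → α) : α :=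
  Nat.rec (motive := fun _ => α) (f 0) (fun k _ => f (Nat.succ k)) n

theorem frc_eq {α : Type} (n : ℕ) (f : ℕ → α) : frc n f = f n := by
  cases n <;> rfl

/-- fast bit test. -/
def tb (x i : ℕ) : Bool := Nat.beq (Nat.land (Nat.shiftRight x i) 1) 1

theorem tb_eq (x i : ℕ) : tb x i = x.testBit i := by
  unfold tb Nat.testBit
  have h : Nat.land (Nat.shiftRight x i) 1 = (x >>> i) % 2 := Nat.and_one_is_mod _
  have h' : 1 &&& (x >>> i) = (x >>> i) % 2 := by rw [Nat.and_comm]; exact Nat.and_one_is_mod _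
  rw [h, h']
  rcases Nat.mod_two_eq_zero_or_one (x >>> i) with e | e <;> rw [e] <;> rfl

/-- nonzero test. -/
def nz (x : ℕ) : Bool := Nat.rec (motive := fun _ => Bool) false (fun _ _ => true) x

theorem nz_of_testBit {x i : ℕ} (h : x.testBit i = true) : nz x = true := by
  cases x with
  | zero => simp at h
  | succ x => rfl

theorem nz_iff {x : ℕ} : nz x = true ↔ x ≠ 0 := by
  cases x with
  | zero => simp [nz]
  | succ x => simp [nz]

/-- row `i` of a bit matrix with rows of width `w`. -/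
def row (w G i : ℕ) : ℕ := Nat.mod (Nat.shiftRight G (Nat.mul w i)) (Nat.pow 2 w)

theorem row_testBit (w G i j : ℕ) (hj : j < w) : (row w G i).testBit j = G.testBit (w * i + j) := by
  show ((G >>> (w * i)) % 2 ^ w).testBit j = _
  rw [Nat.testBit_mod_two_pow, Nat.testBit_shiftRight]
  simp [hj]

/-- clear one bit. -/
def clr (G k : ℕ) : ℕ := Nat.xor G (Nat.land G (Nat.shiftLeft 1 k))

theorem clr_testBit (G k l : ℕ) (h : l ≠ k) : (clr G k).testBit l = G.testBit l := by
  show (G ^^^ (G &&& (1 <<< k))).testBit l = _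
  rw [Nat.testBit_xor, Nat.testBit_and, Nat.one_shiftLeft, Nat.testBit_two_pow]
  simp [h.symm]

theorem idx_inj {w i j i' j' : ℕ} (hj : j < w) (hj' : j' < w) (h : w * i + j = w * i' + j') :
    i = i' ∧ j = j' := by
  have h1 : (w * i + j) / w = (w * i' + j') / w := by rw [h]
  have h2 : (w * i + j) % w = (w * i' + j') % w := by rw [h]
  have hw : 0 < w := by omega
  rw [Nat.mul_add_div hw, Nat.mul_add_div hw, Nat.div_eq_of_lt hj, Nat.div_eq_of_lt hj'] at h1
  rw [Nat.mul_add_mod, Nat.mul_add_mod, Nat.mod_eq_of_lt hj, Nat.mod_eq_of_lt hj'] at h2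
  exact ⟨by omega, h2⟩

/-- `(G, G')` bound the relation `T` on `range w` and its transpose from above. -/
def Ub (w : ℕ) (T : ℕ → ℕ → Prop) (G G' : ℕ) : Prop :=
  ∀ i j, i < w → j < w → T i j → G.testBit (w * i + j) = true ∧ G'.testBit (w * j + i) = true

theorem Ub.swap {w : ℕ} {T : ℕ → ℕ → Prop} {G G' : ℕ} (h : Ub w T G G') :
    Ub w (fun i j => T j i) G' G :=
  fun i j hi hj t => (h j i hj hi t).symm

theorem Ub.clr {w : ℕ} {T : ℕ → ℕ → Prop} {G G' : ℕ} (h : Ub w T G G') {a b : ℕ} (ha : a < w)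
    (hb : b < w) (hab : ¬ T a b) : Ub w T (clr G (w * a + b)) (clr G' (w * b + a)) := by
  intro i j hi hj t
  rw [clr_testBit, clr_testBit]
  · exact h i j hi hj t
  · intro e
    obtain ⟨rfl, rfl⟩ := idx_inj hi ha e
    exact hab t
  · intro e
    obtain ⟨rfl, rfl⟩ := idx_inj hj hb e
    exact hab t

theorem Ub.row {w : ℕ} {T : ℕ → ℕ → Prop} {G G' : ℕ} (h : Ub w T G G') {i j : ℕ} (hi : i < w)
    (hj : j < w) (t : T i j) : (row w G i).testBit j = true ∧ (row w G' j).testBit i = true := by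
  rw [row_testBit _ _ _ _ hj, row_testBit _ _ _ _ hi]
  exact h i j hi hj t

end Pool.Agent.OCP
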