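import Pool.Agent.Lib.MP_55dd22_co.Side8

/-! More bit utilities: iteration over set bits, population count, twins, evaluation of fillings. -/

namespace Pool.Agent.OCP

def sel (c : Bool) (t e : ℕ) : ℕ := Bool.rec e t c

theorem sel_ne {c : Bool} {t e : ℕ} (h : sel c t e ≠ 0) : (c = true ∧ t ≠ 0) ∨ (c = false ∧ e ≠ 0) := by
  cases c
  · exact Or.inr ⟨rfl, h⟩
  · exact Or.inl ⟨rfl, h⟩

theorem sel_zero {c : Bool} {t : ℕ} (h : sel c t 0 ≠ 0) : c = true ∧ t ≠ 0 := by
  rcases sel_ne h with h | h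
  · exact h
  · exact absurd rfl h.2

/-- does `f` hold at some set bit of `m` (true when the fuel runs out). -/
def anyS (fuel : ℕ) (f : ℕ → Bool) : ℕ → Bool :=
  Nat.rec (motive := fun _ => ℕ → Bool) (fun _ => true)
    (fun _ r m => Bool.rec (frc (Nat.log2 m) fun i =>
      Bool.rec (frc (Nat.xor m (Nat.shiftLeft 1 i)) r) true (f i)) false (Nat.beq m 0)) fuel

theorem xor_bit (m i j : ℕ) (h : j ≠ i) : (Nat.xor m (Nat.shiftLeft 1 i)).testBit j = m.testBit j := by
  show (m ^^^ (1 <<< i)).testBit j = _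
  rw [Nat.testBit_xor, Nat.one_shiftLeft, Nat.testBit_two_pow]
  simp [h.symm]

theorem anyS_of (fuel : ℕ) (f : ℕ → Bool) : ∀ m i, m.testBit i = true → f i = true →
    anyS fuel f m = true := by
  induction fuel with
  | zero => intros; rfl
  | succ n ih =>
    intro m i hm hf
    show (Bool.rec (frc (Nat.log2 m) fun i =>
      Bool.rec (frc (Nat.xor m (Nat.shiftLeft 1 i)) (anyS n f)) true (f i)) false
        (Nat.beq m 0) : Bool) = true
    have h0 : Nat.beq m 0 = false := by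
      rw [beq_false_iff]; rintro rfl; simp at hm
    rw [h0, frc_eq, frc_eq]
    show (Bool.rec (anyS n f (Nat.xor m (Nat.shiftLeft 1 (Nat.log2 m)))) true
      (f (Nat.log2 m)) : Bool) = true
    cases hl : f (Nat.log2 m)
    · refine ih _ i ?_ hf
      rw [xor_bit, hm]
      rintro rfl
      rw [hf] at hl; exact absurd hl (by simp)
    · rfl

theorem all_of_anyS {fuel : ℕ} {f : ℕ → Bool} {m : ℕ} (h : anyS fuel (fun i => !(f i)) m = false)
    (i : ℕ) (hi : m.testBit i = true) : f i = true := by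
  by_contra hc
  rw [anyS_of fuel _ m i hi (by simpa using hc)] at h
  exact absurd h (by simp)

/-- neighbourhood mask. -/
def nb (w G G' x : ℕ) (d : Bool) : ℕ := Bool.rec (row w G' x) (row w G x) d

theorem Ub.nb {w : ℕ} {T : ℕ → ℕ → Prop} {G G' : ℕ} (h : Ub w T G G') {d : Bool} {i j : ℕ}
    (hi : i < w) (hj : j < w) (t : ar T d i j) : (nb w G G' i d).testBit j = true := by
  cases d
  · exact (h.row hj hi t).2
  · exact (h.row hi hj t).1

theorem ar_comp {W : Type} {T : W → W → Prop} {g : ℕ → W} {d : Bool} {i j : ℕ} :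
    ar (fun a b => T (g a) (g b)) d i j ↔ ar T d (g i) (g j) := by
  cases d <;> rfl

theorem ar_not {W : Type} {T : W → W → Prop} {d : Bool} {x y : W} : ar T (!d) x y ↔ ar T d y x := by
  cases d <;> rfl

noncomputable def satB (w G G' : ℕ) (F : Fill) : ℕ → ℕ → ℕ → Bool :=
  Fill.rec (motive := fun _ => ℕ → ℕ → ℕ → Bool) (fun _ _ _ => true)
    (fun o1 o2 o3 _ _ _ r1 r2 r3 x y z =>
      frc (Nat.land (Nat.land (nb w G G' x o1) (nb w G G' y o2)) (nb w G G' z o3))
        (anyS w fun v => r1 x y v && r2 y z v && r3 z x v))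
    (fun o1 o2 o3 o4 o5 o6 o7 o8 o9 _ _ _ _ _ _ _ _ _ _ _ _ _ _ x y z =>
      frc (Nat.land (nb w G G' y o3) (nb w G G' z o4)) fun A =>
      frc (Nat.land (nb w G G' z o5) (nb w G G' x o6)) fun B =>
      frc (Nat.land (nb w G G' x o1) (nb w G G' y o2))
        (anyS w fun c => frc (Nat.land B (nb w G G' c (!o9))) fun Bc =>
          frc (Nat.land A (nb w G G' c o7)) (anyS w fun a => nz (Nat.land Bc (nb w G G' a o8))))) F

theorem satB_of {W : Type} {T : W → W → Prop} {w G G' : ℕ} {g : ℕ → W}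
    (hs : ∀ x, ∃ i < w, g i = x) (h : Ub w (fun a b => T (g a) (g b)) G G') (F : Fill) :
    ∀ x y z, x < w → y < w → z < w → Sat T F (g x) (g y) (g z) → satB w G G' F x y z = true := by
  have nbt : ∀ {d i j}, i < w → j < w → ar T d (g i) (g j) → (nb w G G' i d).testBit j = true :=
    fun hi hj t => h.nb hi hj (ar_comp.2 t)
  induction F with
  | leaf => intros; rfl
  | st o1 o2 o3 F1 F2 F3 i1 i2 i3 =>
    rintro x y z hx hy hz ⟨v, a1, a2, a3, s1, s2, s3⟩
    obtain ⟨v, hv, rfl⟩ := hs v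
    show frc _ (anyS w fun v => satB w G G' F1 x y v && satB w G G' F2 y z v &&
      satB w G G' F3 z x v) = true
    rw [frc_eq]
    refine anyS_of _ _ _ v ?_ ?_
    · simp only [land_testBit, nbt hx hv a1, nbt hy hv a2, nbt hz hv a3, Bool.and_self]
    · simp only [i1 _ _ _ hx hy hv s1, i2 _ _ _ hy hz hv s2, i3 _ _ _ hz hx hv s3, Bool.and_self]
  | oc o1 o2 o3 o4 o5 o6 o7 o8 o9 F1 F2 F3 F4 F5 F6 F7 =>
    rintro x y z hx hy hz ⟨a, b, c, a1, a2, a3, a4, a5, a6, a7, a8, a9, -⟩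
    obtain ⟨a, ha, rfl⟩ := hs a
    obtain ⟨b, hb, rfl⟩ := hs b
    obtain ⟨c, hc, rfl⟩ := hs c
    simp only [satB, frc_eq]
    refine anyS_of _ _ _ c ?_ (anyS_of _ _ _ a ?_ (nz_of_testBit (i := b) ?_))
    · simp only [land_testBit, nbt hx hc a1, nbt hy hc a2, Bool.and_self]
    · simp only [land_testBit, nbt hy ha a3, nbt hz ha a4, nbt hc ha a7, Bool.and_self]
    · simp only [land_testBit, nbt hz hb a5, nbt hx hb a6, nbt hc hb (ar_not.2 a9), nbt ha hb a8,
        Bool.and_self]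

/-- decode a filling from the stream and pass it on. -/
def decF (fuel : ℕ) : ℕ → (Fill → ℕ → ℕ) → ℕ :=
  Nat.rec (motive := fun _ => ℕ → (Fill → ℕ → ℕ) → ℕ) (fun _ _ => 0)
    (fun _ r s k => frc (Nat.land s 2047) fun h =>
      sel (tb h 0)
        (sel (tb h 1)
          (frc (Nat.shiftRight s 11) fun s1 =>
            k (.oc (tb h 2) (tb h 3) (tb h 4) (tb h 5) (tb h 6) (tb h 7) (tb h 8) (tb h 9) (tb h 10)
              .leaf .leaf .leaf .leaf .leaf .leaf .leaf) s1)
          (frc (Nat.shiftRight s 5) fun s0 => r s0 fun F1 s1 => r s1 fun F2 s2 => r s2 fun F3 s3 =>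
            k (.st (tb h 2) (tb h 3) (tb h 4) F1 F2 F3) s3))
        (frc (Nat.shiftRight s 1) fun s1 => k .leaf s1)) fuel

theorem decF_ne (fuel : ℕ) : ∀ s k, decF fuel s k ≠ 0 → ∃ F s', k F s' ≠ 0 := by
  induction fuel with
  | zero => intro s k h; exact absurd rfl h
  | succ n ih =>
    intro s k h
    have h' : frc (Nat.land s 2047) (fun h =>
      sel (tb h 0)
        (sel (tb h 1)
          (frc (Nat.shiftRight s 11) fun s1 =>
            k (.oc (tb h 2) (tb h 3) (tb h 4) (tb h 5) (tb h 6) (tb h 7) (tb h 8) (tb h 9) (tb h 10)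
              .leaf .leaf .leaf .leaf .leaf .leaf .leaf) s1)
          (frc (Nat.shiftRight s 5) fun s0 => decF n s0 fun F1 s1 => decF n s1 fun F2 s2 =>
            decF n s2 fun F3 s3 => k (.st (tb h 2) (tb h 3) (tb h 4) F1 F2 F3) s3))
        (frc (Nat.shiftRight s 1) fun s1 => k .leaf s1)) ≠ 0 := h
    simp only [frc_eq] at h'
    rcases sel_ne h' with ⟨-, h1⟩ | ⟨-, h1⟩
    · rcases sel_ne h1 with ⟨-, h2⟩ | ⟨-, h2⟩
      · exact ⟨_, _, h2⟩
      · obtain ⟨F1, s1, h3⟩ := ih _ _ h2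
        obtain ⟨F2, s2, h4⟩ := ih _ _ h3
        obtain ⟨F3, s3, h5⟩ := ih _ _ h4
        exact ⟨_, _, h5⟩
    · exact ⟨_, _, h1⟩

/-- `G'` is the transpose of `G`. -/
def Trp (w G G' : ℕ) : Prop := ∀ i j, i < w → j < w → G.testBit (w * i + j) = G'.testBit (w * j + i)

theorem clr_self (G k : ℕ) : (clr G k).testBit k = false := by
  show (G ^^^ (G &&& (1 <<< k))).testBit k = _
  rw [Nat.testBit_xor, Nat.testBit_and, Nat.one_shiftLeft, Nat.testBit_two_pow]
  simp

theorem Trp.clr {w G G' : ℕ} (h : Trp w G G') {a b : ℕ} (ha : a < w) (hb : b < w) :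
    Trp w (clr G (w * a + b)) (clr G' (w * b + a)) := by
  intro i j hi hj
  by_cases e : i = a ∧ j = b
  · obtain ⟨rfl, rfl⟩ := e
    rw [clr_self, clr_self]
  · rw [clr_testBit, clr_testBit]
    · exact h i j hi hj
    · intro e'; exact e (idx_inj hi ha e').symm
    · intro e'; exact e (idx_inj hj hb e')

theorem Trp.symm {w G G' : ℕ} (h : Trp w G G') : Trp w G' G :=
  fun i j hi hj => (h j i hj hi).symm

theorem trp_ini {w : ℕ} (L : List (ℕ × ℕ)) (hL : ∀ p ∈ L, p.1 < w ∧ p.2 < w) :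
    Trp w (ini w L) (ini w (L.map Prod.swap)) := by
  induction L with
  | nil =>
    intro i j hi hj
    have h1 : w * i + j < w * w := by nlinarith
    have h2 : w * j + i < w * w := by nlinarith
    simp [ini, h1, h2]
  | cons p L ih =>
    have hp := hL p List.mem_cons_self
    exact (ih (fun q hq => hL q (List.mem_cons_of_mem _ hq))).clr hp.1 hp.2

def twin (w G G' a b : ℕ) : Bool :=
  frc (Nat.lor (Nat.shiftLeft 1 a) (Nat.shiftLeft 1 b)) fun m =>
    Nat.beq (Nat.lor (row w G a) m) (Nat.lor (row w G b) m) &&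
    Nat.beq (Nat.lor (row w G' a) m) (Nat.lor (row w G' b) m) &&
    (tb (row w G a) b == tb (row w G b) a)

theorem lor_eq_bit {x y a b j : ℕ} (h : Nat.lor x (Nat.lor (Nat.shiftLeft 1 a) (Nat.shiftLeft 1 b)) =
    Nat.lor y (Nat.lor (Nat.shiftLeft 1 a) (Nat.shiftLeft 1 b))) (ha : j ≠ a) (hb : j ≠ b) :
    x.testBit j = y.testBit j := by
  have h' : (x ||| (1 <<< a ||| 1 <<< b)).testBit j = (y ||| (1 <<< a ||| 1 <<< b)).testBit j :=
    congrArg (fun t => Nat.testBit t j) h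
  simpa [Nat.testBit_or, Nat.one_shiftLeft, Nat.testBit_two_pow, ha.symm, hb.symm] using h'

theorem Ub.twin {w : ℕ} {T : ℕ → ℕ → Prop} {G G' a b : ℕ} (h : Ub w T G G') (ht : Trp w G G')
    (irr : ∀ i, ¬ T i i) (ha : a < w) (hb : b < w) (tw : twin w G G' a b = true) :
    Ub w (fun i j => T (Equiv.swap a b i) (Equiv.swap a b j)) G G' := by
  simp only [OCP.twin, frc_eq, Bool.and_eq_true, Nat.beq_eq, beq_iff_eq, tb_eq] at tw
  obtain ⟨⟨r1, r2⟩, r3⟩ := tw
  rw [row_testBit _ _ _ _ hb, row_testBit _ _ _ _ ha] at r3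
  have q1 : ∀ j, j < w → j ≠ a → j ≠ b → G.testBit (w * a + j) = G.testBit (w * b + j) := by
    intro j hj n1 n2
    rw [← row_testBit _ _ _ _ hj, ← row_testBit _ _ _ _ hj]
    exact lor_eq_bit r1 n1 n2
  have q2 : ∀ j, j < w → j ≠ a → j ≠ b → G.testBit (w * j + a) = G.testBit (w * j + b) := by
    intro j hj n1 n2
    rw [ht j a hj ha, ht j b hj hb, ← row_testBit _ _ _ _ hj, ← row_testBit _ _ _ _ hj]
    exact lor_eq_bit r2 n1 n2
  have sl : ∀ i, i < w → Equiv.swap a b i < w := by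
    intro i hi
    rw [Equiv.swap_apply_def]
    split_ifs <;> assumption
  intro i j hi hj t
  have key : G.testBit (w * i + j) = true := by
    have h0 := (h _ _ (sl i hi) (sl j hj) t).1
    have hij : i ≠ j := by
      rintro rfl; exact irr _ t
    by_cases ia : i = a
    · subst ia
      rw [Equiv.swap_apply_left] at h0
      by_cases jb : j = b
      · subst jb
        rw [Equiv.swap_apply_right] at h0
        rw [r3, h0]
      · rw [Equiv.swap_apply_of_ne_of_ne hij.symm jb] at h0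
        rw [q1 j hj hij.symm jb, h0]
    by_cases ib : i = b
    · subst ib
      rw [Equiv.swap_apply_right] at h0
      by_cases ja : j = a
      · subst ja
        rw [Equiv.swap_apply_left] at h0
        rw [← r3, h0]
      · rw [Equiv.swap_apply_of_ne_of_ne ja hij.symm] at h0
        rw [← q1 j hj ja hij.symm, h0]
    rw [Equiv.swap_apply_of_ne_of_ne ia ib] at h0
    by_cases ja : j = a
    · subst ja
      rw [Equiv.swap_apply_left] at h0
      rw [q2 i hi ia ib, h0]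
    by_cases jb : j = b
    · subst jb
      rw [Equiv.swap_apply_right] at h0
      rw [← q2 i hi ia ib, h0]
    rwa [Equiv.swap_apply_of_ne_of_ne ja jb] at h0
  exact ⟨key, by rw [← ht i j hi hj, key]⟩

/-- clear the arcs `ar d x c` for all set bits `c` of the mask, then continue. -/
def clrS (w fuel x : ℕ) (d : Bool) (k : ℕ → ℕ → ℕ) : ℕ → ℕ → ℕ → ℕ :=
  Nat.rec (motive := fun _ => ℕ → ℕ → ℕ → ℕ) (fun _ G G' => k G G')
    (fun _ r m G G' => sel (Nat.beq m 0) (k G G') (frc (Nat.log2 m) fun c =>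
      frc (clr G (sel d (Nat.add (Nat.mul w x) c) (Nat.add (Nat.mul w c) x))) fun G1 =>
      frc (clr G' (sel d (Nat.add (Nat.mul w c) x) (Nat.add (Nat.mul w x) c))) fun G1' =>
      frc (Nat.xor m (Nat.shiftLeft 1 c)) fun m1 => r m1 G1 G1')) fuel

theorem clr_ar {w : ℕ} {T : ℕ → ℕ → Prop} {G G' : ℕ} (h : Ub w T G G') (ht : Trp w G G') {x c : ℕ}
    {d : Bool} (hx : x < w) (hc : c < w) (n : ¬ ar T d x c) :
    Ub w T (clr G (sel d (Nat.add (Nat.mul w x) c) (Nat.add (Nat.mul w c) x)))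
      (clr G' (sel d (Nat.add (Nat.mul w c) x) (Nat.add (Nat.mul w x) c))) ∧
    Trp w (clr G (sel d (Nat.add (Nat.mul w x) c) (Nat.add (Nat.mul w c) x)))
      (clr G' (sel d (Nat.add (Nat.mul w c) x) (Nat.add (Nat.mul w x) c))) := by
  cases d
  · exact ⟨h.clr hc hx n, ht.clr hc hx⟩
  · exact ⟨h.clr hx hc n, ht.clr hx hc⟩

theorem clrS_ne {w : ℕ} {T : ℕ → ℕ → Prop} {x : ℕ} {d : Bool} {k : ℕ → ℕ → ℕ} (hx : x < w)
    (fuel : ℕ) : ∀ m G G', Ub w T G G' → Trp w G G' →
      (∀ c, m.testBit c = true → c < w ∧ ¬ ar T d x c) → clrS w fuel x d k m G G' ≠ 0 →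
      ∃ G1 G1', Ub w T G1 G1' ∧ Trp w G1 G1' ∧ k G1 G1' ≠ 0 := by
  induction fuel with
  | zero => intro m G G' h ht _ hk; exact ⟨G, G', h, ht, hk⟩
  | succ n ih =>
    intro m G G' h ht hm hk
    have hk' : sel (Nat.beq m 0) (k G G') (frc (Nat.log2 m) fun c =>
      frc (clr G (sel d (Nat.add (Nat.mul w x) c) (Nat.add (Nat.mul w c) x))) fun G1 =>
      frc (clr G' (sel d (Nat.add (Nat.mul w c) x) (Nat.add (Nat.mul w x) c))) fun G1' =>
      frc (Nat.xor m (Nat.shiftLeft 1 c)) fun m1 => clrS w n x d k m1 G1 G1') ≠ 0 := hk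
    simp only [frc_eq] at hk'
    rcases sel_ne hk' with ⟨-, h1⟩ | ⟨h0, h1⟩
    · exact ⟨G, G', h, ht, h1⟩
    · rw [beq_false_iff] at h0
      have hb : m.testBit (Nat.log2 m) = true := Nat.testBit_log2 h0
      obtain ⟨hc, hn⟩ := hm _ hb
      obtain ⟨u1, t1⟩ := clr_ar h ht hx hc hn
      refine ih _ _ _ u1 t1 (fun c hc' => ?_) h1
      by_cases e : c = Nat.log2 m
      · rw [e]; exact ⟨hc, hn⟩
      · rw [xor_bit _ _ _ e] at hc'
        exact hm c hc'

end Pool.Agent.OCP
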