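import Pool.Agent.Lib.MP_55dd22_co.CA_0

/-! Top of a certificate. -/

namespace Pool.Agent.OCP

def ca_kn (G G' P Q : ℕ) : Bool := ca_0 G G' P Q

theorem ca_top : nz (chk true ca_kn 250 0x7ffffbffffdffffefffff7ffffbffffdffffefffff7ffffbffffc4effe16fff0affda2fff84ffee0ffd70ffcd8ffc3c003fe
  0x7fffebfffedfffeefffef7ffefbffefdffefeffeff7feffbfeffdb1ffce9ffc75ffe1dffc5bffd0fffe87fff23fffc1ffc00 1 0
  0x4160b0582c170b85c2e170b020c020c820c820c820c0984c271389e040c040c840c04148414841411c8c0c3361b401800183386b186a186a64180000910c48204070000790b88018000d21030003087116003000a21c45310908700002222e00008089c0001e22e1068830401e000b1103c0028440832083208320832083044908a84c261389c4f21266024c824c824c092502a4ba5ec85348c00004925e811488241c0001e93818000d490700031241e000b494a988484380001111700004044e0000f115243841a20c1058803e001422253089044422010f08fc0003825f8000d093f00030247e000b090fc002824160b0582e170b85c2e170b014c814c814c814c092501a4b2592c974ba5e0144814481440920e1a43c43a1ec75340c00004907180002082700007a09e0001c82b386a031000e000b41429a4492380001149700004124e0000f491c0003925480d486242d200f000a49014c814c814c814c092501a4b2592e974ba5ec853489244523c0001049780003d24f0000e495203521890b4803c0029252a6112088844021e10e08fe0003425fc000c093f8002c247f000a090a)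 = true := by decide +kernel

theorem ca_dead {W : Type} [Fintype W] {T : W → W → Prop} (c : Cfg T) (hr : true = true → Reg T) :
    Dead T 0x7ffffbffffdffffefffff7ffffbffffdffffefffff7ffffbffffc4effe16fff0affda2fff84ffee0ffd70ffcd8ffc3c003fe
      0x7fffebfffedfffeefffef7ffefbffefdffefeffeff7feffbfeffdb1ffce9ffc75ffe1dffc5bffd0fffe87fff23fffc1ffc00 1 0 := by
  refine chk_sound c hr (known := ca_kn) ?_ _ _ _ _ _ _ (nz_iff.1 ca_top)
  intro G G' P Q h
  · exact ca_0_dead c hr _ _ _ _ h

end Pool.Agent.OCP
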