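import Pool.Agent.Lib.MP_55dd22_co.CC_0

/-! Top of a certificate. -/

namespace Pool.Agent.OCP

def cc_kn (G G' P Q : ℕ) : Bool := cc_0 G G' P Q

theorem cc_top : nz (chk true cc_kn 250 0x7ffffbffffdffffefffff7ffffbffffdffffefffff7ffffbffffd0effca6ffe4afff12ffec4fffa0ffd70ffcd8ffc3c003fe
  0x7fffebfffedfffeefffef7ffefbffefdffefeffeff7feffbfeffcf1ffe59ffd35ffcadffd1bffc4fffe87fff23fffc1ffc00 1 0
  0x486432190c8743a1d0e8743014401448144814481440582c170b85e05448544854415828642860ae57b03a243a26c3000079cb8e018000d39c7603ac1d431d4ca30000122989418000205270000794b8a1a500e000614e2ac0060014520a890a890a8812410b4560a190a182b95ec35328c000048a6250600008149c0001e52c2071434a01c000c29c01800514954c22411c0000884b8000201270000784b821a10c08078002c240f000a0901448144814481448144112501a0b0582e170bc82681069106910680269026902683399ec95330c000048c6261030380003cc5c60d300700030c41e000b313286c65032984482380001109700004024e0000f095243821a10c0858403e001412153409204502080f40fc0003905f8000d413f00031047e000b410fc00290486432190e8743a1d0e8743084c884c884c884c092488a4b2592c974ba5e082488248824111888a23db180002042700007909e0001c42b3069030800e000b21229a4492380001149700004124e0000f491c0003925440d486242d200f000a49084c884c884c884c092488a4b2592e974ba5ec453489244523c0001049780003d24f0000e495103521890b4803c0029252a6812408a04101e80e40fe0003505fc000c413f8002d047f000a4142)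 = true := by decide +kernel

theorem cc_dead {W : Type} [Fintype W] {T : W → W → Prop} (c : Cfg T) (hr : true = true → Reg T) :
    Dead T 0x7ffffbffffdffffefffff7ffffbffffdffffefffff7ffffbffffd0effca6ffe4afff12ffec4fffa0ffd70ffcd8ffc3c003fe
      0x7fffebfffedfffeefffef7ffefbffefdffefeffeff7feffbfeffcf1ffe59ffd35ffcadffd1bffc4fffe87fff23fffc1ffc00 1 0 := by
  refine chk_sound c hr (known := cc_kn) ?_ _ _ _ _ _ _ (nz_iff.1 cc_top)
  intro G G' P Q h
  · exact cc_0_dead c hr _ _ _ _ h

end Pool.Agent.OCP
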