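import Pool.Agent.Lib.MP_55dd22_co.CN_0
import Pool.Agent.Lib.MP_55dd22_co.CN_1

/-! Top of the classification certificate, and the calculus programs. -/

namespace Pool.Agent.OCP

noncomputable def cn9_kn (G G' : ℕ) : Bool := cn9_0 G G' || cn9_1 G G'

theorem cn9_top : nz (chk9 cn9_kn 100 0xffbfeffbfeffbfeffbfe 0xffbfeffbfeffbfeffbfe
  0x80c06030180c060b05edb180511380823b00384f00609f00a12f010244303080604120b0582c06030184f6600c22e014446404100c06238281801c25803049805090582c07b088030188c2c0613db08e180308b80511da27b0900e20c01845c0288888030188a02300384f00609700a120bd84300309ec230300a22320c13d8481801c4708c0c0288888007b180511190689ed8481801c44c2060144444021885c2f6060442440404600709e00c13e0142704803018487020981c0e060b0582f6c3010447018885002701300582f60a0600709600c120b0582f618082223030c02c17b61140c041119818404310bdb08a060208edb090308e180308e1140c041110c202300384f00609db08a36c2301146c22811006031185c2f6c180ca4381149501011801c2780304e0940c04091c06123c0825000700300780501f80803f80c05f81009f8101) = true := by decide +kernel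

theorem cn9_done {W : Type} [Fintype W] [LinearOrder W] {H : W → W → Prop} {u : W} {o : Bool}
    (hH : ∀ x y, H x y → ¬ H y x) (hG : Good H) :
    Done H u o 0xffbfeffbfeffbfeffbfe 0xffbfeffbfeffbfeffbfe := by
  refine chk9_sound hH hG (known := cn9_kn) ?_ _ _ _ _ (nz_iff.1 cn9_top)
  intro G G' h
  simp only [cn9_kn, Bool.or_eq_true] at h
  rcases h with (h | h)
  · exact cn9_0_done hH hG _ _ h
  · exact cn9_1_done hH hG _ _ h

end Pool.Agent.OCP
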