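import Pool.Agent.Lib.MP_55dd22_co.Chk20b

/-! Symmetries of fillings and the relation calculus on a side with nine vertices. -/

namespace Pool.Agent.OCP

section
variable {W : Type} {H : W → W → Prop}

theorem f_rot (F : Fill) : ∃ G, ∀ x y z, Sat H G x y z → Sat H F y z x := by
  induction F with
  | leaf => exact ⟨.leaf, fun _ _ _ _ => trivial⟩
  | st o1 o2 o3 F1 F2 F3 =>
    exact ⟨.st o3 o1 o2 F3 F1 F2, fun x y z ⟨v, a1, a2, a3, s1, s2, s3⟩ => ⟨v, a2, a3, a1, s2, s3, s1⟩⟩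
  | oc o1 o2 o3 o4 o5 o6 o7 o8 o9 F1 F2 F3 F4 F5 F6 F7 _ _ _ _ _ _ i7 =>
    obtain ⟨G, hG⟩ := i7
    refine ⟨.oc o5 o6 o1 o2 o3 o4 o9 o7 o8 F3 F1 F2 F6 F4 F5 G, ?_⟩
    rintro x y z ⟨a, b, c, a1, a2, a3, a4, a5, a6, a7, a8, a9, s1, s2, s3, s4, s5, s6, s7⟩
    exact ⟨b, c, a, a3, a4, a5, a6, a1, a2, a8, a9, a7, s2, s3, s1, s5, s6, s4, hG _ _ _ s7⟩

theorem f_rot2 (F : Fill) : ∃ G, ∀ x y z, Sat H G x y z → Sat H F z x y := by
  obtain ⟨G, hG⟩ := f_rot (H := H) F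
  obtain ⟨K, hK⟩ := f_rot (H := H) G
  exact ⟨K, fun x y z h => hG _ _ _ (hK _ _ _ h)⟩

theorem f_sw12 (F : Fill) : ∃ G, ∀ x y z, Sat H G x y z → Sat H F y x z := by
  have aux : ∀ F : Fill, (∃ G, ∀ x y z, Sat H G x y z → Sat H F y x z) →
      ∃ G, ∀ x y z, Sat H G x y z → Sat H F x z y := by
    rintro F ⟨G, hG⟩
    obtain ⟨K, hK⟩ := f_rot2 (H := H) G
    exact ⟨K, fun x y z h => hG _ _ _ (hK _ _ _ h)⟩
  induction F with
  | leaf => exact ⟨.leaf, fun _ _ _ _ => trivial⟩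
  | st o1 o2 o3 F1 F2 F3 i1 i2 i3 =>
    obtain ⟨G1, h1⟩ := i1
    obtain ⟨G2, h2⟩ := i2
    obtain ⟨G3, h3⟩ := i3
    exact ⟨.st o2 o1 o3 G1 G3 G2, fun x y z ⟨v, a1, a2, a3, s1, s2, s3⟩ =>
      ⟨v, a2, a1, a3, h1 _ _ _ s1, h2 _ _ _ s3, h3 _ _ _ s2⟩⟩
  | oc o1 o2 o3 o4 o5 o6 o7 o8 o9 F1 F2 F3 F4 F5 F6 F7 i1 i2 i3 i4 i5 i6 i7 =>
    obtain ⟨G1, h1⟩ := i1
    obtain ⟨G2, h2⟩ := i2
    obtain ⟨G3, h3⟩ := i3
    obtain ⟨G4, h4⟩ := aux _ i4
    obtain ⟨G5, h5⟩ := aux _ i5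
    obtain ⟨G6, h6⟩ := aux _ i6
    obtain ⟨G7, h7⟩ := aux _ i7
    refine ⟨.oc o2 o1 o6 o5 o4 o3 (!o9) (!o8) (!o7) G1 G3 G2 G5 G4 G6 G7, ?_⟩
    rintro x y z ⟨a, b, c, a1, a2, a3, a4, a5, a6, a7, a8, a9, s1, s2, s3, s4, s5, s6, s7⟩
    exact ⟨b, a, c, a2, a1, a6, a5, a4, a3, ar_not.1 a9, ar_not.1 a8, ar_not.1 a7, h1 _ _ _ s1,
      h2 _ _ _ s3, h3 _ _ _ s2, h4 _ _ _ s5, h5 _ _ _ s4, h6 _ _ _ s6, h7 _ _ _ s7⟩

theorem f_sw23 (F : Fill) : ∃ G, ∀ x y z, Sat H G x y z → Sat H F x z y := by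
  obtain ⟨G, hG⟩ := f_sw12 (H := H) F
  obtain ⟨K, hK⟩ := f_rot2 (H := H) G
  exact ⟨K, fun x y z h => hG _ _ _ (hK _ _ _ h)⟩

theorem f_sw13 (F : Fill) : ∃ G, ∀ x y z, Sat H G x y z → Sat H F z y x := by
  obtain ⟨G, hG⟩ := f_sw12 (H := H) F
  obtain ⟨K, hK⟩ := f_rot (H := H) G
  exact ⟨K, fun x y z h => hG _ _ _ (hK _ _ _ h)⟩

/-- a triangle filled on both sides, seen from a face at the edge `u a`. -/
theorem f_two (F : Fill) : ∀ (G : Fill) (o1 o2 : Bool), ∃ K, ∀ u a w, Sat H K u a w →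
    ∃ b, ar H o1 u b ∧ ar H o2 a b ∧ Sat H F u a b ∧ Sat H G u a b := by
  induction F with
  | leaf =>
    intro G o1 o2
    exact ⟨.st o1 o2 true G .leaf .leaf, fun u a w ⟨v, a1, a2, _, s, _⟩ => ⟨v, a1, a2, trivial, s⟩⟩
  | st p1 p2 p3 F1 F2 F3 i1 =>
    intro G o1 o2
    obtain ⟨G2, h2⟩ := f_sw23 (H := H) F2
    obtain ⟨G3, h3⟩ := f_sw13 (H := H) F3
    obtain ⟨K, hK⟩ := i1 (.st o1 o2 (!p3) G G2 G3) p1 p2
    refine ⟨K, fun u a w h => ?_⟩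
    obtain ⟨v, a1, a2, s1, b, b1, b2, b3, t1, t2, t3⟩ := hK u a w h
    exact ⟨b, b1, b2, ⟨v, a1, a2, ar_not.1 b3, s1, h2 _ _ _ t2, h3 _ _ _ t3⟩, t1⟩
  | oc p1 p2 p3 p4 p5 p6 p7 p8 p9 F1 F2 F3 F4 F5 F6 F7 i1 =>
    intro G o1 o2
    obtain ⟨G2, h2⟩ := f_sw23 (H := H) F2
    obtain ⟨G3, h3⟩ := f_sw12 (H := H) F3
    obtain ⟨G4, h4⟩ := f_sw12 (H := H) F4
    obtain ⟨G5, h5⟩ := f_sw23 (H := H) F5
    obtain ⟨G6, h6⟩ := f_sw23 (H := H) F6
    obtain ⟨G7, h7⟩ := f_sw23 (H := H) F7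
    obtain ⟨K, hK⟩ := i1 (.oc o1 o2 p3 p7 (!p9) p6 p4 p8 (!p5) G G5 G4 G3 G2 G7 G6) p1 p2
    refine ⟨K, fun u a w h => ?_⟩
    obtain ⟨c, a1, a2, s1, a', b', z, b1, b2, b3, b4, b5, b6, b7, b8, b9,
      t1, t2, t3, t4, t5, t6, t7⟩ := hK u a w h
    exact ⟨z, b1, b2, ⟨a', b', c, a1, a2, b3, b7, ar_not.1 b9, b6, b4, b8, ar_not.1 b5, s1,
      h2 _ _ _ t5, h3 _ _ _ t4, h4 _ _ _ t3, h5 _ _ _ t2, h6 _ _ _ t7, h7 _ _ _ t6⟩, t1⟩

theorem ar_flip {d : Bool} {x y : W} (h : ar H (!d) x y) : ar (fun a b => H b a) d x y := by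
  cases d <;> exact h

theorem f_rev (F : Fill) : ∃ G, ∀ x y z, Sat H G x y z → Sat (fun a b => H b a) F x y z := by
  induction F with
  | leaf => exact ⟨.leaf, fun _ _ _ _ => trivial⟩
  | st o1 o2 o3 F1 F2 F3 i1 i2 i3 =>
    obtain ⟨G1, h1⟩ := i1
    obtain ⟨G2, h2⟩ := i2
    obtain ⟨G3, h3⟩ := i3
    exact ⟨.st (!o1) (!o2) (!o3) G1 G2 G3, fun x y z ⟨v, a1, a2, a3, s1, s2, s3⟩ =>
      ⟨v, ar_flip a1, ar_flip a2, ar_flip a3, h1 _ _ _ s1, h2 _ _ _ s2, h3 _ _ _ s3⟩⟩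
  | oc o1 o2 o3 o4 o5 o6 o7 o8 o9 F1 F2 F3 F4 F5 F6 F7 i1 i2 i3 i4 i5 i6 i7 =>
    obtain ⟨G1, h1⟩ := i1
    obtain ⟨G2, h2⟩ := i2
    obtain ⟨G3, h3⟩ := i3
    obtain ⟨G4, h4⟩ := i4
    obtain ⟨G5, h5⟩ := i5
    obtain ⟨G6, h6⟩ := i6
    obtain ⟨G7, h7⟩ := i7
    refine ⟨.oc (!o1) (!o2) (!o3) (!o4) (!o5) (!o6) (!o7) (!o8) (!o9) G1 G2 G3 G4 G5 G6 G7, ?_⟩
    rintro x y z ⟨a, b, c, a1, a2, a3, a4, a5, a6, a7, a8, a9, s1, s2, s3, s4, s5, s6, s7⟩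
    exact ⟨a, b, c, ar_flip a1, ar_flip a2, ar_flip a3, ar_flip a4, ar_flip a5, ar_flip a6,
      ar_flip a7, ar_flip a8, ar_flip a9, h1 _ _ _ s1, h2 _ _ _ s2, h3 _ _ _ s3, h4 _ _ _ s4,
      h5 _ _ _ s5, h6 _ _ _ s6, h7 _ _ _ s7⟩

theorem good_flip (hG : Good H) : Good (fun a b => H b a) := by
  intro p q h F
  obtain ⟨G, hF⟩ := f_rev (H := H) F
  obtain ⟨z, hz⟩ := hG p q h.symm G
  exact ⟨z, hF _ _ _ hz⟩

end

/-- the union of `f c` over the set bits `c` of the mask. -/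
def orS (fuel : ℕ) (f : ℕ → ℕ) : ℕ → ℕ :=
  Nat.rec (motive := fun _ => ℕ → ℕ) (fun _ => 511)
    (fun _ r m => sel (Nat.beq m 0) 0 (frc (Nat.log2 m) fun i =>
      Nat.lor (f i) (frc (Nat.xor m (Nat.shiftLeft 1 i)) r))) fuel

theorem lor_testBit (x y i : ℕ) : (Nat.lor x y).testBit i = (x.testBit i || y.testBit i) :=
  Nat.testBit_or x y i

theorem orS_of (fuel : ℕ) (f : ℕ → ℕ) {j : ℕ} (hj : j < 9) : ∀ m i, m.testBit i = true →
    (f i).testBit j = true → (orS fuel f m).testBit j = true := by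
  induction fuel with
  | zero =>
    intros
    show (2 ^ 9 - 1).testBit j = true
    rw [Nat.testBit_two_pow_sub_one]; simpa using hj
  | succ n ih =>
    intro m i hm hf
    show (sel (Nat.beq m 0) 0 (frc (Nat.log2 m) fun i =>
      Nat.lor (f i) (frc (Nat.xor m (Nat.shiftLeft 1 i)) (orS n f)))).testBit j = true
    have h0 : Nat.beq m 0 = false := by
      rw [beq_false_iff]; rintro rfl; simp at hm
    rw [h0, frc_eq, frc_eq]
    show (Nat.lor _ _).testBit j = true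
    rw [lor_testBit, Bool.or_eq_true]
    by_cases e : i = Nat.log2 m
    · left; rw [← e]; exact hf
    · right; exact ih _ i (by rw [xor_bit _ _ _ e, hm]) hf

def mkM (f : ℕ → ℕ) (n : ℕ) : ℕ :=
  Nat.rec (motive := fun _ => ℕ) 0 (fun k r => Nat.lor (Nat.shiftLeft (f k) (Nat.mul 9 k)) r) n

theorem mkM_of (f : ℕ → ℕ) (n : ℕ) {i j : ℕ} (hi : i < n) (h : (f i).testBit j = true) :
    (mkM f n).testBit (9 * i + j) = true := by
  induction n with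
  | zero => omega
  | succ n ih =>
    show (Nat.lor (f n <<< (9 * n)) (mkM f n)).testBit _ = true
    rw [lor_testBit, Bool.or_eq_true]
    rcases Nat.lt_succ_iff_lt_or_eq.1 hi with h' | rfl
    · exact Or.inr (ih h')
    · left
      rw [Nat.testBit_shiftLeft]
      simpa using h

def colM (M i n : ℕ) : ℕ :=
  Nat.rec (motive := fun _ => ℕ) 0
    (fun k r => Nat.lor (Nat.shiftLeft (bn M (Nat.add (Nat.mul 9 k) i)) k) r) n

theorem colM_of (M i n : ℕ) {j : ℕ} (hj : j < n) (h : M.testBit (9 * j + i) = true) :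
    (colM M i n).testBit j = true := by
  induction n with
  | zero => omega
  | succ n ih =>
    show (Nat.lor (bn M (9 * n + i) <<< n) (colM M i n)).testBit _ = true
    rw [lor_testBit, Bool.or_eq_true]
    rcases Nat.lt_succ_iff_lt_or_eq.1 hj with h' | rfl
    · exact Or.inr (ih h')
    · left
      rw [Nat.testBit_shiftLeft, bn_eq, h]
      simp

def trM (M : ℕ) : ℕ := mkM (fun i => colM M i 9) 9

def s2M (M1 M2 B : ℕ) : ℕ :=
  Nat.land B (mkM (fun a => frc (row 9 M1 a) (orS 10 (row 9 M2))) 9)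

def s3M (M1 M2 M3 B : ℕ) : ℕ :=
  Nat.land B (mkM (fun a => frc (row 9 M1 a) (orS 10 fun c =>
    frc (frc (frc (row 9 M2 c) fun t => clr t a) (orS 10 (row 9 M3))) fun t => clr t c)) 9)

structure Lab {W : Type} (H : W → W → Prop) (u : W) (o : Bool) (g : ℕ → W) : Prop where
  mem : ∀ i, ar H o u (g i)
  sur : ∀ x, ar H o u x → ∃ i < 9, g i = x

def Enf {W : Type} (H : W → W → Prop) (u : W) (g : ℕ → W) (d : Bool) (M : ℕ) : Prop :=
  ∃ F, ∀ i j, i < 9 → j < 9 → ar H d (g i) (g j) → Sat H F u (g i) (g j) →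
    M.testBit (9 * i + j) = true

section
variable {W : Type} {H : W → W → Prop} {u : W} {o : Bool} {g : ℕ → W}

theorem trM_of {M i j : ℕ} (hi : i < 9) (hj : j < 9) (h : M.testBit (9 * j + i) = true) :
    (trM M).testBit (9 * i + j) = true := mkM_of _ _ hi (colM_of _ _ _ hj h)

theorem Enf.tr {d : Bool} {M : ℕ} (h : Enf H u g d M) : Enf H u g (!d) (trM M) := by
  obtain ⟨F, hF⟩ := h
  obtain ⟨G, hG⟩ := f_sw23 (H := H) F
  exact ⟨G, fun i j hi hj a s => trM_of hi hj (hF j i hj hi (ar_not.1 a) (hG _ _ _ s))⟩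

theorem Enf.s2 (l : Lab H u o g) {d1 d2 d : Bool} {M1 M2 B : ℕ} (h1 : Enf H u g d1 M1)
    (h2 : Enf H u g d2 M2)
    (hB : ∀ i j, i < 9 → j < 9 → ar H d (g i) (g j) → B.testBit (9 * i + j) = true) :
    Enf H u g d (s2M M1 M2 B) := by
  obtain ⟨F1, e1⟩ := h1
  obtain ⟨F2, e2⟩ := h2
  obtain ⟨G2, r2⟩ := f_rot (H := H) F2
  refine ⟨.st o d1 (!d2) F1 .leaf G2, ?_⟩
  rintro i j hi hj a ⟨c, a1, a2, a3, s1, -, s3⟩
  obtain ⟨c, hc, rfl⟩ := l.sur c a1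
  rw [s2M, land_testBit, hB i j hi hj a, Bool.true_and]
  refine mkM_of _ _ hi ?_
  rw [frc_eq]
  refine orS_of _ _ hj _ c ?_ ?_
  · rw [row_testBit _ _ _ _ hc]; exact e1 i c hi hc a2 s1
  · rw [row_testBit _ _ _ _ hj]; exact e2 c j hc hj (ar_not.1 a3) (r2 _ _ _ s3)

theorem Enf.s3 (hH : ∀ x y, H x y → ¬ H y x) (l : Lab H u o g) {d1 d2 d3 d : Bool}
    {M1 M2 M3 B : ℕ} (h1 : Enf H u g d1 M1) (h2 : Enf H u g d2 M2) (h3 : Enf H u g d3 M3)
    (hB : ∀ i j, i < 9 → j < 9 → ar H d (g i) (g j) → B.testBit (9 * i + j) = true) :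
    Enf H u g d (s3M M1 M2 M3 B) := by
  obtain ⟨F1, e1⟩ := h1
  obtain ⟨F2, e2⟩ := h2
  obtain ⟨F3, e3⟩ := h3
  obtain ⟨G3, r3⟩ := f_rot (H := H) F3
  refine ⟨.oc o d1 true false (!d3) o true true (!d2) F1 .leaf G3 F2 .leaf .leaf .leaf, ?_⟩
  rintro i j hi hj a ⟨v, e, c, a1, a2, a3, a4, a5, a6, a7, a8, a9, s1, -, s3, s4, -⟩
  obtain ⟨c, hc, rfl⟩ := l.sur c a1
  obtain ⟨e, he, rfl⟩ := l.sur e a6
  rw [s3M, land_testBit, hB i j hi hj a, Bool.true_and]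
  refine mkM_of _ _ hi ?_
  simp only [frc_eq]
  refine orS_of _ _ hj _ c ?_ ?_
  · rw [row_testBit _ _ _ _ hc]; exact e1 i c hi hc a2 s1
  · rw [clr_testBit _ _ _ (by rintro rfl; exact hH _ _ a7 a4)]
    refine orS_of _ _ hj _ e ?_ ?_
    · rw [clr_testBit _ _ _ (by rintro rfl; exact hH _ _ a3 a8), row_testBit _ _ _ _ he]
      exact e2 c e hc he (ar_not.1 a9) s4
    · rw [row_testBit _ _ _ _ hj]; exact e3 e j he hj (ar_not.1 a5) (r3 _ _ _ s3)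

theorem Enf.kill (hG : Good H) (l : Lab H u o g) {d : Bool} {M1 M2 : ℕ} (h1 : Enf H u g d M1)
    (h2 : Enf H u g d M2) {a : ℕ} (ha : a < 9) : row 9 (Nat.land M1 M2) a ≠ 0 := by
  obtain ⟨F1, e1⟩ := h1
  obtain ⟨F2, e2⟩ := h2
  obtain ⟨K, hK⟩ := f_two (H := H) F1 F2 o d
  obtain ⟨z, hz⟩ := hG u (g a) (adj_of_ar (l.mem a)) K
  obtain ⟨b, b1, b2, s1, s2⟩ := hK _ _ _ hz
  obtain ⟨b, hb, rfl⟩ := l.sur b b1
  refine nz_iff.1 (nz_of_testBit (i := b) ?_)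
  rw [row_testBit _ _ _ _ hb, land_testBit, e1 a b ha hb b2 s1, e2 a b ha hb b2 s2]
  rfl

end

def gv (C : ℕ) (V : List (Bool × ℕ)) (i : ℕ) : Bool × ℕ := V.getD i (true, C)

/-- one instruction: `(op, a, b, c, d)`, registers counted from the newest. -/
def ins (C C' Y : ℕ) (V : List (Bool × ℕ)) (t : ℕ × ℕ × ℕ × ℕ × Bool)
    (k : List (Bool × ℕ) → Bool) : Bool :=
  frc (gv C V t.2.1).2 fun M1 => frc (gv C V t.2.2.1).2 fun M2 => frc (gv C V t.2.2.2.1).2 fun M3 =>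
    frc (sel (Nat.beq t.1 0) (sel t.2.2.2.2 C C') <| sel (Nat.beq t.1 1) (trM M1) <|
      sel (Nat.beq t.1 2) (s2M M1 M2 (sel t.2.2.2.2 C C')) <|
      sel (Nat.beq t.1 3) (s3M M1 M2 M3 (sel t.2.2.2.2 C C')) Y) fun M =>
      (Nat.beq t.1 0 || Nat.beq t.1 2 || Nat.beq t.1 3 ||
        (Nat.beq t.1 1 && (t.2.2.2.2 == !(gv C V t.2.1).1)) ||
        (!(Nat.beq t.1 1) && t.2.2.2.2)) && k ((t.2.2.2.2, M) :: V)

noncomputable def runP (C C' Y k1 k2 : ℕ) (p : List (ℕ × ℕ × ℕ × ℕ × Bool)) :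
    List (Bool × ℕ) → Bool :=
  List.rec (motive := fun _ => List (Bool × ℕ) → Bool)
    (fun V => ((gv C V k1).1 == (gv C V k2).1) &&
      frc (Nat.land (gv C V k1).2 (gv C V k2).2) fun M => anyB 9 fun a => Nat.beq (row 9 M a) 0)
    (fun t _ r V => ins C C' Y V t r) p

theorem runP_sound {W : Type} {H : W → W → Prop} {u : W} {o : Bool} {g : ℕ → W}
    (hH : ∀ x y, H x y → ¬ H y x) (hG : Good H) (l : Lab H u o g) {C C' Y k1 k2 : ℕ}
    (hC : Ub 9 (fun i j => H (g i) (g j)) C C') (hY : Enf H u g true Y)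
    (p : List (ℕ × ℕ × ℕ × ℕ × Bool)) :
    ∀ V, (∀ v ∈ V, Enf H u g v.1 v.2) → runP C C' Y k1 k2 p V = true → False := by
  have hB : ∀ d i j, i < 9 → j < 9 → ar H d (g i) (g j) → (sel d C C').testBit (9 * i + j) = true := by
    intro d i j hi hj a
    cases d
    · exact (hC j i hj hi a).2
    · exact (hC i j hi hj a).1
  have base : ∀ d, Enf H u g d (sel d C C') := fun d => ⟨.leaf, fun i j hi hj a _ => hB d i j hi hj a⟩
  have hg : ∀ V, (∀ v ∈ V, Enf H u g v.1 v.2) → ∀ i, Enf H u g (gv C V i).1 (gv C V i).2 := by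
    intro V hV i
    unfold gv
    by_cases hi : i < V.length
    · rw [List.getD_eq_getElem _ _ hi]; exact hV _ (List.getElem_mem hi)
    · rw [List.getD_eq_default _ _ (not_lt.1 hi)]; exact base true
  induction p with
  | nil =>
    intro V hV h
    have h' : (((gv C V k1).1 == (gv C V k2).1) &&
      frc (Nat.land (gv C V k1).2 (gv C V k2).2) fun M =>
        anyB 9 fun a => Nat.beq (row 9 M a) 0) = true := h
    simp only [Bool.and_eq_true, beq_iff_eq, frc_eq, anyB_iff, Nat.beq_eq] at h'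
    obtain ⟨e, a, ha, h0⟩ := h'
    exact (hg V hV k1).kill hG l (e ▸ hg V hV k2) ha h0
  | cons t p ih =>
    intro V hV h
    have h' : ins C C' Y V t (runP C C' Y k1 k2 p) = true := h
    obtain ⟨op, a, b, c, d⟩ := t
    simp only [ins, frc_eq, Bool.and_eq_true] at h'
    refine ih _ (fun v hv => ?_) h'.2
    rcases List.mem_cons.1 hv with rfl | hv
    · have h1 := h'.1
      dsimp only
      cases e0 : Nat.beq op 0
      · cases e1 : Nat.beq op 1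
        · cases e2 : Nat.beq op 2
          · cases e3 : Nat.beq op 3
            · simp only [e0, e1, e2, e3, Bool.false_or, Bool.false_and, Bool.not_false,
                Bool.true_and] at h1
              subst h1
              exact hY
            · exact (hg V hV a).s3 hH l (hg V hV b) (hg V hV c) (hB d)
          · exact (hg V hV a).s2 l (hg V hV b) (hB d)
        · have e2 : Nat.beq op 2 = false := by
            rw [Nat.beq_eq] at e1; subst e1; rfl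
          have e3 : Nat.beq op 3 = false := by
            rw [Nat.beq_eq] at e1; subst e1; rfl
          simp only [e0, e1, e2, e3, Bool.false_or, Bool.true_and, Bool.not_true, Bool.false_and,
            Bool.or_false, beq_iff_eq] at h1
          subst h1
          exact (hg V hV a).tr
      · exact base d
    · exact hV v hv

end Pool.Agent.OCP
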