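import Pool.Agent.Lib.MP_55dd22_co.Bits2

/-! The certificate checker for targets with twenty vertices. -/

namespace Pool.Agent.OCP

open Classical in
noncomputable def cn {W : Type} [Fintype W] (p : W → Prop) : ℕ := (Finset.univ.filter p).card

theorem cn_split {W : Type} [Fintype W] (p q : W → Prop) :
    cn p = cn (fun z => p z ∧ q z) + cn (fun z => p z ∧ ¬ q z) := by
  classical
  unfold cn
  have := Finset.card_filter_add_card_filter_not (s := Finset.univ.filter p) q
  rw [Finset.filter_filter, Finset.filter_filter] at this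
  convert this.symm

theorem cn_congr {W : Type} [Fintype W] {p q : W → Prop} (h : ∀ z, p z ↔ q z) : cn p = cn q := by
  rw [show p = q from funext fun z => propext (h z)]

theorem cn_single {W : Type} [Fintype W] (y : W) : cn (fun z => z = y) = 1 := by
  classical
  unfold cn
  rw [Finset.card_eq_one]
  exact ⟨y, by ext z; simp⟩

theorem cn_univ {W : Type} [Fintype W] : cn (fun _ : W => True) = Fintype.card W := by
  unfold cn
  simp

def tbl : ℕ := 0xa998988798878776988787768776766598878776877676658776766576656554988787768776766587767665766565548776766576656554766565546554544398878776877676658776766576656554877676657665655476656554655454438776766576656554766565546554544376656554655454436554544354434332988787768776766587767665766565548776766576656554766565546554544387767665766565547665655465545443766565546554544365545443544343328776766576656554766565546554544376656554655454436554544354434332766565546554544365545443544343326554544354434332544343324332322198878776877676658776766576656554877676657665655476656554655454438776766576656554766565546554544376656554655454436554544354434332877676657665655476656554655454437665655465545443655454435443433276656554655454436554544354434332655454435443433254434332433232218776766576656554766565546554544376656554655454436554544354434332766565546554544365545443544343326554544354434332544343324332322176656554655454436554544354434332655454435443433254434332433232216554544354434332544343324332322154434332433232214332322132212110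

def pc10 (m : ℕ) : ℕ := Nat.land (Nat.shiftRight tbl (Nat.mul 4 m)) 15

def pcnt (m : ℕ) : ℕ := Nat.add (pc10 (Nat.land m 1023)) (pc10 (Nat.land (Nat.shiftRight m 10) 1023))

def pcS (w m : ℕ) : ℕ := ((Finset.range w).filter (fun i => m.testBit i = true)).card

def pcL (m : ℕ) : ℕ → ℕ
  | 0 => 0
  | k + 1 => pcL m k + sel (tb m k) 1 0

theorem pcL_eq (m k : ℕ) : pcL m k = pcS k m := by
  induction k with
  | zero => simp [pcL, pcS]
  | succ k ih =>
    rw [pcL, ih, tb_eq, pcS, pcS, Finset.range_add_one, Finset.filter_insert]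
    cases h : m.testBit k
    · simp [sel]
    · simp [sel]

theorem pc10_all : allB 1024 (fun m => Nat.beq (pc10 m) (pcL m 10)) = true := by decide +kernel

theorem pc10_eq (m : ℕ) : pc10 (Nat.land m 1023) = pcS 10 m := by
  have h : Nat.land m 1023 = m % 2 ^ 10 := Nat.and_two_pow_sub_one_eq_mod m 10
  have := (allB_iff _ _).1 pc10_all (Nat.land m 1023) (by rw [h]; exact Nat.mod_lt _ (by norm_num))
  rw [Nat.beq_eq] at this
  rw [this, pcL_eq, h, pcS, pcS]
  congr 1
  apply Finset.filter_congr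
  intro i hi
  rw [Nat.testBit_mod_two_pow]
  simp [Finset.mem_range.1 hi]

theorem pcnt_eq (m : ℕ) : pcnt m = pcS 20 m := by
  show pc10 _ + pc10 _ = _
  rw [pc10_eq, pc10_eq, ← pcL_eq, ← pcL_eq, ← pcL_eq]
  have : ∀ i, tb (Nat.shiftRight m 10) i = tb m (10 + i) := by
    intro i
    rw [tb_eq, tb_eq]
    exact Nat.testBit_shiftRight ..
  simp only [pcL, this, Nat.reduceAdd]
  omega

theorem cn_le_pc {W : Type} [Fintype W] {g : ℕ → W} (hs : ∀ x, ∃ i < 20, g i = x) {p : W → Prop}
    {m : ℕ} (h : ∀ i < 20, p (g i) → m.testBit i = true) : cn p ≤ pcnt m := by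
  classical
  rw [pcnt_eq]
  refine le_trans (Finset.card_le_card (t := ((Finset.range 20).filter
    (fun i => m.testBit i = true)).image g) ?_) Finset.card_image_le
  intro x hx
  obtain ⟨i, hi, rfl⟩ := hs x
  simp only [Finset.mem_filter, Finset.mem_univ, true_and] at hx
  exact Finset.mem_image_of_mem _ (Finset.mem_filter.2 ⟨Finset.mem_range.2 hi, h i hi hx⟩)

theorem pc_le_cn {W : Type} [Fintype W] {g : ℕ → W}
    (hi : ∀ i j, i < 20 → j < 20 → g i = g j → i = j) {p : W → Prop}
    {m : ℕ} (h : ∀ i < 20, m.testBit i = true → p (g i)) : pcnt m ≤ cn p := by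
  classical
  rw [pcnt_eq]
  refine Finset.card_le_card_of_injOn g ?_ ?_
  · intro i hi'
    simp only [Finset.coe_filter, Finset.mem_range, Set.mem_ofPred_eq, Finset.mem_univ,
      true_and] at hi' ⊢
    exact h i hi'.1 hi'.2
  · intro i h1 j h2 e
    simp only [Finset.coe_filter, Finset.mem_range, Set.mem_ofPred_eq] at h1 h2
    exact hi i j h1.1 h2.1 e

structure Cfg {W : Type} [Fintype W] (T : W → W → Prop) : Prop where
  card : Fintype.card W = 20
  anti : ∀ x y, T x y → ¬ T y x
  tot : ∀ x y, x ≠ y → T x y ∨ T y x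
  deg : ∀ x d, 9 ≤ cn (ar T d x)
  univ : ∀ x d a b, cn (ar T d x) ≤ 9 → ar T d x a → ar T d x b → a ≠ b → ∀ F, Sat T F x a b

def Reg {W : Type} [Fintype W] (T : W → W → Prop) : Prop :=
  ∀ x y, T x y → (cn (ar T true x) ≤ 9 ∨ cn (ar T false y) ≤ 9) → cn (fun z => T x z ∧ T z y) = 4

theorem Cfg.sum {W : Type} [Fintype W] {T : W → W → Prop} (h : Cfg T) (x : W) :
    cn (ar T true x) + cn (ar T false x) = 19 := by
  have h1 := cn_split (fun _ : W => True) (fun z => z = x)
  have h2 := cn_split (fun z : W => True ∧ ¬ z = x) (fun z => T x z)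
  rw [cn_univ, h.card, cn_congr (q := fun z => z = x) (by simp), cn_single] at h1
  rw [cn_congr (p := fun z => (True ∧ ¬ z = x) ∧ T x z) (q := ar T true x),
    cn_congr (p := fun z => (True ∧ ¬ z = x) ∧ ¬ T x z) (q := ar T false x)] at h2
  · omega
  · intro z
    refine ⟨fun ⟨⟨_, n⟩, t⟩ => (h.tot z x n).resolve_right t, fun t => ⟨⟨trivial, ?_⟩, h.anti _ _ t⟩⟩
    rintro rfl; exact h.anti _ _ t t
  · intro z
    refine ⟨fun t => t.2, fun t => ⟨⟨trivial, ?_⟩, t⟩⟩
    rintro rfl; exact h.anti _ _ t t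

theorem Cfg.classes {W : Type} [Fintype W] {T : W → W → Prop} (h : Cfg T) {x y : W} (t : T x y)
    (h4 : cn (fun z => T x z ∧ T z y) = 4) :
    cn (fun z => T x z ∧ T y z) + 5 = cn (ar T true x) ∧
    cn (fun z => T z x ∧ T z y) + 5 = cn (ar T false y) ∧
    cn (fun z => T z x ∧ T y z) + cn (ar T true x) + cn (ar T false y) = 24 := by
  have irr : ∀ z, ¬ T z z := fun z t => h.anti _ _ t t
  have a1 := cn_split (ar T true x) (fun z => T z y)
  have a2 := cn_split (fun z => ar T true x z ∧ ¬ T z y) (fun z => z = y)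
  have b1 := cn_split (ar T false y) (fun z => T x z)
  have b2 := cn_split (fun z => ar T false y z ∧ ¬ T x z) (fun z => z = x)
  have c1 := cn_split (ar T true y) (fun z => T x z)
  have s := h.sum y
  rw [cn_congr (p := fun z => (ar T true x z ∧ ¬ T z y) ∧ z = y) (q := fun z => z = y)
      (fun z => ⟨fun k => k.2, by rintro rfl; exact ⟨⟨t, irr _⟩, rfl⟩⟩), cn_single,
    cn_congr (p := fun z => (ar T true x z ∧ ¬ T z y) ∧ ¬ z = y) (q := fun z => T x z ∧ T y z)
      (fun z => ⟨fun k => ⟨k.1.1, (h.tot z y k.2).resolve_left k.1.2⟩,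
        fun k => ⟨⟨k.1, h.anti _ _ k.2⟩, by rintro rfl; exact irr _ k.2⟩⟩)] at a2
  rw [cn_congr (p := fun z => (ar T false y z ∧ ¬ T x z) ∧ z = x) (q := fun z => z = x)
      (fun z => ⟨fun k => k.2, by rintro rfl; exact ⟨⟨t, irr _⟩, rfl⟩⟩), cn_single,
    cn_congr (p := fun z => (ar T false y z ∧ ¬ T x z) ∧ ¬ z = x) (q := fun z => T z x ∧ T z y)
      (fun z => ⟨fun k => ⟨(h.tot z x k.2).resolve_right k.1.2, k.1.1⟩,
        fun k => ⟨⟨k.2, h.anti _ _ k.1⟩, by rintro rfl; exact irr _ k.1⟩⟩)] at b2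
  rw [cn_congr (p := fun z => ar T false y z ∧ T x z) (q := fun z => T x z ∧ T z y)
      (fun z => and_comm)] at b1
  rw [cn_congr (p := fun z => ar T true y z ∧ T x z) (q := fun z => T x z ∧ T y z)
      (fun z => and_comm),
    cn_congr (p := fun z => ar T true y z ∧ ¬ T x z) (q := fun z => T z x ∧ T y z)
      (fun z => ⟨fun k => ⟨(h.tot z x (by rintro rfl; exact h.anti _ _ t k.1)).resolve_right k.2, k.1⟩,
        fun k => ⟨k.2, h.anti _ _ k.1⟩⟩)] at c1
  have a1' : cn (ar T true x) = cn (fun z => T x z ∧ T z y) + cn (fun z => ar T true x z ∧ ¬ T z y) := a1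
  omega

structure Inv {W : Type} [Fintype W] (T : W → W → Prop) (g : ℕ → W) (G G' P Q : ℕ) : Prop where
  inj : ∀ i j, i < 20 → j < 20 → g i = g j → i = j
  sur : ∀ x, ∃ i < 20, g i = x
  ub : Ub 20 (fun a b => T (g a) (g b)) G G'
  tr : Trp 20 G G'
  ty : ∀ d x, x < 20 → (sel d P Q).testBit x = true → cn (ar T d (g x)) ≤ 9

def bn (m i : ℕ) : ℕ := Nat.land (Nat.shiftRight m i) 1

theorem bn_eq (m i : ℕ) : bn m i = if m.testBit i then 1 else 0 := by
  rw [← tb_eq]
  unfold bn tb
  have h : Nat.land (Nat.shiftRight m i) 1 = (m >>> i) % 2 := Nat.and_one_is_mod _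
  rw [h]
  rcases Nat.mod_two_eq_zero_or_one (m >>> i) with e | e <;> rw [e] <;> rfl

def kDeg (G G' P Q x : ℕ) (d : Bool) : Bool :=
  Nat.ble (pcnt (nb 20 G G' x d)) (Nat.add 8 (bn (sel d Q P) x))

def kUni (G G' P Q x a b : ℕ) (d : Bool) : Bool :=
  tb (sel d P Q) x && !(Nat.beq a b) && !(Nat.beq a x) && !(Nat.beq b x) &&
    frc (nb 20 G G' x (!d)) fun m => !(tb m a) && !(tb m b)

def pcLo (P Q x y : ℕ) (a b : Bool) : ℕ :=
  sel a (sel b (Nat.add 4 (bn Q x)) 4) (sel b (Nat.add 4 (Nat.add (bn P x) (bn Q y))) (Nat.add 4 (bn P y)))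

def pcHi (P Q x y : ℕ) (a b : Bool) : ℕ :=
  sel a (sel b (Nat.sub 5 (bn P x)) 4) (sel b (Nat.sub 6 (Nat.add (bn Q x) (bn P y))) (Nat.sub 5 (bn Q y)))

def kPc (G G' P Q x y : ℕ) (a b md : Bool) : Bool :=
  !(Nat.beq x y) && !(tb G' (Nat.add (Nat.mul 20 x) y)) && (tb P x || tb Q y) &&
    Bool.rec
      (Nat.ble (Nat.succ (frc (Nat.land (nb 20 G G' x a) (nb 20 G G' y b)) pcnt)) (pcLo P Q x y a b))
      (Nat.ble (Nat.succ (pcHi P Q x y a b))
        (frc (Nat.xor 1048575 (Nat.lor (Nat.lor (Nat.shiftLeft 1 x) (Nat.shiftLeft 1 y))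
          (Nat.lor (nb 20 G G' x (!a)) (nb 20 G G' y (!b))))) pcnt)) md

section
variable {W : Type} [Fintype W] {T : W → W → Prop} {g : ℕ → W} {G G' P Q : ℕ}

theorem Inv.nbt (h : Inv T g G G' P Q) {d : Bool} {i j : ℕ} (hi : i < 20) (hj : j < 20)
    (t : ar T d (g i) (g j)) : (nb 20 G G' i d).testBit j = true :=
  h.ub.nb hi hj (ar_comp.2 t)

theorem Inv.dfn (h : Inv T g G G' P Q) (c : Cfg T) {d : Bool} {i j : ℕ} (hi : i < 20) (hj : j < 20)
    (ne : j ≠ i) (t : (nb 20 G G' i (!d)).testBit j = false) : ar T d (g i) (g j) := by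
  have n : ¬ ar T (!d) (g i) (g j) := fun t' => by
    rw [h.nbt hi hj t'] at t; exact absurd t (by simp)
  have := c.tot (g i) (g j) (fun e => ne (h.inj _ _ hi hj e).symm)
  cases d
  · exact this.resolve_left n
  · exact this.resolve_right n

theorem kDeg_sound (c : Cfg T) (h : Inv T g G G' P Q) {x : ℕ} (hx : x < 20) {d : Bool}
    (k : kDeg G G' P Q x d = true) : False := by
  have h1 : cn (ar T d (g x)) ≤ pcnt (nb 20 G G' x d) :=
    cn_le_pc h.sur (fun i hi t => h.nbt hx hi t)
  have h2 : pcnt (nb 20 G G' x d) ≤ 8 + bn (sel d Q P) x := Nat.le_of_ble_eq_true k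
  have h3 := c.deg (g x) d
  have h4 := c.sum (g x)
  rw [bn_eq] at h2
  split_ifs at h2 with hb
  · have h5 := h.ty (!d) x hx (by cases d <;> exact hb)
    cases d
    · have h5' : cn (ar T true (g x)) ≤ 9 := h5
      omega
    · have h5' : cn (ar T false (g x)) ≤ 9 := h5
      omega
  · omega

theorem kUni_sound (c : Cfg T) (h : Inv T g G G' P Q) {x a b : ℕ} (hx : x < 20) (ha : a < 20)
    (hb : b < 20) {d : Bool} (k : kUni G G' P Q x a b d = true) (F : Fill) :
    satB 20 G G' F x a b = true := by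
  simp only [kUni, frc_eq, Bool.and_eq_true, Bool.not_eq_true', beq_false_iff, tb_eq] at k
  obtain ⟨⟨⟨⟨k1, k2⟩, k3⟩, k4⟩, k5, k6⟩ := k
  exact satB_of h.sur h.ub F x a b hx ha hb (c.univ _ d _ _ (h.ty d x hx k1)
    (h.dfn c hx ha k3 k5) (h.dfn c hx hb k4 k6) (fun e => k2 (h.inj _ _ ha hb e)) F)

theorem kPc_sound (c : Cfg T) (r : Reg T) (h : Inv T g G G' P Q) {x y : ℕ} (hx : x < 20)
    (hy : y < 20) {a b md : Bool} (k : kPc G G' P Q x y a b md = true) : False := by
  simp only [kPc, frc_eq, Bool.and_eq_true, Bool.not_eq_true', beq_false_iff, tb_eq,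
    Bool.or_eq_true] at k
  obtain ⟨⟨⟨k1, k2⟩, k3⟩, k4⟩ := k
  have t : T (g x) (g y) := by
    refine h.dfn c (d := true) hx hy k1.symm ?_
    show (row 20 G' x).testBit y = false
    rw [row_testBit _ _ _ _ hy]; exact k2
  have h4 := r _ _ t (k3.imp (h.ty true x hx) (h.ty false y hy))
  obtain ⟨e1, e2, e3⟩ := c.classes t h4
  have px : P.testBit x = true → cn (ar T true (g x)) ≤ 9 := h.ty true x hx
  have qx : Q.testBit x = true → cn (ar T false (g x)) ≤ 9 := h.ty false x hx
  have py : P.testBit y = true → cn (ar T true (g y)) ≤ 9 := h.ty true y hy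
  have qy : Q.testBit y = true → cn (ar T false (g y)) ≤ 9 := h.ty false y hy
  have s1 := c.sum (g x)
  have s2 := c.sum (g y)
  have d1 := c.deg (g x) true
  have d2 := c.deg (g x) false
  have d3 := c.deg (g y) true
  have d4 := c.deg (g y) false
  have bd : pcLo P Q x y a b ≤ cn (fun z => ar T a (g x) z ∧ ar T b (g y) z) ∧
      cn (fun z => ar T a (g x) z ∧ ar T b (g y) z) ≤ pcHi P Q x y a b := by
    have b1 : bn P x ≤ 1 ∧ (bn P x = 1 → cn (ar T true (g x)) ≤ 9) := by
      rw [bn_eq]; split_ifs with hb <;> simp [hb, px]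
    have b2 : bn Q x ≤ 1 ∧ (bn Q x = 1 → cn (ar T false (g x)) ≤ 9) := by
      rw [bn_eq]; split_ifs with hb <;> simp [hb, qx]
    have b3 : bn P y ≤ 1 ∧ (bn P y = 1 → cn (ar T true (g y)) ≤ 9) := by
      rw [bn_eq]; split_ifs with hb <;> simp [hb, py]
    have b4 : bn Q y ≤ 1 ∧ (bn Q y = 1 → cn (ar T false (g y)) ≤ 9) := by
      rw [bn_eq]; split_ifs with hb <;> simp [hb, qy]
    cases a <;> cases b
    · show 4 + bn P y ≤ cn (fun z => T z (g x) ∧ T z (g y)) ∧
        cn (fun z => T z (g x) ∧ T z (g y)) ≤ 5 - bn Q y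
      omega
    · show 4 + (bn P x + bn Q y) ≤ cn (fun z => T z (g x) ∧ T (g y) z) ∧
        cn (fun z => T z (g x) ∧ T (g y) z) ≤ 6 - (bn Q x + bn P y)
      omega
    · show 4 ≤ cn (fun z => T (g x) z ∧ T z (g y)) ∧ cn (fun z => T (g x) z ∧ T z (g y)) ≤ 4
      omega
    · show 4 + bn Q x ≤ cn (fun z => T (g x) z ∧ T (g y) z) ∧
        cn (fun z => T (g x) z ∧ T (g y) z) ≤ 5 - bn P x
      omega
  cases md
  · have h5 : cn (fun z => ar T a (g x) z ∧ ar T b (g y) z) ≤
        pcnt (Nat.land (nb 20 G G' x a) (nb 20 G G' y b)) :=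
      cn_le_pc h.sur (fun i hi t => by
        rw [land_testBit, h.nbt hx hi t.1, h.nbt hy hi t.2]; rfl)
    have h6 := Nat.le_of_ble_eq_true k4
    omega
  · have h5 : pcnt (Nat.xor 1048575 (Nat.lor (Nat.lor (Nat.shiftLeft 1 x) (Nat.shiftLeft 1 y))
          (Nat.lor (nb 20 G G' x (!a)) (nb 20 G G' y (!b))))) ≤
        cn (fun z => ar T a (g x) z ∧ ar T b (g y) z) := by
      refine pc_le_cn h.inj (fun i hi t => ?_)
      have t' : ((2 ^ 20 - 1) ^^^ ((1 <<< x ||| 1 <<< y) |||
        (nb 20 G G' x (!a) ||| nb 20 G G' y (!b)))).testBit i = true := t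
      simp only [Nat.testBit_xor, Nat.testBit_two_pow_sub_one, hi, decide_true, Nat.testBit_or,
        Nat.one_shiftLeft, Nat.testBit_two_pow, Bool.true_xor, Bool.not_eq_true', Bool.or_eq_false_iff,
        decide_eq_false_iff_not] at t'
      exact ⟨h.dfn c hx hi (Ne.symm t'.1.1) t'.2.1, h.dfn c hy hi (Ne.symm t'.1.2) t'.2.2⟩
    have h6 := Nat.le_of_ble_eq_true k4
    omega

end

end Pool.Agent.OCP
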