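import Pool.Agent.Lib.MP_55dd22_co.Chk20

/-! The tree checker for twenty vertices and its soundness. -/

namespace Pool.Agent.OCP

def fld (w h k : ℕ) : ℕ := Nat.mod (Nat.land (Nat.shiftRight h k) 31) w

theorem fld_lt {w : ℕ} (hw : 0 < w) (h k : ℕ) : fld w h k < w := Nat.mod_lt _ hw

/-- continue with the rest of the stream unless the first part failed. -/
def thn (s : ℕ) (k : ℕ → ℕ) : ℕ :=
  Nat.rec (motive := fun _ => ℕ) 0 (fun n _ => k (Nat.succ n)) s

theorem thn_ne {s : ℕ} {k : ℕ → ℕ} (h : thn s k ≠ 0) : s ≠ 0 ∧ k s ≠ 0 := by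
  cases s with
  | zero => exact absurd rfl h
  | succ n => exact ⟨Nat.succ_ne_zero n, h⟩

def symOk (G G' P Q x w m : ℕ) : Bool :=
  !(tb m x) && !(Nat.beq w x) &&
    !(anyS 21 (fun c => !(twin 20 G G' w c && (tb P w == tb P c) && (tb Q w == tb Q c))) m)

noncomputable def step (reg : Bool) (known : ℕ → ℕ → ℕ → ℕ → Bool)
    (r : ℕ → ℕ → ℕ → ℕ → ℕ → ℕ) (G G' P Q s : ℕ) : ℕ :=
  frc (Nat.land s 17179869183) fun h => frc (Nat.land h 7) fun op => frc (fld 20 h 3) fun x =>
    sel (Nat.beq op 0)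
      (frc (fld 20 h 8) fun y => frc (Nat.add (Nat.mul 20 x) y) fun xy =>
        frc (Nat.add (Nat.mul 20 y) x) fun yx =>
        thn (frc (clr G yx) fun G1 => frc (clr G' xy) fun G1' =>
              frc (Nat.shiftRight s 13) fun s1 => r G1 G1' P Q s1)
          fun s2 => frc (clr G xy) fun G2 => frc (clr G' yx) fun G2' => r G2 G2' P Q s2) <|
    sel (Nat.beq op 5)
      (frc (fld 20 h 8) fun a => frc (fld 20 h 13) fun b =>
        sel (kUni G G' P Q x a b (tb h 18))
          (frc (Nat.shiftRight s 19) fun s1 =>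
            decF 12 s1 fun F s2 => sel (satB 20 G G' F x a b) 0 s2) 0) <|
    sel (Nat.beq op 4)
      (frc (fld 20 h 8) fun y =>
        sel (reg && kPc G G' P Q x y (tb h 13) (tb h 14) (tb h 15)) (Nat.shiftRight s 16) 0) <|
    sel (Nat.beq op 3) (sel (kDeg G G' P Q x (tb h 8)) (Nat.shiftRight s 9) 0) <|
    sel (Nat.beq op 1)
      (frc (fld 20 h 8) fun w => frc (Nat.mod (Nat.shiftRight h 14) 1048576) fun m =>
        sel (symOk G G' P Q x w m)
          (thn (clrS 20 1 x (!(tb h 13))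
                (fun G1 G1' => frc (Nat.shiftRight s 34) fun s1 => r G1 G1' P Q s1)
                (Nat.shiftLeft 1 w) G G')
            fun s2 => clrS 20 21 x (tb h 13) (fun G2 G2' => r G2 G2' P Q s2) m G G') 0) <|
    sel (Nat.beq op 2)
      (thn (frc (Nat.lor Q (Nat.shiftLeft 1 x)) fun Q1 =>
              frc (Nat.shiftRight s 8) fun s1 => r G G' P Q1 s1)
        fun s2 => frc (Nat.lor P (Nat.shiftLeft 1 x)) fun P1 => r G G' P1 Q s2) <|
    sel (known G G' P Q) (Nat.shiftRight s 3) 0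

noncomputable def chk (reg : Bool) (known : ℕ → ℕ → ℕ → ℕ → Bool) (fuel : ℕ) :
    ℕ → ℕ → ℕ → ℕ → ℕ → ℕ :=
  Nat.rec (motive := fun _ => ℕ → ℕ → ℕ → ℕ → ℕ → ℕ) (fun _ _ _ _ _ => 0)
    (fun _ r => step reg known r) fuel

def Dead {W : Type} [Fintype W] (T : W → W → Prop) (G G' P Q : ℕ) : Prop :=
  ∀ g : ℕ → W, ¬ Inv T g G G' P Q

section
variable {W : Type} [Fintype W] {T : W → W → Prop} {g : ℕ → W} {G G' P Q : ℕ}

theorem Inv.re (h : Inv T g G G' P Q) {G1 G1' : ℕ} (u : Ub 20 (fun a b => T (g a) (g b)) G1 G1')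
    (t : Trp 20 G1 G1') : Inv T g G1 G1' P Q := ⟨h.inj, h.sur, u, t, h.ty⟩

theorem swap_lt {w a b i : ℕ} (ha : a < w) (hb : b < w) (hi : i < w) : Equiv.swap a b i < w := by
  rw [Equiv.swap_apply_def]
  split_ifs <;> assumption

theorem Inv.swap (c : Cfg T) (h : Inv T g G G' P Q) {a b : ℕ} (ha : a < 20) (hb : b < 20)
    (tw : twin 20 G G' a b = true) (hP : P.testBit a = P.testBit b)
    (hQ : Q.testBit a = Q.testBit b) : Inv T (fun i => g (Equiv.swap a b i)) G G' P Q := by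
  refine ⟨fun i j hi hj e => ?_, fun x => ?_, ?_, h.tr, fun d x hx hb' => ?_⟩
  · exact (Equiv.swap a b).injective (h.inj _ _ (swap_lt ha hb hi) (swap_lt ha hb hj) e)
  · obtain ⟨i, hi, rfl⟩ := h.sur x
    exact ⟨Equiv.swap a b i, swap_lt ha hb hi, by simp⟩
  · exact h.ub.twin h.tr (fun i t => c.anti _ _ t t) ha hb tw
  · refine h.ty d _ (swap_lt ha hb hx) ?_
    have e : (sel d P Q).testBit a = (sel d P Q).testBit b := by cases d <;> assumption
    rw [Equiv.swap_apply_def]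
    split_ifs with h1 h2
    · rw [← e, ← h1, hb']
    · rw [e, ← h2, hb']
    · exact hb'

theorem lor_bit {m x i : ℕ} (h : (Nat.lor m (Nat.shiftLeft 1 x)).testBit i = true) :
    m.testBit i = true ∨ i = x := by
  have h' : (m ||| 1 <<< x).testBit i = true := h
  rw [Nat.testBit_or, Nat.one_shiftLeft, Nat.testBit_two_pow, Bool.or_eq_true, decide_eq_true_eq] at h'
  exact h'.imp id Eq.symm

theorem step_sound (c : Cfg T) {reg : Bool} (hr : reg = true → Reg T)
    {known : ℕ → ℕ → ℕ → ℕ → Bool} (hk : ∀ G G' P Q, known G G' P Q = true → Dead T G G' P Q)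
    {r : ℕ → ℕ → ℕ → ℕ → ℕ → ℕ} (ih : ∀ G G' P Q s, r G G' P Q s ≠ 0 → Dead T G G' P Q)
    {s : ℕ} (hs : step reg known r G G' P Q s ≠ 0) : Dead T G G' P Q := by
  intro g h
  simp only [step, frc_eq] at hs
  generalize Nat.land s 17179869183 = hd at hs
  have hx := fld_lt (w := 20) (by norm_num) hd 3
  have hy := fld_lt (w := 20) (by norm_num) hd 8
  have hz := fld_lt (w := 20) (by norm_num) hd 13
  generalize fld 20 hd 3 = x at hs hx
  generalize fld 20 hd 8 = y at hs hy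
  generalize fld 20 hd 13 = z at hs hz
  rcases sel_ne hs with ⟨-, hs⟩ | ⟨-, hs⟩
  · obtain ⟨h1, h2⟩ := thn_ne hs
    by_cases t : T (g x) (g y)
    · exact ih _ _ _ _ _ h1 g (h.re (h.ub.clr hy hx (c.anti _ _ t)) (h.tr.clr hy hx))
    · exact ih _ _ _ _ _ h2 g (h.re (h.ub.clr hx hy t) (h.tr.clr hx hy))
  rcases sel_ne hs with ⟨-, hs⟩ | ⟨-, hs⟩
  · obtain ⟨h1, h2⟩ := sel_zero hs
    obtain ⟨F, s', h3⟩ := decF_ne _ _ _ h2
    rw [kUni_sound c h hx hy hz h1 F] at h3
    exact h3 rfl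
  rcases sel_ne hs with ⟨-, hs⟩ | ⟨-, hs⟩
  · obtain ⟨h1, -⟩ := sel_zero hs
    rw [Bool.and_eq_true] at h1
    exact kPc_sound c (hr h1.1) h hx hy h1.2
  rcases sel_ne hs with ⟨-, hs⟩ | ⟨-, hs⟩
  · exact kDeg_sound c h hx (sel_zero hs).1
  rcases sel_ne hs with ⟨-, hs⟩ | ⟨-, hs⟩
  · obtain ⟨h1, h2⟩ := sel_zero hs
    obtain ⟨h3, h4⟩ := thn_ne h2
    generalize tb hd 13 = d at h3 h4
    have hm : ∀ i, (Nat.mod (Nat.shiftRight hd 14) 1048576).testBit i = true → i < 20 := by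
      intro i hi
      have hi' : ((hd >>> 14) % 2 ^ 20).testBit i = true := hi
      rw [Nat.testBit_mod_two_pow] at hi'
      simp only [Bool.and_eq_true, decide_eq_true_eq] at hi'
      exact hi'.1
    generalize Nat.mod (Nat.shiftRight hd 14) 1048576 = m at h1 h4 hm
    simp only [symOk, Bool.and_eq_true, Bool.not_eq_true', beq_false_iff, tb_eq] at h1
    obtain ⟨⟨k1, k2⟩, k3⟩ := h1
    have first : ∀ g', Inv T g' G G' P Q → ¬ ar T d (g' x) (g' y) := by
      intro g' h' t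
      obtain ⟨G1, G1', u1, t1, k⟩ := clrS_ne (T := fun a b => T (g' a) (g' b)) hx _ _ _ _ h'.ub h'.tr
        (fun i hi => by
          have hi' : (1 <<< y).testBit i = true := hi
          rw [Nat.one_shiftLeft, Nat.testBit_two_pow] at hi'
          obtain rfl : y = i := by simpa using hi'
          refine ⟨hy, fun t' => ?_⟩
          rw [ar_comp, ar_not] at t'
          cases d
          · exact c.anti _ _ t t'
          · exact c.anti _ _ t t') h3
      exact ih _ _ _ _ _ k g' (h'.re u1 t1)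
    obtain ⟨G1, G1', u1, t1, k⟩ := clrS_ne (T := fun a b => T (g a) (g b)) hx _ _ _ _ h.ub h.tr
      (fun i hi => ⟨hm i hi, fun t => by
        have k4 := all_of_anyS k3 i hi
        simp only [Bool.and_eq_true, beq_iff_eq] at k4
        have hix : x ≠ i := by
          rintro rfl; rw [hi] at k1; exact absurd k1 (by simp)
        refine first _ (h.swap c hy (hm i hi) k4.1.1 k4.1.2 k4.2) ?_
        simp only [Equiv.swap_apply_left, Equiv.swap_apply_of_ne_of_ne (Ne.symm k2) hix]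
        exact ar_comp.1 t⟩) h4
    exact ih _ _ _ _ _ k g (h.re u1 t1)
  rcases sel_ne hs with ⟨-, hs⟩ | ⟨-, hs⟩
  · obtain ⟨h1, h2⟩ := thn_ne hs
    have s1 := c.sum (g x)
    by_cases t : cn (ar T false (g x)) ≤ 9
    · refine ih _ _ _ _ _ h1 g ⟨h.inj, h.sur, h.ub, h.tr, fun d i hi hb => ?_⟩
      cases d
      · rcases lor_bit hb with hb | rfl
        · exact h.ty false i hi hb
        · exact t
      · exact h.ty true i hi hb
    · refine ih _ _ _ _ _ h2 g ⟨h.inj, h.sur, h.ub, h.tr, fun d i hi hb => ?_⟩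
      cases d
      · exact h.ty false i hi hb
      · rcases lor_bit hb with hb | rfl
        · exact h.ty true i hi hb
        · omega
  · exact hk _ _ _ _ (sel_zero hs).1 g h

theorem chk_sound (c : Cfg T) {reg : Bool} (hr : reg = true → Reg T)
    {known : ℕ → ℕ → ℕ → ℕ → Bool} (hk : ∀ G G' P Q, known G G' P Q = true → Dead T G G' P Q)
    (fuel : ℕ) : ∀ G G' P Q s, chk reg known fuel G G' P Q s ≠ 0 → Dead T G G' P Q := by
  induction fuel with
  | zero => intro G G' P Q s h; exact absurd rfl h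
  | succ n ih => intro G G' P Q s h; exact step_sound c hr hk ih h

end

/-- all listed states are refuted by their streams. -/
noncomputable def chkL (reg : Bool) (L : List (ℕ × ℕ × ℕ × ℕ × ℕ)) : Bool :=
  List.rec (motive := fun _ => Bool) true
    (fun e _ r => nz (chk reg (fun _ _ _ _ => false) 250 e.1 e.2.1 e.2.2.1 e.2.2.2.1 e.2.2.2.2) && r) L

def memL (L : List (ℕ × ℕ × ℕ × ℕ × ℕ)) (G G' P Q : ℕ) : Bool :=
  List.rec (motive := fun _ => Bool) false
    (fun e _ r => (Nat.beq e.1 G && Nat.beq e.2.1 G' && Nat.beq e.2.2.1 P && Nat.beq e.2.2.2.1 Q) || r) L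

theorem memL_dead {W : Type} [Fintype W] {T : W → W → Prop} (c : Cfg T) {reg : Bool}
    (hr : reg = true → Reg T) (L : List (ℕ × ℕ × ℕ × ℕ × ℕ)) (h : chkL reg L = true) :
    ∀ G G' P Q, memL L G G' P Q = true → Dead T G G' P Q := by
  induction L with
  | nil => intro G G' P Q hm; exact absurd hm (by simp [memL])
  | cons e L ih =>
    intro G G' P Q hm
    have h' : (nz (chk reg (fun _ _ _ _ => false) 250 e.1 e.2.1 e.2.2.1 e.2.2.2.1 e.2.2.2.2) &&
      chkL reg L) = true := h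
    have hm' : ((Nat.beq e.1 G && Nat.beq e.2.1 G' && Nat.beq e.2.2.1 P && Nat.beq e.2.2.2.1 Q) ||
      memL L G G' P Q) = true := hm
    rw [Bool.and_eq_true] at h'
    rw [Bool.or_eq_true] at hm'
    rcases hm' with hm' | hm'
    · simp only [Bool.and_eq_true, Nat.beq_eq] at hm'
      obtain ⟨⟨⟨rfl, rfl⟩, rfl⟩, rfl⟩ := hm'
      exact chk_sound c hr (by simp) _ _ _ _ _ _ (nz_iff.1 h'.1)
    · exact ih h'.2 G G' P Q hm'

end Pool.Agent.OCP
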