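import Pool.Agent.Lib.MP_55dd22_co.Calc

/-! The tree checker classifying sides with nine vertices. -/

namespace Pool.Agent.OCP

def tblC : ℕ := 0xc7235187789d0e40f03c961d6228c6c92b0cb3f0648754d84b09d227b83511e46a38cf13a0e81e0787912c6360968758d93c40f9362a99e1499646ae026c95530ef124cb5c01b21c9713e0e92e0e81e0790e4b91e478970740f03c15b147a92a9c1aea60c63c46938c51689b0771e43c4589c2b22e4719e2389c2334796a8596d8414788d0d653912923acae2e41cc6b18c53609b07716c234cb2987789265ae00d81f4695633c2932c8d5c039b0c2cb8c843f4b60367306d608d975158668a910eb42dc35866d912a2a83731c4d408eb4f13a05cb903e0d94e46a586383a1e5c2441725b85b18ce315e9a3cc3296620b6c188cd1642b7283d20d9c7501b9c626a0471b789c2ac23c2d2bc1d15c1706c0f264e30ba811d69e2d40b88f0b51e478970740f03c788d2d11a262ae0ed3d04c93a19c17409e63746911e1693e0e92e0e81e078794c8ab41166619f8750718d2d11a26aa60ed2d84c9e21750238dbc5a1563c8983545a96a32a6c619e44c1aa2d53439c3530cf2260d50ea9b0c69b1864c97235c21708ed1857a264b90ee11a84738c2bd1cc680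7957833649ac314b827459a08b32cc659e2430b72b42d0dd066d8950e695146e2388f83b03c9e22c4695995238cf1164f1162a82eca91d630ad4788b14c176558a33856c08e759426c96ad8338328eb490db1951266865478f8388389a6649e27495203c3f4d98e0d50623c3504ee52e869a707981a319d25d1aa6a16439c7104cf1162a82ec6995270ad87891c568d70e4ab134073c44e8b26b8725589a0383f23c2d19d0e04c970741fa1c970ce870264b83a30cb91a4af245a47515c0367986ab50ce21ac4b90e34915a758512ec6903cc73806e9926c93254ab8510f35007b2cca94d1e61ae5a952e6288719720c90a619644f89b155760ac25b2c74a786d80ab901e6506d4b90a29c3507c97096799629c2ec438c2b31ca471c22f459438d30b4860ae678926d812dd13a23c5d35c192ed0c439261320ebac468d2c71925a96a658e12951831cf50e49915e822ac638722d85e19d062ccc50f4332bc3524c5595a62a687983aa918e355642ec3921c3509cc71aab22749d10e1a84e1954a4a8b34717605ccb250992ac9b0a6a71c6f405d689a8374853453c32c64b90ac3b41c9b626b84561e26a0d9314d15e0cb1a2b41d6a4244f93b8e801f4292623c0d35c9d5e08928c871d666b70f803a30d903656c0ec2b39c550caa925459a38b326c6581b32c6d3ac2914d5614cc716ad217a1a90e1a84e1945b428b34716e05ccb288eb1d2d42b0b3364cc06523ca12d51c5d8172acc716ad22789b10e1a84e154eb1647b08d3a01dc62343790e1494e0e8ae1b82f4b996651946708d0b40f88ea70b625a345d81a568bb0e4bf014871144f0aa6d9126c85a55a38639a62b42d29c554d9124784988a871d666b70f803a29db04d1562dc616b86103e4584a4781a6b93abc0976c154678217b8ad1842cad415a94339a66c9a2275843750c2ac1d0bc9721ca725c4d8ba0b836078b1285844d1a66f0f53942785e15a3c2b82e0d81e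

def cls (k : ℕ) : ℕ := Nat.mod (Nat.shiftRight tblC (Nat.mul 81 k)) (Nat.pow 2 81)

def hasB (M a : ℕ) : Bool :=
  frc (row 9 M a) fun S => anyB 9 fun c => !(Nat.beq c a) &&
    frc (Nat.land S (row 9 M c)) fun v => anyB 9 fun b => tb v b && !(Nat.beq v (Nat.pow 2 b))

def pm (p i : ℕ) : ℕ := Nat.mod (Nat.land (Nat.shiftRight p (Nat.mul 4 i)) 15) 9

def isoOk (G C p : ℕ) : Bool :=
  allB 9 (fun j => anyB 9 fun i => Nat.beq (pm p i) j) &&
  allB 9 fun i => frc (row 9 G (pm p i)) fun r => frc (row 9 C i) fun c =>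
    allB 9 fun j => tb c j || !(tb r (pm p j))

def step9 (known : ℕ → ℕ → Bool) (r : ℕ → ℕ → ℕ → ℕ) (G G' s : ℕ) : ℕ :=
  frc (Nat.land s 70368744177663) fun h => frc (Nat.land h 7) fun op => frc (fld 9 h 3) fun x =>
    sel (Nat.beq op 0)
      (frc (fld 9 h 8) fun y => frc (Nat.add (Nat.mul 9 x) y) fun xy =>
        frc (Nat.add (Nat.mul 9 y) x) fun yx =>
        thn (frc (clr G yx) fun G1 => frc (clr G' xy) fun G1' =>
              frc (Nat.shiftRight s 13) fun s1 => r G1 G1' s1)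
          fun s2 => frc (clr G xy) fun G2 => frc (clr G' yx) fun G2' => r G2 G2' s2) <|
    sel (Nat.beq op 3)
      (sel (frc (nb 9 G G' x (tb h 8)) (cycIn 9 G G')) 0 (Nat.shiftRight s 9)) <|
    sel (Nat.beq op 4) (sel (hasB (sel (tb h 8) G G') x) 0 (Nat.shiftRight s 9)) <|
    sel (Nat.beq op 5)
      (frc (cls (Nat.mod (Nat.land (Nat.shiftRight h 3) 127) 110)) fun C =>
        frc (Nat.shiftRight h 10) fun p => sel (isoOk G C p) (Nat.shiftRight s 46) 0) <|
    sel (Nat.beq op 1)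
      (frc (fld 9 h 8) fun w => frc (Nat.mod (Nat.shiftRight h 14) 512) fun m =>
        sel (!(tb m x) && !(Nat.beq w x) && !(anyS 10 (fun c => !(twin 9 G G' w c)) m))
          (thn (clrS 9 1 x (!(tb h 13))
                (fun G1 G1' => frc (Nat.shiftRight s 23) fun s1 => r G1 G1' s1)
                (Nat.shiftLeft 1 w) G G')
            fun s2 => clrS 9 10 x (tb h 13) (fun G2 G2' => r G2 G2' s2) m G G') 0) <|
    sel (known G G') (Nat.shiftRight s 3) 0

def chk9 (known : ℕ → ℕ → Bool) (fuel : ℕ) : ℕ → ℕ → ℕ → ℕ :=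
  Nat.rec (motive := fun _ => ℕ → ℕ → ℕ → ℕ) (fun _ _ _ => 0) (fun _ r => step9 known r) fuel

def Done {W : Type} [LinearOrder W] (H : W → W → Prop) (u : W) (o : Bool) (G G' : ℕ) : Prop :=
  ∀ g : ℕ → W, Lab H u o g → Ub 9 (fun a b => cpl H (g a) (g b)) G G' → Trp 9 G G' →
    ∃ k < 110, ∃ g' : ℕ → W, Lab H u o g' ∧
      ∀ i j, i < 9 → j < 9 → H (g' i) (g' j) → (cls k).testBit (9 * i + j) = true

section
variable {W : Type} [Fintype W] [LinearOrder W] {H : W → W → Prop} {u : W} {o : Bool}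

theorem step9_sound (hH : ∀ x y, H x y → ¬ H y x) (hG : Good H)
    {known : ℕ → ℕ → Bool} (hk : ∀ G G', known G G' = true → Done H u o G G')
    {r : ℕ → ℕ → ℕ → ℕ} (ih : ∀ G G' s, r G G' s ≠ 0 → Done H u o G G') {G G' s : ℕ}
    (hs : step9 known r G G' s ≠ 0) : Done H u o G G' := by
  intro g l h ht
  have an := cpl_anti hH
  simp only [step9, frc_eq] at hs
  generalize Nat.land s 70368744177663 = hd at hs
  have hx := fld_lt (w := 9) (by norm_num) hd 3
  have hy := fld_lt (w := 9) (by norm_num) hd 8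
  generalize fld 9 hd 3 = x at hs hx
  generalize fld 9 hd 8 = y at hs hy
  rcases sel_ne hs with ⟨-, hs⟩ | ⟨-, hs⟩
  · obtain ⟨h1, h2⟩ := thn_ne hs
    by_cases t : cpl H (g x) (g y)
    · exact ih _ _ _ h1 g l (h.clr hy hx (an _ _ t)) (ht.clr hy hx)
    · exact ih _ _ _ h2 g l (h.clr hx hy t) (ht.clr hx hy)
  rcases sel_ne hs with ⟨-, hs⟩ | ⟨-, hs⟩
  · exfalso
    obtain ⟨a, b, c, ⟨u1, a1⟩, ⟨u2, a2⟩, ⟨u3, a3⟩, c1, c2, c3⟩ :=
      propA hH hG (adj_of_ar (l.mem x)) o (tb hd 8)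
    obtain ⟨a, ha, rfl⟩ := l.sur a u1
    obtain ⟨b, hb, rfl⟩ := l.sur b u2
    obtain ⟨c, hc, rfl⟩ := l.sur c u3
    rw [cycIn_of h ha hb hc (h.nb hx ha (ar_comp.2 (ar_cpl a1))) (h.nb hx hb (ar_comp.2 (ar_cpl a2)))
      (h.nb hx hc (ar_comp.2 (ar_cpl a3))) c1 c2 c3] at hs
    exact hs rfl
  rcases sel_ne hs with ⟨-, hs⟩ | ⟨-, hs⟩
  · exfalso
    have hB := side_PB hH hG l.mem l.sur (tb hd 8)
    generalize tb hd 8 = d at hs hB
    have : hasB (sel d G G') x = true := by
      cases d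
      · exact (allB_iff _ _).1 (okB_of h.swap hB) x hx
      · exact (allB_iff _ _).1 (okB_of h hB) x hx
    rw [this] at hs
    exact hs rfl
  rcases sel_ne hs with ⟨-, hs⟩ | ⟨-, hs⟩
  · obtain ⟨h1, -⟩ := sel_zero hs
    generalize Nat.shiftRight hd 10 = p at h1
    have hk' : Nat.mod (Nat.land (Nat.shiftRight hd 3) 127) 110 < 110 := Nat.mod_lt _ (by norm_num)
    generalize Nat.mod (Nat.land (Nat.shiftRight hd 3) 127) 110 = k at h1 hk'
    simp only [isoOk, Bool.and_eq_true, allB_iff, anyB_iff, Nat.beq_eq, frc_eq, Bool.or_eq_true,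
      Bool.not_eq_true', tb_eq] at h1
    have pl : ∀ i, pm p i < 9 := fun i => Nat.mod_lt _ (by norm_num)
    refine ⟨k, hk', fun i => g (pm p i), ⟨fun i => l.mem _, fun z hz => ?_⟩,
      fun i j hi hj t => ?_⟩
    · obtain ⟨j, hj, rfl⟩ := l.sur z hz
      obtain ⟨i, hi, e⟩ := h1.1 j hj
      exact ⟨i, hi, by rw [e]⟩
    · have h2 := h1.2 i hi j hj
      rw [(h.row (pl i) (pl j) (Or.inl t)).1, row_testBit _ _ _ _ hj] at h2
      exact h2.resolve_right (by simp)
  rcases sel_ne hs with ⟨-, hs⟩ | ⟨-, hs⟩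
  · obtain ⟨h1, h2⟩ := sel_zero hs
    obtain ⟨h3, h4⟩ := thn_ne h2
    generalize tb hd 13 = d at h3 h4
    have hm : ∀ i, (Nat.mod (Nat.shiftRight hd 14) 512).testBit i = true → i < 9 := by
      intro i hi
      have hi' : ((hd >>> 14) % 2 ^ 9).testBit i = true := hi
      rw [Nat.testBit_mod_two_pow] at hi'
      simp only [Bool.and_eq_true, decide_eq_true_eq] at hi'
      exact hi'.1
    generalize Nat.mod (Nat.shiftRight hd 14) 512 = m at h1 h4 hm
    simp only [Bool.and_eq_true, Bool.not_eq_true', beq_false_iff, tb_eq] at h1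
    obtain ⟨⟨k1, k2⟩, k3⟩ := h1
    by_contra hc
    have first : ∀ g', Lab H u o g' → Ub 9 (fun a b => cpl H (g' a) (g' b)) G G' →
        ¬ ar (cpl H) d (g' x) (g' y) := by
      intro g' l' h' t
      obtain ⟨G1, G1', u1, t1, k⟩ := clrS_ne (T := fun a b => cpl H (g' a) (g' b)) hx _ _ _ _ h' ht
        (fun i hi => by
          have hi' : (1 <<< y).testBit i = true := hi
          rw [Nat.one_shiftLeft, Nat.testBit_two_pow] at hi'
          obtain rfl : y = i := by simpa using hi'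
          refine ⟨hy, fun t' => ?_⟩
          rw [ar_comp, ar_not] at t'
          cases d
          · exact an _ _ t t'
          · exact an _ _ t t') h3
      exact hc (ih _ _ _ k g' l' u1 t1)
    obtain ⟨G1, G1', u1, t1, k⟩ := clrS_ne (T := fun a b => cpl H (g a) (g b)) hx _ _ _ _ h ht
      (fun i hi => ⟨hm i hi, fun t => by
        have k4 := all_of_anyS k3 i hi
        have hix : x ≠ i := by
          rintro rfl; rw [hi] at k1; exact absurd k1 (by simp)
        refine first (fun a => g (Equiv.swap y i a)) ⟨fun a => l.mem _, fun z hz => ?_⟩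
          (h.twin ht (fun i t => an _ _ t t) hy (hm i hi) k4) ?_
        · obtain ⟨j, hj, rfl⟩ := l.sur z hz
          exact ⟨Equiv.swap y i j, swap_lt hy (hm i hi) hj, by simp⟩
        · simp only [Equiv.swap_apply_left, Equiv.swap_apply_of_ne_of_ne (Ne.symm k2) hix]
          exact ar_comp.1 t⟩) h4
    exact hc (ih _ _ _ k g l u1 t1)
  · exact hk _ _ (sel_zero hs).1 g l h ht

theorem chk9_sound (hH : ∀ x y, H x y → ¬ H y x) (hG : Good H)
    {known : ℕ → ℕ → Bool} (hk : ∀ G G', known G G' = true → Done H u o G G')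
    (fuel : ℕ) : ∀ G G' s, chk9 known fuel G G' s ≠ 0 → Done H u o G G' := by
  induction fuel with
  | zero => intro G G' s h; exact absurd rfl h
  | succ n ih => intro G G' s h; exact step9_sound hH hG hk ih h

end

noncomputable def chkL9 (L : List (ℕ × ℕ × ℕ)) : Bool :=
  List.rec (motive := fun _ => Bool) true
    (fun e _ r => nz (chk9 (fun _ _ => false) 100 e.1 e.2.1 e.2.2) && r) L

noncomputable def memL9 (L : List (ℕ × ℕ × ℕ)) (G G' : ℕ) : Bool :=
  List.rec (motive := fun _ => Bool) false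
    (fun e _ r => (Nat.beq e.1 G && Nat.beq e.2.1 G') || r) L

theorem memL9_done {W : Type} [Fintype W] [LinearOrder W] {H : W → W → Prop} {u : W} {o : Bool}
    (hH : ∀ x y, H x y → ¬ H y x) (hG : Good H) (L : List (ℕ × ℕ × ℕ)) (h : chkL9 L = true) :
    ∀ G G', memL9 L G G' = true → Done H u o G G' := by
  induction L with
  | nil => intro G G' hm; exact absurd hm (by simp [memL9])
  | cons e L ih =>
    intro G G' hm
    have h' : (nz (chk9 (fun _ _ => false) 100 e.1 e.2.1 e.2.2) && chkL9 L) = true := h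
    have hm' : ((Nat.beq e.1 G && Nat.beq e.2.1 G') || memL9 L G G') = true := hm
    rw [Bool.and_eq_true] at h'
    rw [Bool.or_eq_true] at hm'
    rcases hm' with hm' | hm'
    · simp only [Bool.and_eq_true, Nat.beq_eq] at hm'
      obtain ⟨rfl, rfl⟩ := hm'
      exact chk9_sound hH hG (by simp) _ _ _ _ (nz_iff.1 h'.1)
    · exact ih h'.2 G G' hm'

end Pool.Agent.OCP
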