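import Mathlib

/-! Triangle fillings: syntax, satisfaction in a target digraph, and the arc-minimality argument. -/

namespace Pool.Agent.OCP

inductive Fill : Type
  | leaf : Fill
  | st (o1 o2 o3 : Bool) (F1 F2 F3 : Fill) : Fill
  | oc (o1 o2 o3 o4 o5 o6 o7 o8 o9 : Bool) (F1 F2 F3 F4 F5 F6 F7 : Fill) : Fill

def ar {W : Type} (H : W → W → Prop) : Bool → W → W → Prop
  | true, x, y => H x y
  | false, x, y => H y x

def Sat {W : Type} (H : W → W → Prop) : Fill → W → W → W → Prop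
  | .leaf, _, _, _ => True
  | .st o1 o2 o3 F1 F2 F3, x, y, z => ∃ v, ar H o1 x v ∧ ar H o2 y v ∧ ar H o3 z v ∧
      Sat H F1 x y v ∧ Sat H F2 y z v ∧ Sat H F3 z x v
  | .oc o1 o2 o3 o4 o5 o6 o7 o8 o9 F1 F2 F3 F4 F5 F6 F7, x, y, z => ∃ a b c,
      ar H o1 x c ∧ ar H o2 y c ∧ ar H o3 y a ∧ ar H o4 z a ∧ ar H o5 z b ∧ ar H o6 x b ∧
      ar H o7 c a ∧ ar H o8 a b ∧ ar H o9 b c ∧
      Sat H F1 x y c ∧ Sat H F2 y z a ∧ Sat H F3 z x b ∧ Sat H F4 x c b ∧ Sat H F5 y a c ∧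
      Sat H F6 z b a ∧ Sat H F7 c a b

theorem ar_map {W W' : Type} {H : W → W → Prop} {H' : W' → W' → Prop} (f : W → W')
    (hf : ∀ x y, H x y → H' (f x) (f y)) {o : Bool} {x y : W} (h : ar H o x y) :
    ar H' o (f x) (f y) := by
  cases o
  · exact hf _ _ h
  · exact hf _ _ h

theorem Sat.map {W W' : Type} {H : W → W → Prop} {H' : W' → W' → Prop} (f : W → W')
    (hf : ∀ x y, H x y → H' (f x) (f y)) (F : Fill) :
    ∀ x y z, Sat H F x y z → Sat H' F (f x) (f y) (f z) := by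
  induction F with
  | leaf => intro x y z _; trivial
  | st o1 o2 o3 F1 F2 F3 i1 i2 i3 =>
    rintro x y z ⟨v, a1, a2, a3, s1, s2, s3⟩
    exact ⟨f v, ar_map f hf a1, ar_map f hf a2, ar_map f hf a3, i1 _ _ _ s1, i2 _ _ _ s2,
      i3 _ _ _ s3⟩
  | oc o1 o2 o3 o4 o5 o6 o7 o8 o9 F1 F2 F3 F4 F5 F6 F7 i1 i2 i3 i4 i5 i6 i7 =>
    rintro x y z ⟨a, b, c, a1, a2, a3, a4, a5, a6, a7, a8, a9, s1, s2, s3, s4, s5, s6, s7⟩
    exact ⟨f a, f b, f c, ar_map f hf a1, ar_map f hf a2, ar_map f hf a3, ar_map f hf a4,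
      ar_map f hf a5, ar_map f hf a6, ar_map f hf a7, ar_map f hf a8, ar_map f hf a9,
      i1 _ _ _ s1, i2 _ _ _ s2, i3 _ _ _ s3, i4 _ _ _ s4, i5 _ _ _ s5, i6 _ _ _ s6, i7 _ _ _ s7⟩

/-- replace every leaf by `G`. -/
def Fill.sub (G : Fill) : Fill → Fill
  | .leaf => G
  | .st o1 o2 o3 F1 F2 F3 => .st o1 o2 o3 (sub G F1) (sub G F2) (sub G F3)
  | .oc o1 o2 o3 o4 o5 o6 o7 o8 o9 F1 F2 F3 F4 F5 F6 F7 =>
      .oc o1 o2 o3 o4 o5 o6 o7 o8 o9 (sub G F1) (sub G F2) (sub G F3) (sub G F4) (sub G F5)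
        (sub G F6) (sub G F7)

/-- delete the edge between `p` and `q`. -/
def del {W : Type} (H : W → W → Prop) (p q : W) (x y : W) : Prop :=
  H x y ∧ ¬ (x = p ∧ y = q) ∧ ¬ (y = p ∧ x = q)

theorem ar_del {W : Type} {H : W → W → Prop} {p q : W} {o : Bool} {x y : W} (h : ar H o x y)
    (h1 : ¬ (x = p ∧ y = q)) (h2 : ¬ (y = p ∧ x = q)) : ar (del H p q) o x y := by
  cases o
  · exact ⟨h, h2, h1⟩
  · exact ⟨h, h1, h2⟩

theorem sat_sub {W : Type} {H : W → W → Prop} {p q : W} {G : Fill}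
    (hG : ∀ x y z, Sat H G x y z → ¬ (x = p ∧ y = q) ∧ ¬ (y = p ∧ z = q) ∧ ¬ (z = p ∧ x = q))
    (F : Fill) : ∀ x y z, Sat H (Fill.sub G F) x y z →
      Sat (del H p q) F x y z ∧ ¬ (x = p ∧ y = q) ∧ ¬ (y = p ∧ z = q) ∧ ¬ (z = p ∧ x = q) := by
  induction F with
  | leaf => intro x y z h; exact ⟨trivial, hG x y z h⟩
  | st o1 o2 o3 F1 F2 F3 i1 i2 i3 =>
    rintro x y z ⟨v, a1, a2, a3, s1, s2, s3⟩
    obtain ⟨t1, b1, c1, d1⟩ := i1 _ _ _ s1
    obtain ⟨t2, b2, c2, d2⟩ := i2 _ _ _ s2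
    obtain ⟨t3, b3, c3, d3⟩ := i3 _ _ _ s3
    exact ⟨⟨v, ar_del a1 c3 d1, ar_del a2 c1 d2, ar_del a3 c2 d3, t1, t2, t3⟩, b1, b2, b3⟩
  | oc o1 o2 o3 o4 o5 o6 o7 o8 o9 F1 F2 F3 F4 F5 F6 F7 i1 i2 i3 i4 i5 i6 i7 =>
    rintro x y z ⟨a, b, c, a1, a2, a3, a4, a5, a6, a7, a8, a9, s1, s2, s3, s4, s5, s6, s7⟩
    obtain ⟨t1, b1, c1, d1⟩ := i1 _ _ _ s1
    obtain ⟨t2, b2, c2, d2⟩ := i2 _ _ _ s2
    obtain ⟨t3, b3, c3, d3⟩ := i3 _ _ _ s3
    obtain ⟨t4, b4, c4, d4⟩ := i4 _ _ _ s4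
    obtain ⟨t5, b5, c5, d5⟩ := i5 _ _ _ s5
    obtain ⟨t6, b6, c6, d6⟩ := i6 _ _ _ s6
    obtain ⟨t7, b7, c7, d7⟩ := i7 _ _ _ s7
    exact ⟨⟨a, b, c, ar_del a1 b4 d1, ar_del a2 c1 d5, ar_del a3 b5 d2, ar_del a4 c2 d6,
      ar_del a5 b6 d3, ar_del a6 c3 d4, ar_del a7 b7 c5, ar_del a8 c7 c6, ar_del a9 d7 c4,
      t1, t2, t3, t4, t5, t6, t7⟩, b1, b2, b3⟩

/-- every edge of `H` extends to every filling of a triangle on it. -/
def Good {W : Type} (H : W → W → Prop) : Prop :=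
  ∀ p q, (H p q ∨ H q p) → ∀ G : Fill, ∃ z, Sat H G p q z

def Killed {W : Type} (H : W → W → Prop) : Prop := ∃ F : Fill, ∀ x y z, ¬ Sat H F x y z

theorem killed_all {W : Type} [Fintype W]
    (hyp : ∀ H : W → W → Prop, (∀ x y, H x y → ¬ H y x) → (∃ x y, H x y) → ¬ Good H) :
    ∀ H : W → W → Prop, (∀ x y, H x y → ¬ H y x) → Killed H := by
  classical
  intro H
  induction' hn : (Finset.univ.filter (fun e : W × W => H e.1 e.2)).card using Nat.strong_induction_on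
    with n ih generalizing H
  intro hH
  by_contra hk
  have hk' : ∀ F : Fill, ∃ x y z, Sat H F x y z := by
    intro F
    by_contra hc
    exact hk ⟨F, fun x y z h => hc ⟨x, y, z, h⟩⟩
  refine hyp H hH ?_ ?_
  · obtain ⟨x, y, z, v, h, -⟩ := hk' (.st true true true .leaf .leaf .leaf)
    exact ⟨x, v, h⟩
  · intro p q hpq G
    by_contra hc
    have hlt : (Finset.univ.filter (fun e : W × W => del H p q e.1 e.2)).card < n := by
      rw [← hn]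
      apply Finset.card_lt_card
      refine ⟨fun e he => ?_, fun hsub => ?_⟩
      · simp only [Finset.mem_filter, Finset.mem_univ, true_and] at he ⊢
        exact he.1
      · rcases hpq with h | h
        · have : (p, q) ∈ Finset.univ.filter (fun e : W × W => del H p q e.1 e.2) :=
            hsub (by simpa using h)
          simp [del] at this
        · have : (q, p) ∈ Finset.univ.filter (fun e : W × W => del H p q e.1 e.2) :=
            hsub (by simpa using h)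
          simp [del] at this
    obtain ⟨F, hF⟩ := ih _ hlt (del H p q) rfl (fun x y h h' => hH x y h.1 h'.1)
    obtain ⟨x, y, z, hs⟩ := hk' (Fill.sub (.st true true true G G G) F)
    refine hF x y z (sat_sub (p := p) (q := q) ?_ F x y z hs).1
    rintro x y z ⟨v, -, -, -, s1, s2, s3⟩
    refine ⟨?_, ?_, ?_⟩
    · rintro ⟨rfl, rfl⟩; exact hc ⟨v, s1⟩
    · rintro ⟨rfl, rfl⟩; exact hc ⟨v, s2⟩
    · rintro ⟨rfl, rfl⟩; exact hc ⟨v, s3⟩

theorem kill_list {W : Type} (L : List (W → W → Prop)) (h : ∀ H ∈ L, Killed H) :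
    ∃ F : Fill, ∀ H ∈ L, ∀ x y z, ¬ Sat H F x y z := by
  induction L with
  | nil => exact ⟨.leaf, by simp⟩
  | cons H L ih =>
    obtain ⟨F, hF⟩ := ih (fun H' h' => h H' (List.mem_cons_of_mem _ h'))
    obtain ⟨G, hG⟩ := h H List.mem_cons_self
    refine ⟨.st true true true F G .leaf, ?_⟩
    rintro H' h' x y z ⟨v, -, -, -, s1, s2, -⟩
    rcases List.mem_cons.1 h' with rfl | h'
    · exact hG _ _ _ s2
    · exact hF H' h' _ _ _ s1

theorem kill_univ {W : Type} [Fintype W]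
    (hyp : ∀ H : W → W → Prop, (∀ x y, H x y → ¬ H y x) → (∃ x y, H x y) → ¬ Good H) :
    ∃ F : Fill, ∀ H : W → W → Prop, (∀ x y, H x y → ¬ H y x) → ∀ x y z, ¬ Sat H F x y z := by
  classical
  obtain ⟨F, hF⟩ := kill_list
    ((Finset.univ.filter (fun H : W → W → Prop => ∀ x y, H x y → ¬ H y x)).toList)
    (fun H h => killed_all hyp H (by simpa using h))
  exact ⟨F, fun H h => hF H (by simpa using h)⟩

end Pool.Agent.OCP
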