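import Pool.Agent.Lib.MP_55dd22_co.Fill

/-! Straight-line plane drawings of triangle fillings. -/

namespace Pool.Agent.OCP

abbrev Pt := ℝ × ℝ

def Tr (a b c : Pt) : Set Pt := {p | ∃ s t : ℝ, 0 < s ∧ 0 < t ∧ s + t < 1 ∧
  p.1 = a.1 + s * (b.1 - a.1) + t * (c.1 - a.1) ∧ p.2 = a.2 + s * (b.2 - a.2) + t * (c.2 - a.2)}

def Sg (a b : Pt) : Set Pt := {p | ∃ s : ℝ, 0 < s ∧ s < 1 ∧
  p.1 = a.1 + s * (b.1 - a.1) ∧ p.2 = a.2 + s * (b.2 - a.2)}

theorem sg_eq (a b : Pt) : openSegment ℝ a b = Sg a b := by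
  ext p
  constructor
  · rintro ⟨s, t, hs, ht, hst, rfl⟩
    refine ⟨t, ht, by linarith, ?_, ?_⟩
    · have : s = 1 - t := by linarith
      subst this; simp; ring
    · have : s = 1 - t := by linarith
      subst this; simp; ring
  · rintro ⟨s, h0, h1, e1, e2⟩
    refine ⟨1 - s, s, by linarith, h0, by ring, ?_⟩
    ext
    · simp; linarith
    · simp; linarith

theorem sg_symm (a b : Pt) : Sg a b = Sg b a := by
  rw [← sg_eq, ← sg_eq, openSegment_symm]

structure Dr (K U : Set Pt) (E : Set (Pt × Pt)) : Prop where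
  fin : E.Finite
  ends : ∀ e ∈ E, (e.1 ∈ U ∨ e.1 ∈ K) ∧ (e.2 ∈ U ∨ e.2 ∈ K)
  sub : ∀ e ∈ E, Sg e.1 e.2 ⊆ U
  dis : ∀ e ∈ E, ∀ e' ∈ E, e ≠ e' → Disjoint (Sg e.1 e.2) (Sg e'.1 e'.2)
  nov : ∀ e ∈ E, ∀ e' ∈ E, e'.1 ∉ Sg e.1 e.2 ∧ e'.2 ∉ Sg e.1 e.2

theorem Dr.empty (K U : Set Pt) : Dr K U ∅ :=
  ⟨Set.finite_empty, by simp, by simp, by simp, by simp⟩

theorem Dr.mono {K U K' U' : Set Pt} {E : Set (Pt × Pt)} (h : Dr K U E) (hU : U ⊆ U')
    (hK : ∀ p ∈ K, p ∈ U' ∨ p ∈ K') : Dr K' U' E := by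
  refine ⟨h.fin, fun e he => ⟨?_, ?_⟩, fun e he => (h.sub e he).trans hU, h.dis, h.nov⟩
  · rcases (h.ends e he).1 with h1 | h1
    · exact Or.inl (hU h1)
    · exact hK _ h1
  · rcases (h.ends e he).2 with h1 | h1
    · exact Or.inl (hU h1)
    · exact hK _ h1

theorem Dr.union {K U U' : Set Pt} {E E' : Set (Pt × Pt)} (h : Dr K U E) (h' : Dr K U' E')
    (d : Disjoint U U') (k : Disjoint K U) (k' : Disjoint K U') : Dr K (U ∪ U') (E ∪ E') := by
  have aux : ∀ {U U' : Set Pt} {E E' : Set (Pt × Pt)}, Dr K U E → Dr K U' E' → Disjoint U U' →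
      Disjoint K U → ∀ e ∈ E, ∀ e' ∈ E', e'.1 ∉ Sg e.1 e.2 ∧ e'.2 ∉ Sg e.1 e.2 := by
    intro U U' E E' h h' d k e he e' he'
    constructor
    · intro hm
      have := h.sub e he hm
      rcases (h'.ends e' he').1 with h1 | h1
      · exact Set.disjoint_left.1 d this h1
      · exact Set.disjoint_left.1 k h1 this
    · intro hm
      have := h.sub e he hm
      rcases (h'.ends e' he').2 with h1 | h1
      · exact Set.disjoint_left.1 d this h1
      · exact Set.disjoint_left.1 k h1 this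
  refine ⟨h.fin.union h'.fin, ?_, ?_, ?_, ?_⟩
  · rintro e (he | he)
    · have := h.ends e he; simp only [Set.mem_union]; tauto
    · have := h'.ends e he; simp only [Set.mem_union]; tauto
  · rintro e (he | he)
    · exact (h.sub e he).trans Set.subset_union_left
    · exact (h'.sub e he).trans Set.subset_union_right
  · rintro e (he | he) e' (he' | he') hne
    · exact h.dis e he e' he' hne
    · exact d.mono (h.sub e he) (h'.sub e' he')
    · exact d.symm.mono (h'.sub e he) (h.sub e' he')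
    · exact h'.dis e he e' he' hne
  · rintro e (he | he) e' (he' | he')
    · exact h.nov e he e' he'
    · exact aux h h' d k e he e' he'
    · exact aux h' h d.symm k' e he e' he'
    · exact h'.nov e he e' he'

/-- the union of a list of cells. -/
theorem Dr.list (K : Set Pt) (L : List (Set Pt × Set (Pt × Pt)))
    (h : ∀ c ∈ L, Dr K c.1 c.2) (k : ∀ U ∈ L.map Prod.fst, Disjoint K U)
    (d : (L.map Prod.fst).Pairwise Disjoint) :
    Dr K {p | ∃ c ∈ L, p ∈ c.1} {e | ∃ c ∈ L, e ∈ c.2} := by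
  induction L with
  | nil => simpa using Dr.empty K ∅
  | cons c L ih =>
    rw [List.map_cons, List.pairwise_cons] at d
    have h1 := ih (fun c' h' => h c' (List.mem_cons_of_mem _ h'))
      (fun U h' => k U (by rw [List.map_cons]; exact List.mem_cons_of_mem _ h')) d.2
    have h2 := (h c List.mem_cons_self).union h1 ?_ (k c.1 (by simp)) ?_
    · convert h2 using 1
      · ext p; simp
      · ext e; simp
    · rw [Set.disjoint_left]
      rintro p hp ⟨c', hc', hp'⟩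
      exact Set.disjoint_left.1 (d.1 c'.1 (List.mem_map_of_mem hc')) hp hp'
    · rw [Set.disjoint_left]
      rintro p hp ⟨c', hc', hp'⟩
      exact Set.disjoint_left.1 (k c'.1 (by rw [List.map_cons]; exact List.mem_cons_of_mem _ (List.mem_map_of_mem hc'))) hp hp'

def oe (o : Bool) (x y : Pt) : Set (Pt × Pt) := {if o then (x, y) else (y, x)}

theorem Dr.edge {K : Set Pt} (o : Bool) {x y : Pt} (hx : x ∈ K) (hy : y ∈ K)
    (k : Disjoint K (Sg x y)) : Dr K (Sg x y) (oe o x y) := by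
  have h1 := Set.disjoint_left.1 k hx
  have h2 := Set.disjoint_left.1 k hy
  cases o
  · refine ⟨Set.finite_singleton _, ?_, ?_, ?_, ?_⟩ <;> simp [oe, hx, hy, sg_symm y x, h1, h2]
  · refine ⟨Set.finite_singleton _, ?_, ?_, ?_, ?_⟩ <;> simp [oe, hx, hy, h1, h2]

theorem ar_oe {o : Bool} {x y : Pt} {E : Set (Pt × Pt)} (h : oe o x y ⊆ E) :
    ar (fun x y => (x, y) ∈ E) o x y := by
  cases o
  · exact h (by simp [oe])
  · exact h (by simp [oe])

def Rl (F : Fill) (a b c : Pt) : Prop :=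
  ∃ E : Set (Pt × Pt), Dr {a, b, c} (Tr a b c) E ∧ Sat (fun x y => (x, y) ∈ E) F a b c

def af (a b c p : Pt) : Pt :=
  (a.1 + p.1 * (b.1 - a.1) + p.2 * (c.1 - a.1), a.2 + p.1 * (b.2 - a.2) + p.2 * (c.2 - a.2))

theorem af_inj {a b c : Pt} (hd : (b.1 - a.1) * (c.2 - a.2) - (b.2 - a.2) * (c.1 - a.1) ≠ 0) :
    Function.Injective (af a b c) := by
  intro p q h
  have h1 := congrArg Prod.fst h
  have h2 := congrArg Prod.snd h
  simp only [af] at h1 h2
  ext
  · apply mul_right_cancel₀ hd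
    linear_combination (c.2 - a.2) * h1 - (c.1 - a.1) * h2
  · apply mul_right_cancel₀ hd
    linear_combination (b.1 - a.1) * h2 - (b.2 - a.2) * h1

theorem af_sg (a b c x y : Pt) : Sg (af a b c x) (af a b c y) = af a b c '' Sg x y := by
  ext p
  constructor
  · rintro ⟨s, h0, h1, e1, e2⟩
    refine ⟨(x.1 + s * (y.1 - x.1), x.2 + s * (y.2 - x.2)), ⟨s, h0, h1, rfl, rfl⟩, ?_⟩
    ext
    · rw [e1]; simp only [af]; ring
    · rw [e2]; simp only [af]; ring
  · rintro ⟨q, ⟨s, h0, h1, e1, e2⟩, rfl⟩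
    refine ⟨s, h0, h1, ?_, ?_⟩
    · simp only [af]; rw [e1, e2]; ring
    · simp only [af]; rw [e1, e2]; ring

theorem Rl.transfer {F : Fill} (h : Rl F (0, 0) (1, 0) (0, 1)) {a b c : Pt}
    (hd : (b.1 - a.1) * (c.2 - a.2) - (b.2 - a.2) * (c.1 - a.1) ≠ 0) : Rl F a b c := by
  obtain ⟨E, hE, hs⟩ := h
  have hi := af_inj hd
  have ea : af a b c (0, 0) = a := by ext <;> simp [af]
  have eb : af a b c (1, 0) = b := by ext <;> simp [af]
  have ec : af a b c (0, 1) = c := by ext <;> simp [af]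
  have hT : ∀ p ∈ Tr (0, 0) (1, 0) (0, 1), af a b c p ∈ Tr a b c := by
    rintro p ⟨s, t, h0, h1, h2, e1, e2⟩
    simp at e1 e2
    exact ⟨s, t, h0, h1, h2, by simp [af, e1, e2], by simp [af, e1, e2]⟩
  have hK : ∀ p : Pt, (p ∈ Tr (0, 0) (1, 0) (0, 1) ∨ p ∈ ({(0, 0), (1, 0), (0, 1)} : Set Pt)) →
      (af a b c p ∈ Tr a b c ∨ af a b c p ∈ ({a, b, c} : Set Pt)) := by
    rintro p (h | rfl | rfl | rfl)
    · exact Or.inl (hT p h)
    · right; simp [ea]
    · right; simp [eb]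
    · right; simp [ec]
  refine ⟨(fun e => (af a b c e.1, af a b c e.2)) '' E, ⟨hE.fin.image _, ?_, ?_, ?_, ?_⟩, ?_⟩
  · rintro _ ⟨e, he, rfl⟩
    exact ⟨hK _ (hE.ends e he).1, hK _ (hE.ends e he).2⟩
  · rintro _ ⟨e, he, rfl⟩
    simp only [af_sg]
    rintro _ ⟨q, hq, rfl⟩
    exact hT q (hE.sub e he hq)
  · rintro _ ⟨e, he, rfl⟩ _ ⟨e', he', rfl⟩ hne
    simp only [af_sg]
    exact (Set.disjoint_image_iff hi).2 (hE.dis e he e' he' (fun h => hne (by rw [h])))
  · rintro _ ⟨e, he, rfl⟩ _ ⟨e', he', rfl⟩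
    simp only [af_sg, hi.mem_set_image]
    exact hE.nov e he e' he'
  · have := Sat.map (H' := fun x y => (x, y) ∈ (fun e : Pt × Pt => (af a b c e.1, af a b c e.2)) '' E)
      (af a b c) (fun x y h => ⟨(x, y), h, rfl⟩) F _ _ _ hs
    rwa [ea, eb, ec] at this

end Pool.Agent.OCP
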