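import Pool.Agent.Lib.MP_55dd22_co.Chk9

/-! Programs of the relation calculus. -/

namespace Pool.Agent.OCP

def progC : List (ℕ × ℕ × ℕ × List (ℕ × ℕ × ℕ × ℕ × Bool)) := [
  (3, 7, 0, [(0,0,0,0,true), (0,0,0,0,false), (3,0,1,0,false), (1,0,0,0,true), (2,0,1,0,false), (1,0,0,0,true), (2,3,2,0,false), (2,1,0,0,true)]),
  (4, 4, 0, [(0,0,0,0,true), (0,0,0,0,false), (2,1,0,0,false), (1,0,0,0,true), (3,0,1,0,true)]),
  (5, 4, 0, [(0,0,0,0,true), (0,0,0,0,false), (2,1,0,0,false), (1,0,0,0,true), (3,0,1,0,true)]),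
  (6, 4, 0, [(0,0,0,0,true), (0,0,0,0,false), (2,0,1,0,false), (1,0,0,0,true), (3,0,1,0,true)]),
  (7, 2, 0, [(0,0,0,0,false), (0,0,0,0,true), (3,1,0,1,false), (1,0,0,0,true), (2,0,0,0,true), (2,1,2,0,false), (1,0,0,0,true)]),
  (8, 4, 0, [(0,0,0,0,true), (0,0,0,0,false), (2,0,1,0,false), (3,2,1,2,true), (2,1,0,0,true)]),
  (9, 2, 0, [(0,0,0,0,true), (0,0,0,0,false), (2,1,0,0,false), (1,0,0,0,true), (2,2,3,0,false), (3,1,0,1,true)]),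
  (10, 4, 0, [(0,0,0,0,false), (0,0,0,0,true), (2,0,1,0,false), (1,0,0,0,true), (3,1,0,1,false)]),
  (11, 4, 0, [(0,0,0,0,true), (0,0,0,0,false), (2,0,1,0,false), (1,0,0,0,true), (3,0,1,0,true)]),
  (12, 1, 0, [(0,0,0,0,true), (0,0,0,0,false), (2,1,0,0,false), (1,0,0,0,true), (3,1,0,1,false), (2,0,0,0,false)]),
  (13, 4, 0, [(0,0,0,0,true), (0,0,0,0,false), (2,0,1,0,false), (1,0,0,0,true), (3,0,1,0,true)]),
  (14, 1, 0, [(0,0,0,0,true), (0,0,0,0,false), (2,1,0,0,false), (1,0,0,0,true), (3,1,0,1,false), (2,0,0,0,false)]),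
  (15, 2, 0, [(0,0,0,0,false), (0,0,0,0,true), (2,1,0,0,false), (1,0,0,0,true), (3,1,0,1,false)]),
  (16, 2, 0, [(0,0,0,0,false), (0,0,0,0,true), (3,1,0,1,false), (2,0,0,0,false), (1,1,0,0,true), (2,2,0,0,false)]),
  (17, 4, 0, [(0,0,0,0,true), (0,0,0,0,false), (2,0,1,0,false), (1,0,0,0,true), (3,0,1,0,true)]),
  (18, 4, 0, [(0,0,0,0,true), (0,0,0,0,false), (2,0,1,0,false), (1,0,0,0,true), (3,0,1,0,true)]),
  (19, 4, 0, [(0,0,0,0,true), (0,0,0,0,false), (2,1,0,0,false), (1,0,0,0,true), (3,0,1,0,true)]),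
  (20, 4, 0, [(0,0,0,0,true), (0,0,0,0,false), (2,0,1,0,false), (1,0,0,0,true), (3,0,1,0,true)]),
  (21, 5, 0, [(0,0,0,0,false), (0,0,0,0,true), (2,1,0,0,false), (2,1,2,0,false), (1,0,0,0,true), (3,2,0,1,false)]),
  (22, 4, 0, [(0,0,0,0,true), (0,0,0,0,false), (2,0,1,0,false), (1,0,0,0,true), (3,0,1,0,true)]),
  (23, 4, 0, [(0,0,0,0,true), (0,0,0,0,false), (2,0,1,0,false), (1,0,0,0,true), (3,0,1,0,true)]),
  (24, 4, 0, [(0,0,0,0,false), (0,0,0,0,true), (2,0,1,0,false), (1,0,0,0,true), (3,1,0,1,false)]),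
  (25, 4, 0, [(0,0,0,0,true), (0,0,0,0,false), (2,0,1,0,false), (1,0,0,0,true), (3,0,1,0,true)]),
  (26, 4, 0, [(0,0,0,0,false), (0,0,0,0,true), (2,0,1,0,false), (1,0,0,0,true), (3,1,0,1,false)]),
  (27, 4, 0, [(0,0,0,0,true), (0,0,0,0,false), (2,0,1,0,false), (1,0,0,0,true), (3,0,1,0,true)]),
  (28, 4, 0, [(0,0,0,0,true), (0,0,0,0,false), (2,0,1,0,false), (1,0,0,0,true), (3,0,1,0,true)]),
  (29, 4, 0, [(0,0,0,0,false), (0,0,0,0,true), (2,0,1,0,false), (1,0,0,0,true), (3,1,0,1,false)]),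
  (30, 4, 0, [(0,0,0,0,true), (0,0,0,0,false), (2,0,1,0,false), (1,0,0,0,true), (3,0,1,0,true)]),
  (31, 2, 0, [(0,0,0,0,false), (0,0,0,0,true), (3,1,0,1,false), (2,0,0,0,false), (1,1,0,0,true), (2,2,0,0,false)]),
  (32, 3, 0, [(0,0,0,0,false), (0,0,0,0,true), (2,1,0,0,false), (1,0,0,0,true), (3,0,1,0,true), (2,0,0,0,true), (1,1,0,0,false), (2,2,0,0,false), (1,0,0,0,true)]),
  (33, 2, 0, [(0,0,0,0,true), (0,0,0,0,false), (2,1,0,0,false), (1,0,0,0,true), (3,1,0,1,false), (2,0,0,0,false), (1,1,0,0,true), (2,2,0,0,false)]),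
  (34, 2, 0, [(0,0,0,0,false), (0,0,0,0,true), (2,1,0,0,false), (1,0,0,0,true), (3,1,0,1,false)]),
  (35, 4, 0, [(0,0,0,0,true), (0,0,0,0,false), (2,0,1,0,false), (1,0,0,0,true), (3,0,1,0,true)]),
  (36, 1, 0, [(0,0,0,0,false), (0,0,0,0,true), (2,1,0,0,false), (1,0,0,0,true), (3,0,1,0,true), (2,0,0,0,true)]),
  (37, 1, 0, [(0,0,0,0,false), (0,0,0,0,true), (2,1,0,0,false), (1,0,0,0,true), (3,0,1,0,true), (2,0,0,0,true)]),
  (38, 4, 0, [(0,0,0,0,true), (0,0,0,0,false), (2,0,1,0,false), (1,0,0,0,true), (3,0,1,0,true)]),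
  (39, 4, 0, [(0,0,0,0,false), (0,0,0,0,true), (2,1,0,0,false), (1,0,0,0,true), (3,1,0,1,false)]),
  (40, 4, 0, [(0,0,0,0,true), (0,0,0,0,false), (2,0,1,0,false), (1,0,0,0,true), (3,0,1,0,true)]),
  (41, 3, 0, [(0,0,0,0,true), (0,0,0,0,false), (3,1,0,1,true), (1,0,0,0,false), (2,0,1,0,false), (2,1,1,0,false), (2,3,2,0,false), (2,1,0,0,false)]),
  (42, 2, 0, [(0,0,0,0,false), (0,0,0,0,true), (2,1,0,0,false), (2,2,2,0,true), (3,1,0,1,false)]),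
  (43, 1, 0, [(0,0,0,0,false), (2,0,0,0,true), (1,0,0,0,false), (3,0,1,0,false), (2,0,1,0,false)]),
  (44, 2, 0, [(0,0,0,0,true), (0,0,0,0,false), (2,1,0,0,false), (1,0,0,0,true), (2,2,3,0,false), (3,1,0,1,true)]),
  (45, 4, 0, [(0,0,0,0,true), (0,0,0,0,false), (2,0,1,0,false), (1,0,0,0,true), (3,0,1,0,true)]),
  (46, 4, 0, [(0,0,0,0,false), (0,0,0,0,true), (2,1,0,0,false), (1,0,0,0,true), (3,1,0,1,false)]),
  (47, 2, 0, [(0,0,0,0,false), (0,0,0,0,true), (3,1,0,1,false), (2,0,0,0,false), (1,1,0,0,true), (2,2,0,0,false)]),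
  (48, 1, 0, [(0,0,0,0,false), (0,0,0,0,true), (2,1,0,0,false), (1,0,0,0,true), (3,0,1,0,true), (2,0,0,0,true)]),
  (49, 4, 0, [(0,0,0,0,true), (0,0,0,0,false), (2,0,1,0,false), (1,0,0,0,true), (3,0,1,0,true)]),
  (50, 4, 0, [(0,0,0,0,true), (0,0,0,0,false), (2,0,1,0,false), (1,0,0,0,true), (3,0,1,0,true)]),
  (51, 2, 0, [(0,0,0,0,false), (0,0,0,0,true), (3,1,0,1,false), (2,0,0,0,false), (1,1,0,0,true), (2,2,0,0,false)]),
  (52, 3, 0, [(0,0,0,0,true), (0,0,0,0,false), (3,1,0,1,true), (2,0,0,0,true)]),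
  (53, 4, 0, [(0,0,0,0,false), (0,0,0,0,true), (2,1,0,0,false), (1,0,0,0,true), (3,1,0,1,false)]),
  (54, 4, 0, [(0,0,0,0,true), (0,0,0,0,false), (2,1,0,0,false), (1,0,0,0,true), (3,0,1,0,true)]),
  (55, 3, 0, [(0,0,0,0,true), (0,0,0,0,false), (3,1,0,1,true), (2,0,0,0,true)]),
  (56, 1, 0, [(0,0,0,0,true), (0,0,0,0,false), (3,1,0,1,true), (1,0,0,0,false), (2,0,1,0,false), (2,0,0,0,false)]),
  (57, 4, 0, [(0,0,0,0,false), (0,0,0,0,true), (2,0,1,0,false), (1,0,0,0,true), (3,1,0,1,false)]),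
  (58, 1, 0, [(0,0,0,0,true), (0,0,0,0,false), (2,1,0,0,false), (1,0,0,0,true), (3,1,0,1,false), (1,0,0,0,true), (2,0,0,0,true), (2,0,0,0,true)]),
  (59, 4, 0, [(0,0,0,0,true), (0,0,0,0,false), (2,1,0,0,false), (1,0,0,0,true), (3,0,1,0,true)]),
  (60, 1, 0, [(0,0,0,0,true), (0,0,0,0,false), (2,1,0,0,false), (1,0,0,0,true), (3,1,0,1,false), (2,0,0,0,false)]),
  (61, 4, 0, [(0,0,0,0,false), (0,0,0,0,true), (2,0,1,0,false), (1,0,0,0,true), (3,1,0,1,false)]),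
  (62, 4, 0, [(0,0,0,0,false), (0,0,0,0,true), (2,0,1,0,false), (1,0,0,0,true), (3,1,0,1,false)]),
  (63, 4, 0, [(0,0,0,0,true), (0,0,0,0,false), (2,1,0,0,false), (1,0,0,0,true), (3,0,1,0,true)]),
  (64, 4, 0, [(0,0,0,0,false), (0,0,0,0,true), (2,0,1,0,false), (1,0,0,0,true), (3,1,0,1,false)]),
  (65, 7, 0, [(0,0,0,0,true), (0,0,0,0,false), (3,0,1,0,false), (1,0,0,0,true), (2,0,1,0,false), (1,0,0,0,true), (2,3,2,0,false), (2,1,0,0,true)]),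
  (66, 6, 0, [(0,0,0,0,true), (0,0,0,0,false), (2,1,0,0,false), (1,0,0,0,true), (2,1,1,0,true), (1,0,0,0,false), (3,2,0,1,true)]),
  (67, 4, 0, [(0,0,0,0,false), (0,0,0,0,true), (2,0,1,0,false), (1,0,0,0,true), (3,1,0,1,false)]),
  (68, 1, 0, [(0,0,0,0,true), (0,0,0,0,false), (2,1,0,0,false), (1,0,0,0,true), (3,1,0,1,false), (2,0,0,0,false)]),
  (69, 4, 0, [(0,0,0,0,false), (0,0,0,0,true), (2,0,1,0,false), (1,0,0,0,true), (3,1,0,1,false)]),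
  (70, 4, 0, [(0,0,0,0,true), (0,0,0,0,false), (2,1,0,0,false), (1,0,0,0,true), (3,0,1,0,true)]),
  (71, 7, 0, [(0,0,0,0,true), (0,0,0,0,false), (3,0,1,0,false), (1,0,0,0,true), (2,0,1,0,false), (1,0,0,0,true), (2,3,2,0,false), (2,1,0,0,true)]),
  (72, 1, 0, [(0,0,0,0,false), (2,0,0,0,false), (1,0,0,0,true), (3,1,0,1,false), (2,0,2,0,false)]),
  (73, 1, 0, [(0,0,0,0,false), (2,0,0,0,false), (1,0,0,0,true), (3,0,1,0,true), (2,0,1,0,true)]),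
  (74, 1, 0, [(0,0,0,0,true), (2,0,0,0,true), (1,0,0,0,false), (3,1,0,1,true), (2,0,2,0,true)]),
  (75, 1, 0, [(0,0,0,0,true), (0,0,0,0,false), (2,1,0,0,false), (2,1,2,0,false), (2,0,1,0,true), (2,2,0,0,true), (2,1,3,0,true), (1,0,0,0,false), (2,2,0,0,false), (1,0,0,0,true), (2,5,4,0,true)]),
  (76, 7, 0, [(0,0,0,0,true), (0,0,0,0,false), (3,0,1,0,false), (1,0,0,0,true), (2,0,1,0,false), (1,0,0,0,true), (2,3,2,0,false), (2,1,0,0,true)]),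
  (77, 1, 0, [(0,0,0,0,false), (0,0,0,0,true), (2,1,0,0,false), (1,0,0,0,true), (3,0,1,0,true), (2,0,0,0,true)]),
  (78, 5, 0, [(0,0,0,0,true), (0,0,0,0,false), (2,0,1,0,false), (1,0,0,0,true), (3,1,0,1,false), (2,1,0,0,true)]),
  (79, 4, 0, [(0,0,0,0,true), (0,0,0,0,false), (2,0,1,0,false), (1,0,0,0,true), (3,0,1,0,true)]),
  (80, 4, 0, [(0,0,0,0,false), (0,0,0,0,true), (2,0,1,0,false), (1,0,0,0,true), (3,1,0,1,false)]),
  (81, 2, 0, [(0,0,0,0,true), (2,0,0,0,true), (1,0,0,0,false), (3,1,0,1,true), (2,1,0,0,true), (1,0,0,0,false), (2,0,0,0,false), (2,3,4,0,true), (2,2,0,0,false)]),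
  (82, 4, 0, [(0,0,0,0,false), (0,0,0,0,true), (2,0,1,0,false), (1,0,0,0,true), (3,1,0,1,false)]),
  (83, 3, 0, [(0,0,0,0,false), (0,0,0,0,true), (2,1,0,0,false), (1,0,0,0,true), (3,1,0,1,false), (2,1,0,0,true), (2,1,2,0,true), (2,0,1,0,false), (1,0,0,0,true)]),
  (84, 4, 0, [(0,0,0,0,true), (0,0,0,0,false), (2,0,1,0,false), (1,0,0,0,true), (3,0,1,0,true)]),
  (85, 7, 0, [(0,0,0,0,true), (0,0,0,0,false), (3,0,1,0,false), (1,0,0,0,true), (2,0,1,0,false), (1,0,0,0,true), (2,3,2,0,false), (2,1,0,0,true)]),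
  (86, 1, 0, [(0,0,0,0,true), (0,0,0,0,false), (3,1,0,1,true), (1,0,0,0,false), (2,0,1,0,false), (2,0,0,0,false)]),
  (87, 3, 0, [(0,0,0,0,false), (0,0,0,0,true), (2,1,0,0,false), (1,0,0,0,true), (3,0,1,0,true), (2,0,0,0,true), (1,1,0,0,false), (2,2,0,0,false), (1,0,0,0,true)]),
  (88, 1, 0, [(0,0,0,0,true), (2,0,0,0,true), (1,0,0,0,false), (3,1,0,1,true), (2,0,2,0,true)]),
  (89, 2, 0, [(0,0,0,0,true), (0,0,0,0,false), (2,1,0,0,false), (2,1,2,0,false), (2,1,0,0,false), (1,1,0,0,true), (2,3,0,0,false), (2,2,0,0,false), (1,1,0,0,true), (2,2,0,0,false)]),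
  (90, 4, 0, [(0,0,0,0,true), (0,0,0,0,false), (2,1,0,0,false), (2,1,2,0,false), (2,1,0,0,false), (1,1,0,0,true), (2,2,0,0,false), (1,0,0,0,true), (2,1,0,0,false)]),
  (91, 4, 0, [(0,0,0,0,true), (0,0,0,0,false), (2,0,1,0,false), (1,0,0,0,true), (3,0,1,0,true)]),
  (92, 1, 0, [(0,0,0,0,true), (0,0,0,0,false), (2,1,0,0,false), (1,0,0,0,true), (3,1,0,1,false), (1,0,0,0,true), (2,0,0,0,true), (1,0,0,0,false), (2,3,2,0,false)]),
  (93, 4, 0, [(0,0,0,0,true), (0,0,0,0,false), (2,0,1,0,false), (3,2,0,2,true), (2,0,0,0,true)]),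
  (94, 4, 0, [(0,0,0,0,false), (0,0,0,0,true), (2,1,0,0,false), (2,2,2,0,true), (3,1,0,1,false), (2,0,0,0,false), (1,0,0,0,true), (1,2,0,0,true), (2,0,3,0,false), (2,3,0,0,false), (1,0,0,0,true)]),
  (95, 5, 0, [(0,0,0,0,true), (0,0,0,0,false), (2,1,0,0,false), (1,0,0,0,true), (2,2,3,0,false), (3,1,0,1,true)]),
  (96, 2, 0, [(0,0,0,0,false), (0,0,0,0,true), (3,1,0,1,false), (2,0,0,0,false), (1,1,0,0,true), (2,2,0,0,false)]),
  (97, 4, 0, [(0,0,0,0,false), (0,0,0,0,true), (2,0,1,0,false), (1,0,0,0,true), (3,1,0,1,false)]),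
  (98, 4, 0, [(0,0,0,0,true), (0,0,0,0,false), (2,0,1,0,false), (1,0,0,0,true), (3,0,1,0,true)]),
  (99, 4, 0, [(0,0,0,0,false), (0,0,0,0,true), (2,1,0,0,false), (1,0,0,0,true), (3,1,0,1,false)]),
  (100, 4, 0, [(0,0,0,0,true), (0,0,0,0,false), (2,0,1,0,false), (1,0,0,0,true), (3,0,1,0,true)]),
  (101, 2, 0, [(0,0,0,0,false), (2,0,0,0,false), (1,0,0,0,true), (2,0,1,0,false), (1,0,0,0,true), (3,1,0,1,false), (1,0,0,0,true)]),
  (102, 2, 0, [(0,0,0,0,false), (0,0,0,0,true), (2,1,0,0,false), (1,0,0,0,true), (3,1,0,1,false)]),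
  (103, 2, 0, [(0,0,0,0,false), (0,0,0,0,true), (2,1,0,0,false), (1,0,0,0,true), (3,1,0,1,false)]),
  (104, 1, 0, [(0,0,0,0,false), (0,0,0,0,true), (2,1,0,0,false), (1,0,0,0,true), (2,1,0,0,false), (3,2,1,2,false)]),
  (105, 4, 0, [(0,0,0,0,true), (0,0,0,0,false), (2,0,1,0,false), (1,0,0,0,true), (3,0,1,0,true)]),
  (106, 2, 0, [(0,0,0,0,true), (2,0,0,0,true), (1,0,0,0,false), (2,0,1,0,false), (2,1,1,0,false), (2,0,0,0,false)]),
  (107, 4, 0, [(0,0,0,0,false), (0,0,0,0,true), (2,0,1,0,false), (1,0,0,0,true), (3,1,0,1,false)]),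
  (108, 7, 0, [(0,0,0,0,true), (0,0,0,0,false), (3,0,1,0,false), (1,0,0,0,true), (2,0,1,0,false), (1,0,0,0,true), (2,3,2,0,false), (2,1,0,0,true)]),
  (109, 2, 0, [(0,0,0,0,true), (2,0,0,0,true), (2,0,0,0,true)])]

def progY : List (ℕ × ℕ × ℕ × ℕ × List (ℕ × ℕ × ℕ × ℕ × Bool)) := [
  (0, 1, 3, 0, [(4,0,0,0,true), (1,0,0,0,false), (2,1,0,0,false), (2,1,0,0,false), (2,2,3,0,false), (1,2,0,0,true), (2,1,0,0,false)]),
  (0, 2, 2, 0, [(4,0,0,0,true), (1,0,0,0,false), (2,0,1,0,false), (2,2,1,0,false), (2,1,0,0,true), (1,0,0,0,false), (2,0,5,0,false), (2,6,1,0,false), (1,0,0,0,true), (2,2,0,0,false), (2,1,5,0,true), (1,0,0,0,false)]),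
  (0, 3, 2, 0, [(4,0,0,0,true), (1,0,0,0,false), (3,1,0,1,true), (1,0,0,0,false), (2,0,0,0,false), (2,0,0,0,false), (2,3,2,0,false), (2,0,0,0,false)]),
  (0, 4, 2, 0, [(4,0,0,0,true), (1,0,0,0,false), (2,0,0,0,false), (2,2,1,0,false), (2,1,0,0,false), (2,1,4,0,true), (1,0,0,0,false)]),
  (0, 11, 3, 0, [(4,0,0,0,true), (1,0,0,0,false), (2,1,0,0,false), (2,1,0,0,false), (2,2,3,0,false), (1,2,0,0,true), (2,1,0,0,false)]),
  (0, 12, 2, 0, [(4,0,0,0,true), (1,0,0,0,false), (2,0,1,0,false), (2,2,1,0,false), (2,1,0,0,true), (1,0,0,0,false), (2,0,5,0,false), (2,6,1,0,false), (1,0,0,0,true), (2,2,0,0,false), (2,1,5,0,true), (1,0,0,0,false)]),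
  (0, 14, 2, 0, [(4,0,0,0,true), (1,0,0,0,false), (3,1,0,1,true), (1,0,0,0,false), (2,0,0,0,false), (2,0,0,0,false), (2,3,2,0,false), (2,0,0,0,false)]),
  (0, 15, 2, 0, [(4,0,0,0,true), (1,0,0,0,false), (2,0,0,0,false), (2,2,1,0,false), (2,1,0,0,false), (2,1,4,0,true), (1,0,0,0,false)]),
  (0, 21, 3, 0, [(4,0,0,0,true), (1,0,0,0,false), (2,1,0,0,false), (2,1,0,0,false), (2,2,3,0,false), (1,2,0,0,true), (2,1,0,0,false)]),
  (0, 22, 2, 0, [(4,0,0,0,true), (1,0,0,0,false), (3,1,0,1,true), (1,0,0,0,false), (2,0,0,0,false), (2,0,0,0,false), (2,3,2,0,false), (2,0,0,0,false)]),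
  (0, 23, 2, 0, [(4,0,0,0,true), (1,0,0,0,false), (2,0,1,0,false), (2,2,1,0,false), (2,1,0,0,true), (1,0,0,0,false), (2,0,5,0,false), (2,6,1,0,false), (1,0,0,0,true), (2,2,0,0,false), (2,1,5,0,true), (1,0,0,0,false)]),
  (0, 25, 2, 0, [(4,0,0,0,true), (1,0,0,0,false), (2,0,0,0,false), (2,2,1,0,false), (2,1,0,0,false), (2,1,4,0,true), (1,0,0,0,false)]),
  (0, 31, 2, 0, [(4,0,0,0,true), (1,0,0,0,false), (2,0,1,0,false), (2,2,1,0,false), (2,1,0,0,true), (1,0,0,0,false), (2,0,5,0,false), (2,6,1,0,false), (1,0,0,0,true), (2,2,0,0,false), (2,1,5,0,true), (1,0,0,0,false)]),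
  (0, 32, 3, 0, [(4,0,0,0,true), (1,0,0,0,false), (2,1,0,0,false), (2,1,0,0,false), (2,2,3,0,false), (1,2,0,0,true), (2,1,0,0,false)]),
  (0, 33, 2, 0, [(4,0,0,0,true), (1,0,0,0,false), (3,1,0,1,true), (1,0,0,0,false), (2,0,0,0,false), (2,0,0,0,false), (2,3,2,0,false), (2,0,0,0,false)]),
  (0, 35, 2, 0, [(4,0,0,0,true), (1,0,0,0,false), (2,0,0,0,false), (2,2,1,0,false), (2,1,0,0,false), (2,1,4,0,true), (1,0,0,0,false)]),
  (0, 37, 2, 0, [(4,0,0,0,true), (1,0,0,0,false), (2,0,0,0,false), (2,2,1,0,false), (2,1,0,0,false), (2,1,4,0,true), (1,0,0,0,false)]),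
  (0, 42, 3, 0, [(4,0,0,0,true), (1,0,0,0,false), (2,1,0,0,false), (2,1,0,0,false), (2,2,3,0,false), (1,2,0,0,true), (2,1,0,0,false)]),
  (0, 43, 2, 0, [(4,0,0,0,true), (1,0,0,0,false), (2,0,1,0,false), (2,2,1,0,false), (2,1,0,0,true), (1,0,0,0,false), (2,0,5,0,false), (2,6,1,0,false), (1,0,0,0,true), (2,2,0,0,false), (2,1,5,0,true), (1,0,0,0,false)]),
  (0, 44, 2, 0, [(4,0,0,0,true), (1,0,0,0,false), (3,1,0,1,true), (1,0,0,0,false), (2,0,0,0,false), (2,0,0,0,false), (2,3,2,0,false), (2,0,0,0,false)]),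
  (0, 45, 2, 0, [(4,0,0,0,true), (1,0,0,0,false), (2,0,0,0,false), (2,2,1,0,false), (2,1,0,0,false), (2,1,4,0,true), (1,0,0,0,false)]),
  (0, 49, 3, 0, [(4,0,0,0,true), (1,0,0,0,false), (2,1,0,0,false), (2,1,0,0,false), (2,2,3,0,false), (1,2,0,0,true), (2,1,0,0,false)]),
  (0, 51, 2, 0, [(4,0,0,0,true), (1,0,0,0,false), (2,0,1,0,false), (2,2,1,0,false), (2,1,0,0,true), (1,0,0,0,false), (2,0,5,0,false), (2,6,1,0,false), (1,0,0,0,true), (2,2,0,0,false), (2,1,5,0,true), (1,0,0,0,false)]),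
  (0, 52, 2, 0, [(4,0,0,0,true), (1,0,0,0,false), (3,1,0,1,true), (1,0,0,0,false), (2,0,0,0,false), (2,0,0,0,false), (2,3,2,0,false), (2,0,0,0,false)]),
  (0, 54, 2, 0, [(4,0,0,0,true), (1,0,0,0,false), (3,1,0,1,true), (1,0,0,0,false), (2,0,0,0,false), (2,0,0,0,false), (2,3,2,0,false), (2,0,0,0,false)]),
  (0, 56, 2, 0, [(4,0,0,0,true), (1,0,0,0,false), (2,0,0,0,false), (2,2,1,0,false), (2,1,0,0,false), (2,1,4,0,true), (1,0,0,0,false)]),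
  (0, 61, 3, 0, [(4,0,0,0,true), (1,0,0,0,false), (2,1,0,0,false), (2,1,0,0,false), (2,2,3,0,false), (1,2,0,0,true), (2,1,0,0,false)]),
  (0, 62, 2, 0, [(4,0,0,0,true), (1,0,0,0,false), (2,0,1,0,false), (2,2,1,0,false), (2,1,0,0,true), (1,0,0,0,false), (2,0,5,0,false), (2,6,1,0,false), (1,0,0,0,true), (2,2,0,0,false), (2,1,5,0,true), (1,0,0,0,false)]),
  (0, 63, 2, 0, [(4,0,0,0,true), (1,0,0,0,false), (2,0,1,0,false), (2,2,1,0,false), (2,1,0,0,true), (1,0,0,0,false), (2,0,5,0,false), (2,6,1,0,false), (1,0,0,0,true), (2,2,0,0,false), (2,1,5,0,true), (1,0,0,0,false)]),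
  (0, 64, 2, 0, [(4,0,0,0,true), (1,0,0,0,false), (3,1,0,1,true), (1,0,0,0,false), (2,0,0,0,false), (2,0,0,0,false), (2,3,2,0,false), (2,0,0,0,false)]),
  (0, 66, 2, 0, [(4,0,0,0,true), (1,0,0,0,false), (2,0,0,0,false), (2,2,1,0,false), (2,1,0,0,false), (2,1,4,0,true), (1,0,0,0,false)]),
  (0, 71, 3, 0, [(4,0,0,0,true), (1,0,0,0,false), (2,1,0,0,false), (2,1,0,0,false), (2,2,3,0,false), (1,2,0,0,true), (2,1,0,0,false)]),
  (0, 72, 3, 0, [(4,0,0,0,true), (1,0,0,0,false), (2,1,0,0,false), (2,1,0,0,false), (2,2,3,0,false), (1,2,0,0,true), (2,1,0,0,false)]),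
  (0, 73, 2, 0, [(4,0,0,0,true), (1,0,0,0,false), (2,0,1,0,false), (2,2,1,0,false), (2,1,0,0,true), (1,0,0,0,false), (2,0,5,0,false), (2,6,1,0,false), (1,0,0,0,true), (2,2,0,0,false), (2,1,5,0,true), (1,0,0,0,false)]),
  (0, 74, 2, 0, [(4,0,0,0,true), (1,0,0,0,false), (3,1,0,1,true), (1,0,0,0,false), (2,0,0,0,false), (2,0,0,0,false), (2,3,2,0,false), (2,0,0,0,false)]),
  (0, 77, 2, 0, [(4,0,0,0,true), (1,0,0,0,false), (2,0,0,0,false), (2,2,1,0,false), (2,1,0,0,false), (2,1,4,0,true), (1,0,0,0,false)]),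
  (1, 1, 1, 0, [(4,0,0,0,true), (1,0,0,0,false), (3,0,1,0,false)]),
  (1, 3, 1, 0, [(4,0,0,0,true), (1,0,0,0,false), (2,0,1,0,false), (2,0,0,0,false), (2,1,3,0,false)]),
  (1, 6, 1, 0, [(4,0,0,0,true), (1,0,0,0,false), (3,1,0,1,true), (1,0,0,0,false), (2,0,1,0,false), (2,0,0,0,false)]),
  (1, 7, 3, 0, [(4,0,0,0,true), (1,0,0,0,false), (3,1,0,1,true), (2,0,1,0,true), (2,2,1,0,false), (1,0,0,0,true), (2,2,0,0,true)]),
  (1, 8, 1, 0, [(4,0,0,0,true), (1,0,0,0,false), (3,0,1,0,false), (1,0,0,0,true), (2,1,0,0,false), (2,0,0,0,false)]),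
  (1, 11, 1, 0, [(4,0,0,0,true), (1,0,0,0,false), (3,0,1,0,false)]),
  (1, 13, 1, 0, [(4,0,0,0,true), (1,0,0,0,false), (2,0,1,0,false), (2,0,0,0,false), (2,1,3,0,false)]),
  (1, 15, 1, 0, [(4,0,0,0,true), (1,0,0,0,false), (3,0,1,0,false), (1,0,0,0,true), (2,1,0,0,false), (2,0,0,0,false)]),
  (1, 16, 1, 0, [(4,0,0,0,true), (1,0,0,0,false), (3,1,0,1,true), (1,0,0,0,false), (2,0,1,0,false), (2,0,0,0,false)]),
  (1, 17, 3, 0, [(4,0,0,0,true), (1,0,0,0,false), (3,1,0,1,true), (2,0,1,0,true), (2,2,1,0,false), (1,0,0,0,true), (2,2,0,0,true)]),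
  (1, 18, 1, 0, [(4,0,0,0,true), (1,0,0,0,false), (3,0,1,0,false)]),
  (1, 23, 1, 0, [(4,0,0,0,true), (1,0,0,0,false), (2,0,1,0,false), (2,0,0,0,false), (2,1,3,0,false)]),
  (1, 24, 3, 0, [(4,0,0,0,true), (1,0,0,0,false), (3,1,0,1,true), (2,0,1,0,true), (2,2,1,0,false), (1,0,0,0,true), (2,2,0,0,true)]),
  (1, 25, 1, 0, [(4,0,0,0,true), (1,0,0,0,false), (3,0,1,0,false), (1,0,0,0,true), (2,1,0,0,false), (2,0,0,0,false)]),
  (1, 26, 1, 0, [(4,0,0,0,true), (1,0,0,0,false), (3,1,0,1,true), (1,0,0,0,false), (2,0,1,0,false), (2,0,0,0,false)]),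
  (1, 28, 2, 0, [(4,0,0,0,true), (1,0,0,0,false), (2,0,0,0,false), (2,2,1,0,false), (2,1,0,0,false)]),
  (1, 29, 2, 0, [(4,0,0,0,true), (1,0,0,0,false), (2,0,1,0,false), (2,2,1,0,false), (2,1,0,0,false)]),
  (1, 32, 2, 0, [(4,0,0,0,true), (1,0,0,0,false), (2,0,1,0,false), (2,1,1,0,false), (2,0,2,0,false)]),
  (1, 33, 2, 0, [(4,0,0,0,true), (1,0,0,0,false), (3,1,0,1,true)]),
  (1, 36, 2, 0, [(4,0,0,0,true), (1,0,0,0,false), (2,0,1,0,false), (2,2,1,0,false), (2,1,0,0,false)]),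
  (1, 38, 2, 0, [(4,0,0,0,true), (1,0,0,0,false), (2,0,0,0,false), (2,2,1,0,false), (2,1,0,0,false)]),
  (1, 39, 2, 0, [(4,0,0,0,true), (1,0,0,0,false), (2,0,1,0,false), (2,1,1,0,false), (2,0,2,0,false)]),
  (1, 43, 2, 0, [(4,0,0,0,true), (1,0,0,0,false), (3,1,0,1,true)]),
  (1, 45, 2, 0, [(4,0,0,0,true), (1,0,0,0,false), (2,0,0,0,false), (2,2,1,0,false), (2,1,0,0,false)]),
  (1, 46, 2, 0, [(4,0,0,0,true), (1,0,0,0,false), (2,0,1,0,false), (2,2,1,0,false), (2,1,0,0,false)]),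
  (1, 49, 2, 0, [(4,0,0,0,true), (1,0,0,0,false), (2,0,1,0,false), (2,1,1,0,false), (2,0,2,0,false)]),
  (1, 53, 2, 0, [(4,0,0,0,true), (1,0,0,0,false), (3,1,0,1,true)]),
  (1, 58, 3, 0, [(4,0,0,0,true), (2,0,0,0,true), (1,1,0,0,false), (2,0,2,0,false), (2,2,0,0,true)]),
  (1, 59, 2, 0, [(4,0,0,0,true), (1,0,0,0,false), (2,1,0,0,false), (1,0,0,0,true), (2,2,3,0,false), (2,1,0,0,true)]),
  (1, 61, 2, 0, [(4,0,0,0,true), (1,0,0,0,false), (3,1,0,1,true)]),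
  (1, 66, 2, 0, [(4,0,0,0,true), (1,0,0,0,false), (2,1,0,0,false), (1,0,0,0,true), (2,2,3,0,false), (2,1,0,0,true)]),
  (1, 68, 3, 0, [(4,0,0,0,true), (2,0,0,0,true), (1,1,0,0,false), (2,0,2,0,false), (2,2,0,0,true)]),
  (1, 71, 2, 0, [(4,0,0,0,true), (1,0,0,0,false), (3,1,0,1,true)]),
  (1, 75, 3, 0, [(4,0,0,0,true), (2,0,0,0,true), (1,1,0,0,false), (2,0,2,0,false), (2,2,0,0,true)]),
  (1, 76, 2, 0, [(4,0,0,0,true), (1,0,0,0,false), (2,1,0,0,false), (1,0,0,0,true), (2,2,3,0,false), (2,1,0,0,true)]),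
  (1, 78, 2, 0, [(4,0,0,0,true), (1,0,0,0,false), (3,1,0,1,true)]),
  (2, 1, 4, 0, [(4,0,0,0,true), (1,0,0,0,false), (2,1,0,0,false), (2,0,0,0,false), (1,0,0,0,true), (2,1,0,0,false), (2,0,0,0,false), (1,0,0,0,true), (2,0,0,0,true), (2,0,0,0,true), (1,0,0,0,false)]),
  (2, 2, 2, 0, [(4,0,0,0,true), (1,0,0,0,false), (2,0,1,0,false), (1,0,0,0,true), (2,0,2,0,true), (2,3,0,0,true), (1,0,0,0,false), (3,1,0,1,true)]),
  (2, 3, 2, 0, [(4,0,0,0,true), (1,0,0,0,false), (2,0,0,0,false), (2,2,1,0,false), (2,1,0,0,false), (2,1,4,0,true), (1,0,0,0,false)]),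
  (2, 4, 2, 0, [(4,0,0,0,true), (2,0,0,0,true), (2,0,0,0,true), (1,0,0,0,false), (3,1,0,1,true)]),
  (2, 11, 3, 0, [(4,0,0,0,true), (1,0,0,0,false), (2,0,1,0,false), (2,0,0,0,false), (2,3,1,0,false), (1,0,0,0,true), (3,2,0,1,false)]),
  (2, 12, 2, 0, [(4,0,0,0,true), (1,0,0,0,false), (2,0,0,0,false), (2,0,1,0,false), (2,2,3,0,false), (2,0,4,0,false)]),
  (2, 14, 3, 0, [(4,0,0,0,true), (1,0,0,0,false), (3,0,1,0,false), (2,0,0,0,false), (1,1,0,0,true), (2,0,2,0,false), (2,2,0,0,false)]),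
  (2, 15, 2, 0, [(4,0,0,0,true), (1,0,0,0,false), (2,0,0,0,false), (2,0,1,0,false), (2,2,3,0,false), (2,0,4,0,false)]),
  (2, 21, 4, 0, [(4,0,0,0,true), (1,0,0,0,false), (3,0,1,0,false), (1,0,0,0,true), (2,0,1,0,false), (2,0,0,0,false), (2,3,2,0,false), (1,0,0,0,true), (2,3,0,0,true), (1,0,0,0,false)]),
  (2, 22, 2, 0, [(4,0,0,0,true), (1,0,0,0,false), (2,0,0,0,false), (2,0,1,0,false), (2,2,3,0,false), (2,0,4,0,false)]),
  (2, 23, 1, 0, [(4,0,0,0,true), (1,0,0,0,false), (2,0,1,0,false), (2,2,1,0,false), (1,0,0,0,true), (2,2,0,0,false), (2,2,2,0,false)]),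
  (2, 25, 2, 0, [(4,0,0,0,true), (1,0,0,0,false), (2,0,0,0,false), (2,2,1,0,false), (2,1,0,0,false), (1,1,0,0,true), (2,4,0,0,false)]),
  (2, 31, 2, 0, [(4,0,0,0,true), (1,0,0,0,false), (2,0,1,0,false), (1,0,0,0,true), (2,0,2,0,true), (2,3,0,0,true), (1,0,0,0,false), (3,1,0,1,true)]),
  (2, 33, 2, 0, [(4,0,0,0,true), (1,0,0,0,false), (2,0,0,0,false), (2,2,1,0,false), (2,1,0,0,false), (2,1,4,0,true), (1,0,0,0,false)]),
  (2, 34, 4, 0, [(4,0,0,0,true), (1,0,0,0,false), (2,1,0,0,false), (2,0,0,0,false), (1,0,0,0,true), (2,1,0,0,false), (2,0,0,0,false), (1,0,0,0,true), (2,0,0,0,true), (2,0,0,0,true), (1,0,0,0,false)]),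
  (2, 35, 2, 0, [(4,0,0,0,true), (2,0,0,0,true), (2,0,0,0,true), (1,0,0,0,false), (3,1,0,1,true)]),
  (2, 37, 1, 0, [(4,0,0,0,true), (1,0,0,0,false), (2,0,1,0,false), (2,2,1,0,false), (1,0,0,0,true), (2,2,0,0,false), (2,2,2,0,false)]),
  (2, 41, 2, 0, [(4,0,0,0,true), (1,0,0,0,false), (2,0,0,0,false), (2,2,1,0,false), (2,1,0,0,false), (1,1,0,0,true), (2,4,0,0,false)]),
  (2, 42, 4, 0, [(4,0,0,0,true), (1,0,0,0,false), (3,0,1,0,false), (1,0,0,0,true), (2,0,1,0,false), (2,0,0,0,false), (2,3,2,0,false), (1,0,0,0,true), (2,3,0,0,true), (1,0,0,0,false)]),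
  (2, 44, 2, 0, [(4,0,0,0,true), (1,0,0,0,false), (2,0,0,0,false), (2,0,1,0,false), (2,2,3,0,false), (2,0,4,0,false)]),
  (2, 45, 2, 0, [(4,0,0,0,true), (1,0,0,0,false), (2,0,0,0,false), (2,0,1,0,false), (2,2,3,0,false), (2,0,4,0,false)]),
  (2, 48, 2, 0, [(4,0,0,0,true), (1,0,0,0,false), (2,0,0,0,false), (2,0,1,0,false), (2,2,3,0,false), (2,0,4,0,false)]),
  (2, 52, 3, 0, [(4,0,0,0,true), (1,0,0,0,false), (3,0,1,0,false), (2,0,0,0,false), (1,1,0,0,true), (2,0,2,0,false), (2,2,0,0,false)]),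
  (2, 53, 3, 0, [(4,0,0,0,true), (1,0,0,0,false), (2,0,1,0,false), (2,0,0,0,false), (2,3,1,0,false), (1,0,0,0,true), (3,2,0,1,false)]),
  (2, 54, 2, 0, [(4,0,0,0,true), (1,0,0,0,false), (2,0,0,0,false), (2,2,1,0,false), (2,1,0,0,false), (2,1,4,0,true), (1,0,0,0,false)]),
  (2, 56, 2, 0, [(4,0,0,0,true), (2,0,0,0,true), (2,0,0,0,true), (1,0,0,0,false), (3,1,0,1,true)]),
  (2, 59, 4, 0, [(4,0,0,0,true), (1,0,0,0,false), (2,1,0,0,false), (2,0,0,0,false), (1,0,0,0,true), (2,1,0,0,false), (2,0,0,0,false), (1,0,0,0,true), (2,0,0,0,true), (2,0,0,0,true), (1,0,0,0,false)]),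
  (2, 62, 2, 0, [(4,0,0,0,true), (1,0,0,0,false), (2,0,1,0,false), (1,0,0,0,true), (2,0,2,0,true), (2,3,0,0,true), (1,0,0,0,false), (3,1,0,1,true)]),
  (2, 63, 2, 0, [(4,0,0,0,true), (1,0,0,0,false), (2,0,0,0,false), (2,0,1,0,false), (2,2,3,0,false), (2,0,4,0,false)]),
  (2, 64, 3, 0, [(4,0,0,0,true), (1,0,0,0,false), (3,0,1,0,false), (2,0,0,0,false), (1,1,0,0,true), (2,0,2,0,false), (2,2,0,0,false)]),
  (2, 67, 3, 0, [(4,0,0,0,true), (1,0,0,0,false), (2,0,1,0,false), (2,0,0,0,false), (2,3,1,0,false), (1,0,0,0,true), (3,2,0,1,false)]),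
  (2, 69, 2, 0, [(4,0,0,0,true), (1,0,0,0,false), (2,0,0,0,false), (2,0,1,0,false), (2,2,3,0,false), (2,0,4,0,false)]),
  (2, 72, 4, 0, [(4,0,0,0,true), (1,0,0,0,false), (3,0,1,0,false), (1,0,0,0,true), (2,0,1,0,false), (2,0,0,0,false), (2,3,2,0,false), (1,0,0,0,true), (2,3,0,0,true), (1,0,0,0,false)]),
  (2, 73, 2, 0, [(4,0,0,0,true), (1,0,0,0,false), (2,0,0,0,false), (2,2,1,0,false), (2,1,0,0,false), (1,1,0,0,true), (2,4,0,0,false)]),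
  (2, 74, 2, 0, [(4,0,0,0,true), (1,0,0,0,false), (2,0,0,0,false), (2,0,1,0,false), (2,2,3,0,false), (2,0,4,0,false)]),
  (2, 79, 1, 0, [(4,0,0,0,true), (1,0,0,0,false), (2,0,1,0,false), (2,2,1,0,false), (1,0,0,0,true), (2,2,0,0,false), (2,2,2,0,false)])]

theorem progC_ok : progC.all (fun e => frc (cls e.1) fun C => frc (trM C) fun C' =>
    runP C C' C e.2.1 e.2.2.1 e.2.2.2 []) = true := by decide +kernel

theorem progC_cov : allB 110 (fun k => Nat.ble k 2 || progC.any (fun e => Nat.beq e.1 k)) = true := by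
  decide +kernel

theorem progY_ok : progY.all (fun e => frc (cls e.1) fun C => frc (trM C) fun C' =>
    frc (clr C e.2.1) fun Y => runP C C' Y e.2.2.1 e.2.2.2.1 e.2.2.2.2 []) = true := by decide +kernel

theorem progY_cov : allB 3 (fun k => allB 81 fun i => !(tb (cls k) i) ||
    progY.any (fun e => Nat.beq e.1 k && Nat.beq e.2.1 i)) = true := by
  decide +kernel

end Pool.Agent.OCP
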