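import Pool.Agent.Lib.MP_55dd22_co.CN
import Pool.Agent.Lib.MP_55dd22_co.Prog
import Pool.Agent.Lib.MP_55dd22_co.CA
import Pool.Agent.Lib.MP_55dd22_co.CB
import Pool.Agent.Lib.MP_55dd22_co.CC

/-! No good target has twenty vertices. -/

namespace Pool.Agent.OCP

theorem cls_tot : ∀ k < 3, ∀ i < 9, ∀ j < 9, i ≠ j →
    (cls k).testBit (9 * i + j) = true ∨ (cls k).testBit (9 * j + i) = true := by decide +kernel

theorem cls_reg : ∀ j < 9,
    ((Finset.range 9).filter (fun i => (cls 0).testBit (9 * i + j) = true)).card = 4 ∧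
    ((Finset.range 9).filter (fun i => (cls 2).testBit (9 * i + j) = true)).card = 4 := by
  decide +kernel

theorem side9 {W : Type} [Fintype W] [LinearOrder W] {H : W → W → Prop}
    (hH : ∀ x y, H x y → ¬ H y x) (hG : Good H) {u a0 : W} {o : Bool} (h0 : ar H o u a0)
    (hc : cn (ar H o u) ≤ 9) :
    ∃ k < 3, ∃ g : ℕ → W, Lab H u o g ∧
      (∀ i j, i < 9 → j < 9 → H (g i) (g j) → (cls k).testBit (9 * i + j) = true) ∧
      ∀ i j, i < 9 → j < 9 → (cls k).testBit (9 * i + j) = true →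
        H (g i) (g j) ∧ ∀ F, Sat H F u (g i) (g j) := by
  classical
  obtain ⟨g0, g1, g2, -⟩ := label (Finset.univ.filter (ar H o u)) [] a0 9 List.nodup_nil (by simp)
    (by simpa using h0) (by unfold cn at hc; convert hc)
  have e : ini 9 (dg 9) = 0xffbfeffbfeffbfeffbfe := by decide +kernel
  have e' : ini 9 ((dg 9).map Prod.swap) = 0xffbfeffbfeffbfeffbfe := by decide +kernel
  have hd : ∀ p ∈ dg 9, p.1 < 9 ∧ p.2 < 9 ∧ ¬ cpl H (g0 p.1) (g0 p.2) := by
    intro p hp
    obtain ⟨i, hi, rfl⟩ := List.mem_map.1 hp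
    have := List.mem_range.1 hi
    exact ⟨this, this, fun h => cpl_anti hH _ _ h h⟩
  have hu := ub_ini (T := fun a b => cpl H (g0 a) (g0 b)) _ hd
  have ht := trp_ini (w := 9) (dg 9) (fun p hp => ⟨(hd p hp).1, (hd p hp).2.1⟩)
  rw [e, e'] at hu ht
  obtain ⟨k, hk, g, l, hC⟩ := cn9_done hH hG g0
    ⟨fun i => by simpa using g1 i, fun x hx => g2 x (by simpa using hx)⟩ hu ht
  have hU : Ub 9 (fun i j => H (g i) (g j)) (cls k) (trM (cls k)) :=
    fun i j hi hj t => ⟨hC i j hi hj t, trM_of hj hi (hC i j hi hj t)⟩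
  have hk3 : k < 3 := by
    by_contra h3
    have h1 := (allB_iff _ _).1 progC_cov k hk
    simp only [Bool.or_eq_true, List.any_eq_true, Nat.beq_eq, Nat.ble_eq] at h1
    obtain ⟨e, he, rfl⟩ := h1.resolve_left (by omega)
    have h2 := List.all_eq_true.1 progC_ok e he
    simp only [frc_eq] at h2
    exact runP_sound hH hG l hU ⟨.leaf, fun i j hi hj a _ => hC i j hi hj a⟩ _ [] (by simp) h2
  refine ⟨k, hk3, g, l, hC, fun a b ha hb hab => ?_⟩
  have key : ∀ F, H (g a) (g b) ∧ Sat H F u (g a) (g b) := by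
    intro F
    by_contra hn
    have h1 := (allB_iff _ _).1 ((allB_iff _ _).1 progY_cov k hk3) (9 * a + b) (by omega)
    simp only [Bool.or_eq_true, List.any_eq_true, Nat.beq_eq, Bool.and_eq_true, tb_eq, hab,
      Bool.not_true] at h1
    obtain ⟨e, he, rfl, e2⟩ := h1.resolve_left (by simp)
    have h2 := List.all_eq_true.1 progY_ok e he
    simp only [frc_eq] at h2
    refine runP_sound hH hG l hU ⟨F, fun i j hi hj t s => ?_⟩ _ [] (by simp) h2
    rw [clr_testBit, hC i j hi hj t]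
    rw [e2]
    intro e3
    obtain ⟨rfl, rfl⟩ := idx_inj hj hb e3
    exact hn ⟨t, s⟩
  exact ⟨(key .leaf).1, fun F => (key F).2⟩

structure Hyp {W : Type} [Fintype W] (H T : W → W → Prop) : Prop where
  card : Fintype.card W = 20
  hH : ∀ x y, H x y → ¬ H y x
  good : Good H
  non : ∀ x, ∃ y, H x y ∨ H y x
  sub : ∀ x y, H x y → T x y
  anti : ∀ x y, T x y → ¬ T y x
  tot : ∀ x y, x ≠ y → T x y ∨ T y x

section
variable {W : Type} [Fintype W] [LinearOrder W] {H T : W → W → Prop}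

omit [LinearOrder W] in
theorem Hyp.flip (h : Hyp H T) : Hyp (fun a b => H b a) (fun a b => T b a) :=
  ⟨h.card, fun x y => h.hH y x, good_flip h.good, fun x => (h.non x).imp fun _ => Or.symm,
    fun x y => h.sub y x, fun x y => h.anti y x, fun x y e => (h.tot x y e).symm⟩

omit [LinearOrder W] in
theorem cn_mono {p q : W → Prop} (h : ∀ z, p z → q z) : cn p ≤ cn q := by
  classical
  apply Finset.card_le_card
  intro z
  simp only [Finset.mem_filter, Finset.mem_univ, true_and]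
  exact h z

omit [Fintype W] [LinearOrder W] in
theorem ar_sub (h : ∀ x y, H x y → T x y) {d : Bool} {x y : W} (a : ar H d x y) : ar T d x y :=
  ar_map (H' := T) id h a

theorem Hyp.degH (h : Hyp H T) (x : W) (d : Bool) : 9 ≤ cn (ar H d x) := by
  classical
  obtain ⟨y, hy⟩ := h.non x
  obtain ⟨b, hb⟩ := both_sides h.good hy d
  exact side_nine h.hH h.good hb _ (by simp)

theorem Hyp.real (h : Hyp H T) {x : W} {d : Bool} (h9 : cn (ar T d x) ≤ 9) {y : W}
    (t : ar T d x y) : ar H d x y := by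
  by_contra hn
  have h1 := cn_split (ar T d x) (fun z => z = y)
  have h2 := h.degH x d
  have h3 : cn (ar H d x) ≤ cn (fun z => ar T d x z ∧ ¬ z = y) :=
    cn_mono fun z a => ⟨ar_sub h.sub a, by rintro rfl; exact hn a⟩
  rw [cn_congr (p := fun z => ar T d x z ∧ z = y) (q := fun z => z = y)
    (fun z => ⟨fun k => k.2, by rintro rfl; exact ⟨t, rfl⟩⟩), cn_single] at h1
  omega

theorem Hyp.side (h : Hyp H T) {x : W} {d : Bool} (h9 : cn (ar T d x) ≤ 9) :
    ∃ k < 3, ∃ g : ℕ → W, Lab H x d g ∧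
      (∀ i j, i < 9 → j < 9 → H (g i) (g j) → (cls k).testBit (9 * i + j) = true) ∧
      ∀ i j, i < 9 → j < 9 → (cls k).testBit (9 * i + j) = true →
        H (g i) (g j) ∧ ∀ F, Sat H F x (g i) (g j) := by
  obtain ⟨y, hy⟩ := h.non x
  obtain ⟨b, hb⟩ := both_sides h.good hy d
  exact side9 h.hH h.good hb (le_trans (cn_mono fun z => ar_sub h.sub) h9)

theorem Hyp.cfg (h : Hyp H T) : Cfg T := by
  refine ⟨h.card, h.anti, h.tot, fun x d => le_trans (h.degH x d) (cn_mono fun z => ar_sub h.sub),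
    fun x d a b h9 ha hb ne F => ?_⟩
  obtain ⟨k, hk, g, l, -, hU⟩ := h.side h9
  obtain ⟨i, hi, rfl⟩ := l.sur a (h.real h9 ha)
  obtain ⟨j, hj, rfl⟩ := l.sur b (h.real h9 hb)
  refine Sat.map (H' := T) id h.sub F _ _ _ ?_
  rcases cls_tot k hk i hi j hj (fun e => ne (by rw [e])) with t | t
  · exact (hU i j hi hj t).2 F
  · obtain ⟨G, hG⟩ := f_sw23 (H := H) F
    exact hG _ _ _ ((hU j i hj hi t).2 G)

def nonL (k : ℕ) : List (ℕ × ℕ) :=
  dg 20 ++ (List.range 9).map (fun a => (a + 1, 0)) ++ (List.range 10).map (fun a => (0, a + 10)) ++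
    ((List.range 81).filter (fun e => tb (cls k) e)).map (fun e => (e % 9 + 1, e / 9 + 1))

theorem Hyp.root (h : Hyp H T) {x : W} (h9 : cn (ar T true x) ≤ 9) {k : ℕ} (hk : k < 3)
    {g : ℕ → W} (l : Lab H x true g)
    (hU : ∀ i j, i < 9 → j < 9 → (cls k).testBit (9 * i + j) = true → H (g i) (g j)) :
    ¬ Dead T (ini 20 (nonL k)) (ini 20 ((nonL k).map Prod.swap)) 1 0 := by
  have inj9 : ∀ i j, i < 9 → j < 9 → g i = g j → i = j := by
    intro i j hi hj e
    by_contra ne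
    rcases cls_tot k hk i hi j hj ne with t | t
    · have := hU i j hi hj t
      rw [e] at this; exact h.hH _ _ this this
    · have := hU j i hj hi t
      rw [e] at this; exact h.hH _ _ this this
  have hn : (x :: (List.range 9).map g).Nodup := by
    rw [List.nodup_cons]
    refine ⟨fun hm => ?_, List.Nodup.map_on (fun i hi j hj => inj9 i j (List.mem_range.1 hi)
      (List.mem_range.1 hj)) List.nodup_range⟩
    obtain ⟨i, -, e⟩ := List.mem_map.1 hm
    have : H x (g i) := l.mem i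
    rw [e] at this; exact h.hH _ _ this this
  obtain ⟨f, -, f2, f3⟩ := label Finset.univ (x :: (List.range 9).map g) x 20 hn (by simp) (by simp)
    (by rw [Finset.card_univ, h.card])
  have sur : ∀ z, ∃ i < 20, f i = z := fun z => f2 z (Finset.mem_univ z)
  have inj : ∀ i j, i < 20 → j < 20 → f i = f j → i = j := fun i j hi hj e =>
    Finset.inj_on_of_surj_on_of_card_le (s := Finset.range 20) (t := Finset.univ) (fun a _ => f a)
      (by simp) (fun b _ => by
        obtain ⟨i, hi, e⟩ := sur b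
        exact ⟨i, Finset.mem_range.2 hi, e⟩) (by rw [Finset.card_univ, h.card]; simp)
      (Finset.mem_range.2 hi) (Finset.mem_range.2 hj) e
  have f0 : f 0 = x := f3 0 (by simp)
  have f1 : ∀ a < 9, f (a + 1) = g a := by
    intro a ha
    rw [f3 (a + 1) (by simp; omega)]
    simp [List.getD_eq_getElem?_getD, ha]
  have hL : ∀ p ∈ nonL k, p.1 < 20 ∧ p.2 < 20 ∧ ¬ T (f p.1) (f p.2) := by
    intro p hp
    simp only [nonL, dg, List.mem_append, List.mem_map, List.mem_range, List.mem_filter, tb_eq] at hp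
    rcases hp with ((⟨a, ha, rfl⟩ | ⟨a, ha, rfl⟩) | ⟨a, ha, rfl⟩) | ⟨e, ⟨he, hb⟩, rfl⟩
    · exact ⟨ha, ha, fun t => h.anti _ _ t t⟩
    · refine ⟨by omega, by omega, ?_⟩
      simp only [f0, f1 a ha]
      exact h.anti _ _ (h.sub _ _ (l.mem a))
    · refine ⟨by omega, by omega, fun t => ?_⟩
      simp only [f0] at t
      obtain ⟨j, hj, e⟩ := l.sur _ (h.real (d := true) h9 t)
      have := inj (j + 1) (a + 10) (by omega) (by omega) (by rw [f1 j hj, e])
      omega
    · refine ⟨by omega, by omega, ?_⟩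
      simp only [f1 (e % 9) (by omega), f1 (e / 9) (by omega)]
      exact h.anti _ _ (h.sub _ _ (hU _ _ (by omega) (by omega) (by rw [Nat.div_add_mod]; exact hb)))
  intro hD
  refine hD f ⟨inj, sur, ub_ini _ hL, trp_ini _ (fun p hp => ⟨(hL p hp).1, (hL p hp).2.1⟩),
    fun d i hi hb => ?_⟩
  cases d
  · exact absurd hb (by simp [sel])
  · have : i = 0 := by
      have hb' : (2 ^ 0).testBit i = true := hb
      rw [Nat.testBit_two_pow] at hb'
      exact (by simpa using hb' : 0 = i).symm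
    rw [this, f0]; exact h9

theorem ini0 : ini 20 (nonL 0) = 0x7ffffbffffdffffefffff7ffffbffffdffffefffff7ffffbffffc4effe16fff0affda2fff84ffee0ffd70ffcd8ffc3c003fe ∧
    ini 20 ((nonL 0).map Prod.swap) = 0x7fffebfffedfffeefffef7ffefbffefdffefeffeff7feffbfeffdb1ffce9ffc75ffe1dffc5bffd0fffe87fff23fffc1ffc00 := by decide +kernel

theorem ini1 : ini 20 (nonL 1) = 0x7ffffbffffdffffefffff7ffffbffffdffffefffff7ffffbffffcb0ffe50ffd60ffe26ffd1affcccfffc2fffa8fff94003fe ∧
    ini 20 ((nonL 1).map Prod.swap) = 0x7fffebfffedfffeefffef7ffefbffefdffefeffeff7feffbfeffd4fffcafffe1fffd99ffec5fff23ffc35ffc53ffc69ffc00 := by decide +kernel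

theorem ini2 : ini 20 (nonL 2) = 0x7ffffbffffdffffefffff7ffffbffffdffffefffff7ffffbffffd0effca6ffe4afff12ffec4fffa0ffd70ffcd8ffc3c003fe ∧
    ini 20 ((nonL 2).map Prod.swap) = 0x7fffebfffedfffeefffef7ffefbffefdffefeffeff7feffbfeffcf1ffe59ffd35ffcadffd1bffc4fffe87fff23fffc1ffc00 := by decide +kernel

theorem Hyp.regOut (h : Hyp H T) {x y : W} (h9 : cn (ar T true x) ≤ 9) (t : T x y) :
    cn (fun z => T x z ∧ T z y) = 4 := by
  classical
  obtain ⟨k, hk, g, l, hC, hU⟩ := h.side h9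
  have k1 : k ≠ 1 := by
    rintro rfl
    refine h.root h9 hk l (fun i j hi hj t => (hU i j hi hj t).1) ?_
    rw [ini1.1, ini1.2]
    exact cb_dead h.cfg (by simp)
  obtain ⟨j, hj, rfl⟩ := l.sur y (h.real (d := true) h9 t)
  have e : ((Finset.range 9).filter (fun i => (cls k).testBit (9 * i + j) = true)).card =
      cn (fun z => T x z ∧ T z (g j)) := by
    refine Finset.card_bij (fun i _ => g i) ?_ ?_ ?_
    · intro i hi
      simp only [Finset.mem_filter, Finset.mem_range, Finset.mem_univ, true_and] at hi ⊢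
      exact ⟨h.sub _ _ (l.mem i), h.sub _ _ (hU i j hi.1 hj hi.2).1⟩
    · intro a ha b hb e
      simp only [Finset.mem_filter, Finset.mem_range] at ha hb
      by_contra ne
      rcases cls_tot k hk a ha.1 b hb.1 ne with t | t
      · have := (hU a b ha.1 hb.1 t).1
        rw [e] at this; exact h.hH _ _ this this
      · have := (hU b a hb.1 ha.1 t).1
        rw [e] at this; exact h.hH _ _ this this
    · intro z hz
      simp only [Finset.mem_filter, Finset.mem_univ, true_and] at hz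
      obtain ⟨i, hi, rfl⟩ := l.sur z (h.real (d := true) h9 hz.1)
      refine ⟨i, Finset.mem_filter.2 ⟨Finset.mem_range.2 hi, ?_⟩, rfl⟩
      have ne : i ≠ j := by
        rintro rfl; exact h.anti _ _ hz.2 hz.2
      refine (cls_tot k hk i hi j hj ne).resolve_right (fun t => ?_)
      exact h.anti _ _ hz.2 (h.sub _ _ (hU j i hj hi t).1)
  rw [← e]
  obtain rfl | rfl : k = 0 ∨ k = 2 := by omega
  · exact (cls_reg j hj).1
  · exact (cls_reg j hj).2

theorem Hyp.reg (h : Hyp H T) : Reg T := by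
  rintro x y t (h9 | h9)
  · exact h.regOut h9 t
  · rw [cn_congr (q := fun z => T z y ∧ T x z) (fun z => and_comm)]
    exact h.flip.regOut (x := y) (y := x) h9 t

theorem Hyp.noOut (h : Hyp H T) (x : W) (h9 : cn (ar T true x) ≤ 9) : False := by
  obtain ⟨k, hk, g, l, hC, hU⟩ := h.side h9
  refine h.root h9 hk l (fun i j hi hj t => (hU i j hi hj t).1) ?_
  obtain rfl | rfl | rfl : k = 0 ∨ k = 1 ∨ k = 2 := by omega
  · rw [ini0.1, ini0.2]; exact ca_dead h.cfg (fun _ => h.reg)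
  · rw [ini1.1, ini1.2]; exact cb_dead h.cfg (by simp)
  · rw [ini2.1, ini2.2]; exact cc_dead h.cfg (fun _ => h.reg)

theorem Hyp.elim (h : Hyp H T) (x : W) : False := by
  have s := h.cfg.sum x
  by_cases h9 : cn (ar T true x) ≤ 9
  · exact h.noOut x h9
  · exact h.flip.noOut x (by
      have : cn (ar T false x) ≤ 9 := by omega
      exact this)

omit [Fintype W] [LinearOrder W] in
theorem sat_pull {r : W → W} (hr : ∀ x y, H x y → r x = x ∧ r y = y) (F : Fill) :
    ∀ x y z, Sat H F (r x) (r y) (r z) → Sat (fun a b => H (r a) (r b)) F x y z := by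
  have fx : ∀ {o x v}, ar H o x v → r v = v := by
    intro o x v a
    cases o
    · exact (hr _ _ a).1
    · exact (hr _ _ a).2
  have pl : ∀ {o x y}, ar H o (r x) (r y) → ar (fun a b => H (r a) (r b)) o x y := by
    intro o x y a
    cases o <;> exact a
  induction F with
  | leaf => intros; trivial
  | st o1 o2 o3 F1 F2 F3 i1 i2 i3 =>
    rintro x y z ⟨v, a1, a2, a3, s1, s2, s3⟩
    obtain ⟨v', ev, rfl⟩ : ∃ v', v' = v ∧ r v' = v := ⟨v, rfl, fx a1⟩
    exact ⟨v', pl a1, pl a2, pl a3, i1 _ _ _ s1, i2 _ _ _ s2, i3 _ _ _ s3⟩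
  | oc o1 o2 o3 o4 o5 o6 o7 o8 o9 F1 F2 F3 F4 F5 F6 F7 i1 i2 i3 i4 i5 i6 i7 =>
    rintro x y z ⟨a, b, c, a1, a2, a3, a4, a5, a6, a7, a8, a9, s1, s2, s3, s4, s5, s6, s7⟩
    obtain ⟨a', ea, rfl⟩ : ∃ a', a' = a ∧ r a' = a := ⟨a, rfl, fx a3⟩
    obtain ⟨b', eb, rfl⟩ : ∃ b', b' = b ∧ r b' = b := ⟨b, rfl, fx a5⟩
    obtain ⟨c', ec, rfl⟩ : ∃ c', c' = c ∧ r c' = c := ⟨c, rfl, fx a1⟩
    exact ⟨a', b', c', pl a1, pl a2, pl a3, pl a4, pl a5, pl a6, pl a7, pl a8, pl a9,
      i1 _ _ _ s1, i2 _ _ _ s2, i3 _ _ _ s3, i4 _ _ _ s4, i5 _ _ _ s5, i6 _ _ _ s6, i7 _ _ _ s7⟩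

theorem not_good_twenty (hc : Fintype.card W = 20) (hH : ∀ x y, H x y → ¬ H y x)
    (hx : ∃ x y, H x y) : ¬ Good H := by
  classical
  intro hG
  obtain ⟨x0, y0, h0⟩ := hx
  let r : W → W := fun x => if ∃ y, H x y ∨ H y x then x else x0
  have hr : ∀ x y, H x y → r x = x ∧ r y = y := fun x y t =>
    ⟨if_pos ⟨y, Or.inl t⟩, if_pos ⟨x, Or.inr t⟩⟩
  have hH' : ∀ x y, H (r x) (r y) → ¬ H (r y) (r x) := fun x y => hH _ _
  refine Hyp.elim (H := fun a b => H (r a) (r b)) (T := cpl fun a b => H (r a) (r b))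
    ⟨hc, hH', fun p q t F => ?_, fun x => ?_, fun x y t => Or.inl t, cpl_anti hH',
      fun x y e => cpl_tot e⟩ x0
  · obtain ⟨z, v, a1, -, -, s, -⟩ := hG _ _ t (.st true true true F .leaf .leaf)
    rw [← (hr _ _ a1).2] at s
    exact ⟨v, sat_pull hr F _ _ _ s⟩
  · by_cases hx : ∃ y, H x y ∨ H y x
    · obtain ⟨y, t | t⟩ := hx
      · exact ⟨y, Or.inl (by rw [(hr _ _ t).1, (hr _ _ t).2]; exact t)⟩
      · exact ⟨y, Or.inr (by rw [(hr _ _ t).1, (hr _ _ t).2]; exact t)⟩
    · refine ⟨y0, Or.inl ?_⟩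
      rw [show r x = x0 from if_neg hx, (hr _ _ h0).2]
      exact h0

end

end Pool.Agent.OCP
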