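import Pool.Agent.Lib.MP_55dd22_co.Geo

/-! The two patterns (stellation, octahedron) in the standard triangle. -/

set_option linter.unusedSimpArgs false
set_option linter.unreachableTactic false
set_option linter.unusedTactic false
set_option linter.unnecessarySeqFocus false

namespace Pool.Agent.OCP

noncomputable def pA : Pt := ((0:ℝ), (0:ℝ))
noncomputable def pB : Pt := ((1:ℝ), (0:ℝ))
noncomputable def pC : Pt := ((0:ℝ), (1:ℝ))
noncomputable def pV : Pt := ((1/3:ℝ), (1/3:ℝ))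
noncomputable def pax : Pt := ((2/5:ℝ), (2/5:ℝ))
noncomputable def pbx : Pt := ((1/5:ℝ), (2/5:ℝ))
noncomputable def pcx : Pt := ((2/5:ℝ), (1/5:ℝ))

theorem tr_std {p : Pt} (h1 : 0 < p.1) (h2 : 0 < p.2) (h3 : p.1 + p.2 < 1) : p ∈ Tr pA pB pC :=
  ⟨p.1, p.2, h1, h2, h3, by simp [pA, pB, pC], by simp [pA, pB, pC]⟩

theorem ps_row0 : ∀ U ∈ ([Sg pB pV, Sg pC pV, Tr pA pB pV, Tr pB pC pV, Tr pC pA pV] : List (Set Pt)), Disjoint (Sg pA pV) U := by
  intro U hU
  rw [Set.disjoint_left]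
  intro p hp hq
  obtain ⟨s, h0, h1, e1, e2⟩ := hp
  simp only [List.mem_cons, List.not_mem_nil, or_false] at hU
  rcases hU with rfl | rfl | rfl | rfl | rfl
  all_goals
    first
      | obtain ⟨s', t', k0, k1, k2, f1, f2⟩ := hq
      | obtain ⟨s', k0, k1, f1, f2⟩ := hq
    simp only [pA, pB, pC, pV, pax, pbx, pcx] at e1 e2 f1 f2
    linarith

theorem ps_row1 : ∀ U ∈ ([Sg pC pV, Tr pA pB pV, Tr pB pC pV, Tr pC pA pV] : List (Set Pt)), Disjoint (Sg pB pV) U := by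
  intro U hU
  rw [Set.disjoint_left]
  intro p hp hq
  obtain ⟨s, h0, h1, e1, e2⟩ := hp
  simp only [List.mem_cons, List.not_mem_nil, or_false] at hU
  rcases hU with rfl | rfl | rfl | rfl
  all_goals
    first
      | obtain ⟨s', t', k0, k1, k2, f1, f2⟩ := hq
      | obtain ⟨s', k0, k1, f1, f2⟩ := hq
    simp only [pA, pB, pC, pV, pax, pbx, pcx] at e1 e2 f1 f2
    linarith

theorem ps_row2 : ∀ U ∈ ([Tr pA pB pV, Tr pB pC pV, Tr pC pA pV] : List (Set Pt)), Disjoint (Sg pC pV) U := by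
  intro U hU
  rw [Set.disjoint_left]
  intro p hp hq
  obtain ⟨s, h0, h1, e1, e2⟩ := hp
  simp only [List.mem_cons, List.not_mem_nil, or_false] at hU
  rcases hU with rfl | rfl | rfl
  all_goals
    first
      | obtain ⟨s', t', k0, k1, k2, f1, f2⟩ := hq
      | obtain ⟨s', k0, k1, f1, f2⟩ := hq
    simp only [pA, pB, pC, pV, pax, pbx, pcx] at e1 e2 f1 f2
    linarith

theorem ps_row3 : ∀ U ∈ ([Tr pB pC pV, Tr pC pA pV] : List (Set Pt)), Disjoint (Tr pA pB pV) U := by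
  intro U hU
  rw [Set.disjoint_left]
  intro p hp hq
  obtain ⟨s, t, h0, h1, h2, e1, e2⟩ := hp
  simp only [List.mem_cons, List.not_mem_nil, or_false] at hU
  rcases hU with rfl | rfl
  all_goals
    first
      | obtain ⟨s', t', k0, k1, k2, f1, f2⟩ := hq
      | obtain ⟨s', k0, k1, f1, f2⟩ := hq
    simp only [pA, pB, pC, pV, pax, pbx, pcx] at e1 e2 f1 f2
    linarith

theorem ps_row4 : ∀ U ∈ ([Tr pC pA pV] : List (Set Pt)), Disjoint (Tr pB pC pV) U := by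
  intro U hU
  rw [Set.disjoint_left]
  intro p hp hq
  obtain ⟨s, t, h0, h1, h2, e1, e2⟩ := hp
  simp only [List.mem_cons, List.not_mem_nil, or_false] at hU
  subst hU
  all_goals
    first
      | obtain ⟨s', t', k0, k1, k2, f1, f2⟩ := hq
      | obtain ⟨s', k0, k1, f1, f2⟩ := hq
    simp only [pA, pB, pC, pV, pax, pbx, pcx] at e1 e2 f1 f2
    linarith

theorem ps_pw : ([Sg pA pV, Sg pB pV, Sg pC pV, Tr pA pB pV, Tr pB pC pV, Tr pC pA pV] : List (Set Pt)).Pairwise Disjoint := by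
  refine List.Pairwise.cons ps_row0 ( List.Pairwise.cons ps_row1 ( List.Pairwise.cons ps_row2 ( List.Pairwise.cons ps_row3 ( List.Pairwise.cons ps_row4 (List.pairwise_singleton _ _)))))

theorem ps_k : ∀ U ∈ ([Sg pA pV, Sg pB pV, Sg pC pV, Tr pA pB pV, Tr pB pC pV, Tr pC pA pV] : List (Set Pt)), Disjoint ({pA, pB, pC, pV} : Set Pt) U := by
  intro U hU
  rw [Set.disjoint_left]
  intro p hp hq
  simp only [List.mem_cons, List.not_mem_nil, or_false] at hU
  rcases hU with rfl | rfl | rfl | rfl | rfl | rfl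
  all_goals
    first
      | obtain ⟨s', t', k0, k1, k2, f1, f2⟩ := hq
      | obtain ⟨s', k0, k1, f1, f2⟩ := hq
    rcases hp with rfl | rfl | rfl | rfl
    all_goals
      simp only [pA, pB, pC, pV, pax, pbx, pcx] at f1 f2
      linarith

theorem ps_sub : ∀ U ∈ ([Sg pA pV, Sg pB pV, Sg pC pV, Tr pA pB pV, Tr pB pC pV, Tr pC pA pV] : List (Set Pt)), U ⊆ Tr pA pB pC := by
  intro U hU p hq
  simp only [List.mem_cons, List.not_mem_nil, or_false] at hU
  rcases hU with rfl | rfl | rfl | rfl | rfl | rfl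
  all_goals
    first
      | obtain ⟨s', t', k0, k1, k2, f1, f2⟩ := hq
      | obtain ⟨s', k0, k1, f1, f2⟩ := hq
    simp only [pA, pB, pC, pV, pax, pbx, pcx] at f1 f2
    refine tr_std ?_ ?_ ?_ <;> linarith

theorem ps_in : ∀ p ∈ ({pA, pB, pC, pV} : Set Pt), p ∈ Tr pA pB pC ∨ p ∈ ({pA, pB, pC} : Set Pt) := by
  rintro p (rfl | rfl | rfl | rfl)
  · simp
  · simp
  · simp
  all_goals
    left
    refine tr_std ?_ ?_ ?_ <;> simp only [pA, pB, pC, pV, pax, pbx, pcx] <;> norm_num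

theorem rl_st (o1 o2 o3 : Bool) {F1 F2 F3 : Fill} (h1 : Rl F1 pA pB pC) (h2 : Rl F2 pA pB pC) (h3 : Rl F3 pA pB pC) :
    Rl (.st o1 o2 o3 F1 F2 F3) pA pB pC := by
  obtain ⟨E1, d1, s1⟩ := Rl.transfer (a := pA) (b := pB) (c := pV) h1
    (by simp only [pA, pB, pC, pV, pax, pbx, pcx]; norm_num)
  obtain ⟨E2, d2, s2⟩ := Rl.transfer (a := pB) (b := pC) (c := pV) h2
    (by simp only [pA, pB, pC, pV, pax, pbx, pcx]; norm_num)
  obtain ⟨E3, d3, s3⟩ := Rl.transfer (a := pC) (b := pA) (c := pV) h3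
    (by simp only [pA, pB, pC, pV, pax, pbx, pcx]; norm_num)
  let L : List (Set Pt × Set (Pt × Pt)) := [(Sg pA pV, oe o1 pA pV), (Sg pB pV, oe o2 pB pV), (Sg pC pV, oe o3 pC pV), (Tr pA pB pV, E1), (Tr pB pC pV, E2), (Tr pC pA pV, E3)]
  have hD := Dr.list ({pA, pB, pC, pV} : Set Pt) L ?_ ps_k ps_pw
  · have hsub : ∀ c ∈ L, c.2 ⊆ {e | ∃ c ∈ L, e ∈ c.2} := fun c hc e he => ⟨c, hc, he⟩
    have hs : ∀ c ∈ L, ∀ (F : Fill) (x y z : Pt), Sat (fun x y => (x, y) ∈ c.2) F x y z →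
        Sat (fun x y => (x, y) ∈ {e | ∃ c ∈ L, e ∈ c.2}) F x y z :=
      fun c hc F x y z h => Sat.map id (fun x y h => hsub c hc h) F x y z h
    refine ⟨_, hD.mono ?_ ps_in, ?_⟩
    · rintro p ⟨c, hc, hp⟩
      exact ps_sub c.1 (List.mem_map_of_mem (f := Prod.fst) hc) hp
    · refine ⟨pV, ?_, ?_, ?_, ?_, ?_, ?_⟩
      · exact ar_oe (hsub (Sg pA pV, oe o1 pA pV) (by simp [L]))
      · exact ar_oe (hsub (Sg pB pV, oe o2 pB pV) (by simp [L]))
      · exact ar_oe (hsub (Sg pC pV, oe o3 pC pV) (by simp [L]))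
      · exact hs (Tr pA pB pV, E1) (by simp [L]) _ _ _ _ s1
      · exact hs (Tr pB pC pV, E2) (by simp [L]) _ _ _ _ s2
      · exact hs (Tr pC pA pV, E3) (by simp [L]) _ _ _ _ s3
  · intro c hc
    simp only [L, List.mem_cons, List.not_mem_nil, or_false] at hc
    rcases hc with rfl | rfl | rfl | rfl | rfl | rfl
    · exact Dr.edge _ (by simp) (by simp) (ps_k _ (by simp))
    · exact Dr.edge _ (by simp) (by simp) (ps_k _ (by simp))
    · exact Dr.edge _ (by simp) (by simp) (ps_k _ (by simp))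
    · exact d1.mono subset_rfl (by rintro p (rfl | rfl | rfl) <;> simp)
    · exact d2.mono subset_rfl (by rintro p (rfl | rfl | rfl) <;> simp)
    · exact d3.mono subset_rfl (by rintro p (rfl | rfl | rfl) <;> simp)


theorem po_row0 : ∀ U ∈ ([Sg pB pcx, Sg pB pax, Sg pC pax, Sg pC pbx, Sg pA pbx, Sg pcx pax, Sg pax pbx, Sg pbx pcx, Tr pA pB pcx, Tr pB pC pax, Tr pC pA pbx, Tr pA pcx pbx, Tr pB pax pcx, Tr pC pbx pax, Tr pcx pax pbx] : List (Set Pt)), Disjoint (Sg pA pcx) U := by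
  intro U hU
  rw [Set.disjoint_left]
  intro p hp hq
  obtain ⟨s, h0, h1, e1, e2⟩ := hp
  simp only [List.mem_cons, List.not_mem_nil, or_false] at hU
  rcases hU with rfl | rfl | rfl | rfl | rfl | rfl | rfl | rfl | rfl | rfl | rfl | rfl | rfl | rfl | rfl
  all_goals
    first
      | obtain ⟨s', t', k0, k1, k2, f1, f2⟩ := hq
      | obtain ⟨s', k0, k1, f1, f2⟩ := hq
    simp only [pA, pB, pC, pV, pax, pbx, pcx] at e1 e2 f1 f2
    linarith

theorem po_row1 : ∀ U ∈ ([Sg pB pax, Sg pC pax, Sg pC pbx, Sg pA pbx, Sg pcx pax, Sg pax pbx, Sg pbx pcx, Tr pA pB pcx, Tr pB pC pax, Tr pC pA pbx, Tr pA pcx pbx, Tr pB pax pcx, Tr pC pbx pax, Tr pcx pax pbx] : List (Set Pt)), Disjoint (Sg pB pcx) U := by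
  intro U hU
  rw [Set.disjoint_left]
  intro p hp hq
  obtain ⟨s, h0, h1, e1, e2⟩ := hp
  simp only [List.mem_cons, List.not_mem_nil, or_false] at hU
  rcases hU with rfl | rfl | rfl | rfl | rfl | rfl | rfl | rfl | rfl | rfl | rfl | rfl | rfl | rfl
  all_goals
    first
      | obtain ⟨s', t', k0, k1, k2, f1, f2⟩ := hq
      | obtain ⟨s', k0, k1, f1, f2⟩ := hq
    simp only [pA, pB, pC, pV, pax, pbx, pcx] at e1 e2 f1 f2
    linarith

theorem po_row2 : ∀ U ∈ ([Sg pC pax, Sg pC pbx, Sg pA pbx, Sg pcx pax, Sg pax pbx, Sg pbx pcx, Tr pA pB pcx, Tr pB pC pax, Tr pC pA pbx, Tr pA pcx pbx, Tr pB pax pcx, Tr pC pbx pax, Tr pcx pax pbx] : List (Set Pt)), Disjoint (Sg pB pax) U := by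
  intro U hU
  rw [Set.disjoint_left]
  intro p hp hq
  obtain ⟨s, h0, h1, e1, e2⟩ := hp
  simp only [List.mem_cons, List.not_mem_nil, or_false] at hU
  rcases hU with rfl | rfl | rfl | rfl | rfl | rfl | rfl | rfl | rfl | rfl | rfl | rfl | rfl
  all_goals
    first
      | obtain ⟨s', t', k0, k1, k2, f1, f2⟩ := hq
      | obtain ⟨s', k0, k1, f1, f2⟩ := hq
    simp only [pA, pB, pC, pV, pax, pbx, pcx] at e1 e2 f1 f2
    linarith

theorem po_row3 : ∀ U ∈ ([Sg pC pbx, Sg pA pbx, Sg pcx pax, Sg pax pbx, Sg pbx pcx, Tr pA pB pcx, Tr pB pC pax, Tr pC pA pbx, Tr pA pcx pbx, Tr pB pax pcx, Tr pC pbx pax, Tr pcx pax pbx] : List (Set Pt)), Disjoint (Sg pC pax) U := by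
  intro U hU
  rw [Set.disjoint_left]
  intro p hp hq
  obtain ⟨s, h0, h1, e1, e2⟩ := hp
  simp only [List.mem_cons, List.not_mem_nil, or_false] at hU
  rcases hU with rfl | rfl | rfl | rfl | rfl | rfl | rfl | rfl | rfl | rfl | rfl | rfl
  all_goals
    first
      | obtain ⟨s', t', k0, k1, k2, f1, f2⟩ := hq
      | obtain ⟨s', k0, k1, f1, f2⟩ := hq
    simp only [pA, pB, pC, pV, pax, pbx, pcx] at e1 e2 f1 f2
    linarith

theorem po_row4 : ∀ U ∈ ([Sg pA pbx, Sg pcx pax, Sg pax pbx, Sg pbx pcx, Tr pA pB pcx, Tr pB pC pax, Tr pC pA pbx, Tr pA pcx pbx, Tr pB pax pcx, Tr pC pbx pax, Tr pcx pax pbx] : List (Set Pt)), Disjoint (Sg pC pbx) U := by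
  intro U hU
  rw [Set.disjoint_left]
  intro p hp hq
  obtain ⟨s, h0, h1, e1, e2⟩ := hp
  simp only [List.mem_cons, List.not_mem_nil, or_false] at hU
  rcases hU with rfl | rfl | rfl | rfl | rfl | rfl | rfl | rfl | rfl | rfl | rfl
  all_goals
    first
      | obtain ⟨s', t', k0, k1, k2, f1, f2⟩ := hq
      | obtain ⟨s', k0, k1, f1, f2⟩ := hq
    simp only [pA, pB, pC, pV, pax, pbx, pcx] at e1 e2 f1 f2
    linarith

theorem po_row5 : ∀ U ∈ ([Sg pcx pax, Sg pax pbx, Sg pbx pcx, Tr pA pB pcx, Tr pB pC pax, Tr pC pA pbx, Tr pA pcx pbx, Tr pB pax pcx, Tr pC pbx pax, Tr pcx pax pbx] : List (Set Pt)), Disjoint (Sg pA pbx) U := by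
  intro U hU
  rw [Set.disjoint_left]
  intro p hp hq
  obtain ⟨s, h0, h1, e1, e2⟩ := hp
  simp only [List.mem_cons, List.not_mem_nil, or_false] at hU
  rcases hU with rfl | rfl | rfl | rfl | rfl | rfl | rfl | rfl | rfl | rfl
  all_goals
    first
      | obtain ⟨s', t', k0, k1, k2, f1, f2⟩ := hq
      | obtain ⟨s', k0, k1, f1, f2⟩ := hq
    simp only [pA, pB, pC, pV, pax, pbx, pcx] at e1 e2 f1 f2
    linarith

theorem po_row6 : ∀ U ∈ ([Sg pax pbx, Sg pbx pcx, Tr pA pB pcx, Tr pB pC pax, Tr pC pA pbx, Tr pA pcx pbx, Tr pB pax pcx, Tr pC pbx pax, Tr pcx pax pbx] : List (Set Pt)), Disjoint (Sg pcx pax) U := by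
  intro U hU
  rw [Set.disjoint_left]
  intro p hp hq
  obtain ⟨s, h0, h1, e1, e2⟩ := hp
  simp only [List.mem_cons, List.not_mem_nil, or_false] at hU
  rcases hU with rfl | rfl | rfl | rfl | rfl | rfl | rfl | rfl | rfl
  all_goals
    first
      | obtain ⟨s', t', k0, k1, k2, f1, f2⟩ := hq
      | obtain ⟨s', k0, k1, f1, f2⟩ := hq
    simp only [pA, pB, pC, pV, pax, pbx, pcx] at e1 e2 f1 f2
    linarith

theorem po_row7 : ∀ U ∈ ([Sg pbx pcx, Tr pA pB pcx, Tr pB pC pax, Tr pC pA pbx, Tr pA pcx pbx, Tr pB pax pcx, Tr pC pbx pax, Tr pcx pax pbx] : List (Set Pt)), Disjoint (Sg pax pbx) U := by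
  intro U hU
  rw [Set.disjoint_left]
  intro p hp hq
  obtain ⟨s, h0, h1, e1, e2⟩ := hp
  simp only [List.mem_cons, List.not_mem_nil, or_false] at hU
  rcases hU with rfl | rfl | rfl | rfl | rfl | rfl | rfl | rfl
  all_goals
    first
      | obtain ⟨s', t', k0, k1, k2, f1, f2⟩ := hq
      | obtain ⟨s', k0, k1, f1, f2⟩ := hq
    simp only [pA, pB, pC, pV, pax, pbx, pcx] at e1 e2 f1 f2
    linarith

theorem po_row8 : ∀ U ∈ ([Tr pA pB pcx, Tr pB pC pax, Tr pC pA pbx, Tr pA pcx pbx, Tr pB pax pcx, Tr pC pbx pax, Tr pcx pax pbx] : List (Set Pt)), Disjoint (Sg pbx pcx) U := by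
  intro U hU
  rw [Set.disjoint_left]
  intro p hp hq
  obtain ⟨s, h0, h1, e1, e2⟩ := hp
  simp only [List.mem_cons, List.not_mem_nil, or_false] at hU
  rcases hU with rfl | rfl | rfl | rfl | rfl | rfl | rfl
  all_goals
    first
      | obtain ⟨s', t', k0, k1, k2, f1, f2⟩ := hq
      | obtain ⟨s', k0, k1, f1, f2⟩ := hq
    simp only [pA, pB, pC, pV, pax, pbx, pcx] at e1 e2 f1 f2
    linarith

theorem po_row9 : ∀ U ∈ ([Tr pB pC pax, Tr pC pA pbx, Tr pA pcx pbx, Tr pB pax pcx, Tr pC pbx pax, Tr pcx pax pbx] : List (Set Pt)), Disjoint (Tr pA pB pcx) U := by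
  intro U hU
  rw [Set.disjoint_left]
  intro p hp hq
  obtain ⟨s, t, h0, h1, h2, e1, e2⟩ := hp
  simp only [List.mem_cons, List.not_mem_nil, or_false] at hU
  rcases hU with rfl | rfl | rfl | rfl | rfl | rfl
  all_goals
    first
      | obtain ⟨s', t', k0, k1, k2, f1, f2⟩ := hq
      | obtain ⟨s', k0, k1, f1, f2⟩ := hq
    simp only [pA, pB, pC, pV, pax, pbx, pcx] at e1 e2 f1 f2
    linarith

theorem po_row10 : ∀ U ∈ ([Tr pC pA pbx, Tr pA pcx pbx, Tr pB pax pcx, Tr pC pbx pax, Tr pcx pax pbx] : List (Set Pt)), Disjoint (Tr pB pC pax) U := by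
  intro U hU
  rw [Set.disjoint_left]
  intro p hp hq
  obtain ⟨s, t, h0, h1, h2, e1, e2⟩ := hp
  simp only [List.mem_cons, List.not_mem_nil, or_false] at hU
  rcases hU with rfl | rfl | rfl | rfl | rfl
  all_goals
    first
      | obtain ⟨s', t', k0, k1, k2, f1, f2⟩ := hq
      | obtain ⟨s', k0, k1, f1, f2⟩ := hq
    simp only [pA, pB, pC, pV, pax, pbx, pcx] at e1 e2 f1 f2
    linarith

theorem po_row11 : ∀ U ∈ ([Tr pA pcx pbx, Tr pB pax pcx, Tr pC pbx pax, Tr pcx pax pbx] : List (Set Pt)), Disjoint (Tr pC pA pbx) U := by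
  intro U hU
  rw [Set.disjoint_left]
  intro p hp hq
  obtain ⟨s, t, h0, h1, h2, e1, e2⟩ := hp
  simp only [List.mem_cons, List.not_mem_nil, or_false] at hU
  rcases hU with rfl | rfl | rfl | rfl
  all_goals
    first
      | obtain ⟨s', t', k0, k1, k2, f1, f2⟩ := hq
      | obtain ⟨s', k0, k1, f1, f2⟩ := hq
    simp only [pA, pB, pC, pV, pax, pbx, pcx] at e1 e2 f1 f2
    linarith

theorem po_row12 : ∀ U ∈ ([Tr pB pax pcx, Tr pC pbx pax, Tr pcx pax pbx] : List (Set Pt)), Disjoint (Tr pA pcx pbx) U := by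
  intro U hU
  rw [Set.disjoint_left]
  intro p hp hq
  obtain ⟨s, t, h0, h1, h2, e1, e2⟩ := hp
  simp only [List.mem_cons, List.not_mem_nil, or_false] at hU
  rcases hU with rfl | rfl | rfl
  all_goals
    first
      | obtain ⟨s', t', k0, k1, k2, f1, f2⟩ := hq
      | obtain ⟨s', k0, k1, f1, f2⟩ := hq
    simp only [pA, pB, pC, pV, pax, pbx, pcx] at e1 e2 f1 f2
    linarith

theorem po_row13 : ∀ U ∈ ([Tr pC pbx pax, Tr pcx pax pbx] : List (Set Pt)), Disjoint (Tr pB pax pcx) U := by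
  intro U hU
  rw [Set.disjoint_left]
  intro p hp hq
  obtain ⟨s, t, h0, h1, h2, e1, e2⟩ := hp
  simp only [List.mem_cons, List.not_mem_nil, or_false] at hU
  rcases hU with rfl | rfl
  all_goals
    first
      | obtain ⟨s', t', k0, k1, k2, f1, f2⟩ := hq
      | obtain ⟨s', k0, k1, f1, f2⟩ := hq
    simp only [pA, pB, pC, pV, pax, pbx, pcx] at e1 e2 f1 f2
    linarith

theorem po_row14 : ∀ U ∈ ([Tr pcx pax pbx] : List (Set Pt)), Disjoint (Tr pC pbx pax) U := by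
  intro U hU
  rw [Set.disjoint_left]
  intro p hp hq
  obtain ⟨s, t, h0, h1, h2, e1, e2⟩ := hp
  simp only [List.mem_cons, List.not_mem_nil, or_false] at hU
  subst hU
  all_goals
    first
      | obtain ⟨s', t', k0, k1, k2, f1, f2⟩ := hq
      | obtain ⟨s', k0, k1, f1, f2⟩ := hq
    simp only [pA, pB, pC, pV, pax, pbx, pcx] at e1 e2 f1 f2
    linarith

theorem po_pw : ([Sg pA pcx, Sg pB pcx, Sg pB pax, Sg pC pax, Sg pC pbx, Sg pA pbx, Sg pcx pax, Sg pax pbx, Sg pbx pcx, Tr pA pB pcx, Tr pB pC pax, Tr pC pA pbx, Tr pA pcx pbx, Tr pB pax pcx, Tr pC pbx pax, Tr pcx pax pbx] : List (Set Pt)).Pairwise Disjoint := by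
  refine List.Pairwise.cons po_row0 ( List.Pairwise.cons po_row1 ( List.Pairwise.cons po_row2 ( List.Pairwise.cons po_row3 ( List.Pairwise.cons po_row4 ( List.Pairwise.cons po_row5 ( List.Pairwise.cons po_row6 ( List.Pairwise.cons po_row7 ( List.Pairwise.cons po_row8 ( List.Pairwise.cons po_row9 ( List.Pairwise.cons po_row10 ( List.Pairwise.cons po_row11 ( List.Pairwise.cons po_row12 ( List.Pairwise.cons po_row13 ( List.Pairwise.cons po_row14 (List.pairwise_singleton _ _)))))))))))))))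

theorem po_k : ∀ U ∈ ([Sg pA pcx, Sg pB pcx, Sg pB pax, Sg pC pax, Sg pC pbx, Sg pA pbx, Sg pcx pax, Sg pax pbx, Sg pbx pcx, Tr pA pB pcx, Tr pB pC pax, Tr pC pA pbx, Tr pA pcx pbx, Tr pB pax pcx, Tr pC pbx pax, Tr pcx pax pbx] : List (Set Pt)), Disjoint ({pA, pB, pC, pax, pbx, pcx} : Set Pt) U := by
  intro U hU
  rw [Set.disjoint_left]
  intro p hp hq
  simp only [List.mem_cons, List.not_mem_nil, or_false] at hU
  rcases hU with rfl | rfl | rfl | rfl | rfl | rfl | rfl | rfl | rfl | rfl | rfl | rfl | rfl | rfl | rfl | rfl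
  all_goals
    first
      | obtain ⟨s', t', k0, k1, k2, f1, f2⟩ := hq
      | obtain ⟨s', k0, k1, f1, f2⟩ := hq
    rcases hp with rfl | rfl | rfl | rfl | rfl | rfl
    all_goals
      simp only [pA, pB, pC, pV, pax, pbx, pcx] at f1 f2
      linarith

theorem po_sub : ∀ U ∈ ([Sg pA pcx, Sg pB pcx, Sg pB pax, Sg pC pax, Sg pC pbx, Sg pA pbx, Sg pcx pax, Sg pax pbx, Sg pbx pcx, Tr pA pB pcx, Tr pB pC pax, Tr pC pA pbx, Tr pA pcx pbx, Tr pB pax pcx, Tr pC pbx pax, Tr pcx pax pbx] : List (Set Pt)), U ⊆ Tr pA pB pC := by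
  intro U hU p hq
  simp only [List.mem_cons, List.not_mem_nil, or_false] at hU
  rcases hU with rfl | rfl | rfl | rfl | rfl | rfl | rfl | rfl | rfl | rfl | rfl | rfl | rfl | rfl | rfl | rfl
  all_goals
    first
      | obtain ⟨s', t', k0, k1, k2, f1, f2⟩ := hq
      | obtain ⟨s', k0, k1, f1, f2⟩ := hq
    simp only [pA, pB, pC, pV, pax, pbx, pcx] at f1 f2
    refine tr_std ?_ ?_ ?_ <;> linarith

theorem po_in : ∀ p ∈ ({pA, pB, pC, pax, pbx, pcx} : Set Pt), p ∈ Tr pA pB pC ∨ p ∈ ({pA, pB, pC} : Set Pt) := by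
  rintro p (rfl | rfl | rfl | rfl | rfl | rfl)
  · simp
  · simp
  · simp
  all_goals
    left
    refine tr_std ?_ ?_ ?_ <;> simp only [pA, pB, pC, pV, pax, pbx, pcx] <;> norm_num

theorem rl_oc (o1 o2 o3 o4 o5 o6 o7 o8 o9 : Bool) {F1 F2 F3 F4 F5 F6 F7 : Fill} (h1 : Rl F1 pA pB pC) (h2 : Rl F2 pA pB pC) (h3 : Rl F3 pA pB pC) (h4 : Rl F4 pA pB pC) (h5 : Rl F5 pA pB pC) (h6 : Rl F6 pA pB pC) (h7 : Rl F7 pA pB pC) :
    Rl (.oc o1 o2 o3 o4 o5 o6 o7 o8 o9 F1 F2 F3 F4 F5 F6 F7) pA pB pC := by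
  obtain ⟨E1, d1, s1⟩ := Rl.transfer (a := pA) (b := pB) (c := pcx) h1
    (by simp only [pA, pB, pC, pV, pax, pbx, pcx]; norm_num)
  obtain ⟨E2, d2, s2⟩ := Rl.transfer (a := pB) (b := pC) (c := pax) h2
    (by simp only [pA, pB, pC, pV, pax, pbx, pcx]; norm_num)
  obtain ⟨E3, d3, s3⟩ := Rl.transfer (a := pC) (b := pA) (c := pbx) h3
    (by simp only [pA, pB, pC, pV, pax, pbx, pcx]; norm_num)
  obtain ⟨E4, d4, s4⟩ := Rl.transfer (a := pA) (b := pcx) (c := pbx) h4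
    (by simp only [pA, pB, pC, pV, pax, pbx, pcx]; norm_num)
  obtain ⟨E5, d5, s5⟩ := Rl.transfer (a := pB) (b := pax) (c := pcx) h5
    (by simp only [pA, pB, pC, pV, pax, pbx, pcx]; norm_num)
  obtain ⟨E6, d6, s6⟩ := Rl.transfer (a := pC) (b := pbx) (c := pax) h6
    (by simp only [pA, pB, pC, pV, pax, pbx, pcx]; norm_num)
  obtain ⟨E7, d7, s7⟩ := Rl.transfer (a := pcx) (b := pax) (c := pbx) h7
    (by simp only [pA, pB, pC, pV, pax, pbx, pcx]; norm_num)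
  let L : List (Set Pt × Set (Pt × Pt)) := [(Sg pA pcx, oe o1 pA pcx), (Sg pB pcx, oe o2 pB pcx), (Sg pB pax, oe o3 pB pax), (Sg pC pax, oe o4 pC pax), (Sg pC pbx, oe o5 pC pbx), (Sg pA pbx, oe o6 pA pbx), (Sg pcx pax, oe o7 pcx pax), (Sg pax pbx, oe o8 pax pbx), (Sg pbx pcx, oe o9 pbx pcx), (Tr pA pB pcx, E1), (Tr pB pC pax, E2), (Tr pC pA pbx, E3), (Tr pA pcx pbx, E4), (Tr pB pax pcx, E5), (Tr pC pbx pax, E6), (Tr pcx pax pbx, E7)]
  have hD := Dr.list ({pA, pB, pC, pax, pbx, pcx} : Set Pt) L ?_ po_k po_pw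
  · have hsub : ∀ c ∈ L, c.2 ⊆ {e | ∃ c ∈ L, e ∈ c.2} := fun c hc e he => ⟨c, hc, he⟩
    have hs : ∀ c ∈ L, ∀ (F : Fill) (x y z : Pt), Sat (fun x y => (x, y) ∈ c.2) F x y z →
        Sat (fun x y => (x, y) ∈ {e | ∃ c ∈ L, e ∈ c.2}) F x y z :=
      fun c hc F x y z h => Sat.map id (fun x y h => hsub c hc h) F x y z h
    refine ⟨_, hD.mono ?_ po_in, ?_⟩
    · rintro p ⟨c, hc, hp⟩
      exact po_sub c.1 (List.mem_map_of_mem (f := Prod.fst) hc) hp
    · refine ⟨pax, pbx, pcx, ?_, ?_, ?_, ?_, ?_, ?_, ?_, ?_, ?_, ?_, ?_, ?_, ?_, ?_, ?_, ?_⟩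
      · exact ar_oe (hsub (Sg pA pcx, oe o1 pA pcx) (by simp [L]))
      · exact ar_oe (hsub (Sg pB pcx, oe o2 pB pcx) (by simp [L]))
      · exact ar_oe (hsub (Sg pB pax, oe o3 pB pax) (by simp [L]))
      · exact ar_oe (hsub (Sg pC pax, oe o4 pC pax) (by simp [L]))
      · exact ar_oe (hsub (Sg pC pbx, oe o5 pC pbx) (by simp [L]))
      · exact ar_oe (hsub (Sg pA pbx, oe o6 pA pbx) (by simp [L]))
      · exact ar_oe (hsub (Sg pcx pax, oe o7 pcx pax) (by simp [L]))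
      · exact ar_oe (hsub (Sg pax pbx, oe o8 pax pbx) (by simp [L]))
      · exact ar_oe (hsub (Sg pbx pcx, oe o9 pbx pcx) (by simp [L]))
      · exact hs (Tr pA pB pcx, E1) (by simp [L]) _ _ _ _ s1
      · exact hs (Tr pB pC pax, E2) (by simp [L]) _ _ _ _ s2
      · exact hs (Tr pC pA pbx, E3) (by simp [L]) _ _ _ _ s3
      · exact hs (Tr pA pcx pbx, E4) (by simp [L]) _ _ _ _ s4
      · exact hs (Tr pB pax pcx, E5) (by simp [L]) _ _ _ _ s5
      · exact hs (Tr pC pbx pax, E6) (by simp [L]) _ _ _ _ s6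
      · exact hs (Tr pcx pax pbx, E7) (by simp [L]) _ _ _ _ s7
  · intro c hc
    simp only [L, List.mem_cons, List.not_mem_nil, or_false] at hc
    rcases hc with rfl | rfl | rfl | rfl | rfl | rfl | rfl | rfl | rfl | rfl | rfl | rfl | rfl | rfl | rfl | rfl
    · exact Dr.edge _ (by simp) (by simp) (po_k _ (by simp))
    · exact Dr.edge _ (by simp) (by simp) (po_k _ (by simp))
    · exact Dr.edge _ (by simp) (by simp) (po_k _ (by simp))
    · exact Dr.edge _ (by simp) (by simp) (po_k _ (by simp))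
    · exact Dr.edge _ (by simp) (by simp) (po_k _ (by simp))
    · exact Dr.edge _ (by simp) (by simp) (po_k _ (by simp))
    · exact Dr.edge _ (by simp) (by simp) (po_k _ (by simp))
    · exact Dr.edge _ (by simp) (by simp) (po_k _ (by simp))
    · exact Dr.edge _ (by simp) (by simp) (po_k _ (by simp))
    · exact d1.mono subset_rfl (by rintro p (rfl | rfl | rfl) <;> simp)
    · exact d2.mono subset_rfl (by rintro p (rfl | rfl | rfl) <;> simp)
    · exact d3.mono subset_rfl (by rintro p (rfl | rfl | rfl) <;> simp)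
    · exact d4.mono subset_rfl (by rintro p (rfl | rfl | rfl) <;> simp)
    · exact d5.mono subset_rfl (by rintro p (rfl | rfl | rfl) <;> simp)
    · exact d6.mono subset_rfl (by rintro p (rfl | rfl | rfl) <;> simp)
    · exact d7.mono subset_rfl (by rintro p (rfl | rfl | rfl) <;> simp)

theorem rl_all (F : Fill) : Rl F pA pB pC := by
  induction F with
  | leaf => exact ⟨∅, Dr.empty _ _, trivial⟩
  | st o1 o2 o3 F1 F2 F3 i1 i2 i3 => exact rl_st o1 o2 o3 i1 i2 i3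
  | oc o1 o2 o3 o4 o5 o6 o7 o8 o9 F1 F2 F3 F4 F5 F6 F7 i1 i2 i3 i4 i5 i6 i7 =>
    exact rl_oc o1 o2 o3 o4 o5 o6 o7 o8 o9 i1 i2 i3 i4 i5 i6 i7

/-- from the combinatorial statement on targets with `k + 1` vertices to a plane oriented graph
with no oriented `(k + 1)`-colouring. -/
theorem plane_of_hyp (k : ℕ)
    (hyp : ∀ H : Fin (k + 1) → Fin (k + 1) → Prop, (∀ x y, H x y → ¬ H y x) → (∃ x y, H x y) →
      ¬ Good H) :
    ∃ (n : ℕ) (A : Fin n → Fin n → Prop) (p : Fin n → ℝ × ℝ),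
      (∀ u v, A u v → ¬ A v u) ∧ Function.Injective p ∧
      (∀ u v w, A u v → p w ∉ openSegment ℝ (p u) (p v)) ∧
      (∀ u v x y, A u v → A x y → (u, v) ≠ (x, y) →
        Disjoint (openSegment ℝ (p u) (p v)) (openSegment ℝ (p x) (p y))) ∧
      ¬ ∃ c : Fin n → Fin (k + 1), (∀ u v, A u v → c u ≠ c v) ∧
        ∀ u v x y, A u v → A x y → ¬ (c u = c y ∧ c v = c x) := by
  classical
  obtain ⟨F, hF⟩ := kill_univ hyp
  obtain ⟨E, hE, hs⟩ := rl_all F
  have hfin : (Prod.fst '' E ∪ Prod.snd '' E).Finite := (hE.fin.image _).union (hE.fin.image _)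
  obtain ⟨n, p, hp, hr⟩ := hfin.fin_param
  have hnov : ∀ u v w, (p u, p v) ∈ E → p w ∉ Sg (p u) (p v) := by
    intro u v w h
    have : p w ∈ Prod.fst '' E ∪ Prod.snd '' E := hr ▸ Set.mem_range_self w
    rcases this with ⟨e, he, h'⟩ | ⟨e, he, h'⟩
    · rw [← h']; exact (hE.nov _ h e he).1
    · rw [← h']; exact (hE.nov _ h e he).2
  refine ⟨n, fun u v => (p u, p v) ∈ E, p, ?_, hp, ?_, ?_, ?_⟩
  · intro u v h h'
    by_cases huv : u = v
    · subst huv
      exact hnov u u u h ⟨1 / 2, by norm_num, by norm_num, by simp, by simp⟩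
    · have := hE.dis _ h _ h' (fun e => huv (hp (congrArg Prod.fst e)))
      simp only [sg_symm (p v) (p u), disjoint_self, Set.bot_eq_empty] at this
      have hm : ((p u).1 + 1 / 2 * ((p v).1 - (p u).1), (p u).2 + 1 / 2 * ((p v).2 - (p u).2)) ∈
        Sg (p u) (p v) := ⟨1 / 2, by norm_num, by norm_num, rfl, rfl⟩
      rw [this] at hm
      exact hm
  · intro u v w h
    rw [sg_eq]; exact hnov u v w h
  · intro u v x y h h' hne
    rw [sg_eq, sg_eq]
    refine hE.dis _ h _ h' (fun e => hne ?_)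
    rw [hp (congrArg Prod.fst e), hp (congrArg Prod.snd e)]
  · rintro ⟨c, h1, h2⟩
    let H : Fin (k + 1) → Fin (k + 1) → Prop := fun a b => ∃ u v, (p u, p v) ∈ E ∧ c u = a ∧ c v = b
    let f : Pt → Fin (k + 1) := Function.extend p c (fun _ => 0)
    have hf : ∀ u, f (p u) = c u := fun u => hp.extend_apply _ _ _
    refine hF H ?_ _ _ _ (Sat.map f ?_ F _ _ _ hs)
    · rintro a b ⟨u, v, h, rfl, rfl⟩ ⟨x, y, h', e1, e2⟩
      exact h2 u v x y h h' ⟨e2.symm, e1.symm⟩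
    · intro x y h
      obtain ⟨u, rfl⟩ : x ∈ Set.range p := hr ▸ Or.inl ⟨_, h, rfl⟩
      obtain ⟨v, rfl⟩ : y ∈ Set.range p := hr ▸ Or.inr ⟨_, h, rfl⟩
      exact ⟨u, v, h, (hf u).symm, (hf v).symm⟩

end Pool.Agent.OCP
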