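import Pool.Agent.Lib.MP_55dd22_co.Fill
import Pool.Agent.Lib.MP_55dd22_co.Bits

/-! First consequences of `Good` for one side of a vertex, and the generic search. -/

namespace Pool.Agent.OCP

/-- completion of an oriented graph to a tournament. -/
def cpl {W : Type} [LinearOrder W] (H : W → W → Prop) (x y : W) : Prop := H x y ∨ (¬ H y x ∧ x < y)

theorem cpl_anti {W : Type} [LinearOrder W] {H : W → W → Prop} (hH : ∀ x y, H x y → ¬ H y x) :
    ∀ x y, cpl H x y → ¬ cpl H y x := by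
  rintro x y (h | ⟨h, l⟩) (h' | ⟨h', l'⟩)
  · exact hH _ _ h h'
  · exact h' h
  · exact h h'
  · exact lt_asymm l l'

theorem cpl_tot {W : Type} [LinearOrder W] {H : W → W → Prop} {x y : W} (h : x ≠ y) :
    cpl H x y ∨ cpl H y x := by
  by_cases h1 : H x y
  · exact Or.inl (Or.inl h1)
  by_cases h2 : H y x
  · exact Or.inr (Or.inl h2)
  rcases lt_or_gt_of_ne h with l | l
  · exact Or.inl (Or.inr ⟨h2, l⟩)
  · exact Or.inr (Or.inr ⟨h1, l⟩)

theorem adj_of_ar {W : Type} {H : W → W → Prop} {o : Bool} {x y : W} (h : ar H o x y) :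
    H x y ∨ H y x := by
  cases o
  · exact Or.inr h
  · exact Or.inl h

def fan (o s : Bool) : ℕ → Fill
  | 0 => .leaf
  | n + 1 => .st o s true (fan o s n) .leaf .leaf

theorem propA {W : Type} [Fintype W] [LinearOrder W] {H : W → W → Prop}
    (hH : ∀ x y, H x y → ¬ H y x) (hG : Good H) {u a : W} (hua : H u a ∨ H a u) (o s : Bool) :
    ∃ x y z, (ar H o u x ∧ ar H s a x) ∧ (ar H o u y ∧ ar H s a y) ∧ (ar H o u z ∧ ar H s a z) ∧
      cpl H x y ∧ cpl H y z ∧ cpl H z x := by
  classical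
  by_contra hc
  have key : ∀ n b, ar H o u b → ar H s a b → Sat H (fan o s n) u a b →
      n ≤ (Finset.univ.filter (fun c => (ar H o u c ∧ ar H s a c) ∧ cpl H b c)).card := by
    intro n
    induction n with
    | zero => intros; exact Nat.zero_le _
    | succ n ih =>
      rintro b b1 b2 ⟨v, v1, v2, v3, sv, -⟩
      have hbv : cpl H b v := Or.inl v3
      refine Nat.succ_le_of_lt (lt_of_le_of_lt (ih v v1 v2 sv) (Finset.card_lt_card ⟨?_, ?_⟩))
      · intro c hcm
        simp only [Finset.mem_filter, Finset.mem_univ, true_and] at hcm ⊢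
        refine ⟨hcm.1, ?_⟩
        have hne : b ≠ c := by
          rintro rfl
          exact cpl_anti hH _ _ hbv hcm.2
        rcases cpl_tot (H := H) hne with h | h
        · exact h
        · exact absurd ⟨b, v, c, ⟨b1, b2⟩, ⟨v1, v2⟩, hcm.1, hbv, hcm.2, h⟩ hc
      · intro hsub
        have : v ∈ Finset.univ.filter (fun c => (ar H o u c ∧ ar H s a c) ∧ cpl H v c) :=
          hsub (by simp only [Finset.mem_filter, Finset.mem_univ, true_and]; exact ⟨⟨v1, v2⟩, hbv⟩)
        simp only [Finset.mem_filter, Finset.mem_univ, true_and] at this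
        exact cpl_anti hH _ _ this.2 this.2
  obtain ⟨z, v, v1, v2, -, sv, -⟩ := hG u a hua (fan o s (Fintype.card W + 1 + 1))
  have h1 := key _ v v1 v2 sv
  have h2 := Finset.card_le_univ
    (Finset.univ.filter (fun c => (ar H o u c ∧ ar H s a c) ∧ cpl H v c))
  omega

theorem propB {W : Type} {H : W → W → Prop}
    (hH : ∀ x y, H x y → ¬ H y x) (hG : Good H) {u a : W} (hua : H u a ∨ H a u) (o s : Bool) :
    ∃ c b d, ar H o u c ∧ ar H o u b ∧ ar H o u d ∧ c ≠ a ∧ b ≠ d ∧
      ar H s a b ∧ ar H s a d ∧ ar H s c b ∧ ar H s c d := by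
  obtain ⟨z, b, b1, b2, -, ⟨v, c, d, a1, a2, a3, a4, a5, a6, a7, a8, a9, -⟩, -⟩ :=
    hG u a hua (.st o s true (.oc o s true true (!s) o false true s
      .leaf .leaf .leaf .leaf .leaf .leaf .leaf) .leaf .leaf)
  refine ⟨c, b, d, a6, b1, a1, ?_, ?_, b2, a2, ?_, a9⟩
  · rintro rfl; exact hH _ _ a3 a8
  · rintro rfl; exact hH _ _ a4 a7
  · cases s <;> exact a5

theorem label {W : Type} [DecidableEq W] (D : Finset W) (L : List W) (a0 : W) (w : ℕ)
    (hn : L.Nodup) (hL : ∀ x ∈ L, x ∈ D) (h0 : a0 ∈ D) (hw : D.card ≤ w) :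
    ∃ g : ℕ → W, (∀ i, g i ∈ D) ∧ (∀ x ∈ D, ∃ i < w, g i = x) ∧
      ∀ i, i < L.length → g i = L.getD i a0 := by
  let M := L ++ (D \ L.toFinset).toList
  have hM : ∀ x, x ∈ M ↔ x ∈ D := by
    intro x
    simp only [M, List.mem_append, Finset.mem_toList, Finset.mem_sdiff, List.mem_toFinset]
    have := hL x
    tauto
  have hlen : M.length ≤ w := by
    have hs : L.toFinset ⊆ D := fun x hx => hL x (List.mem_toFinset.1 hx)
    have := Finset.card_sdiff_add_card_eq_card hs
    rw [List.toFinset_card_of_nodup hn] at this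
    simp only [M, List.length_append, Finset.length_toList]
    omega
  refine ⟨fun i => M.getD i a0, fun i => ?_, fun x hx => ?_, fun i hi => ?_⟩
  · by_cases h : i < M.length
    · simp only [List.getD_eq_getElem _ _ h]
      exact (hM _).1 (List.getElem_mem h)
    · simp only [List.getD_eq_default _ _ (not_lt.1 h)]
      exact h0
  · obtain ⟨i, hi, e⟩ := List.getElem_of_mem ((hM x).2 hx)
    exact ⟨i, by omega, by simp only [List.getD_eq_getElem _ _ hi]; exact e⟩
  · exact List.getD_append _ _ _ _ hi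

/-- property A: the out-neighbourhood of each vertex contains a cyclic triangle. -/
def PA (w : ℕ) (T : ℕ → ℕ → Prop) : Prop :=
  ∀ a < w, ∃ x < w, ∃ y < w, ∃ z < w, T a x ∧ T a y ∧ T a z ∧ T x y ∧ T y z ∧ T z x

def PB (w : ℕ) (T : ℕ → ℕ → Prop) : Prop :=
  ∀ a < w, ∃ c < w, ∃ b < w, ∃ d < w, c ≠ a ∧ b ≠ d ∧ T a b ∧ T a d ∧ T c b ∧ T c d

def cycIn (w G G' S : ℕ) : Bool :=
  anyB w fun x => tb S x && frc (Nat.land S (row w G x)) fun Sx =>
    frc (Nat.land S (row w G' x)) fun Ix => anyB w fun y => tb Sx y && nz (Nat.land (row w G y) Ix)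

def okA (w G G' : ℕ) : Bool := allB w fun a => frc (row w G a) fun S => cycIn w G G' S

def okB (w G : ℕ) : Bool :=
  allB w fun a => frc (row w G a) fun S => anyB w fun c => !(Nat.beq c a) &&
    frc (Nat.land S (row w G c)) fun v => anyB w fun b => tb v b && !(Nat.beq v (Nat.pow 2 b))

theorem land_testBit (x y i : ℕ) : (Nat.land x y).testBit i = (x.testBit i && y.testBit i) :=
  Nat.testBit_and x y i

theorem beq_false_iff (x y : ℕ) : Nat.beq x y = false ↔ x ≠ y := by
  rw [← Bool.not_eq_true, Nat.beq_eq]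

theorem cycIn_of {w : ℕ} {T : ℕ → ℕ → Prop} {G G' S : ℕ} (h : Ub w T G G') {x y z : ℕ}
    (hx : x < w) (hy : y < w) (hz : z < w) (sx : S.testBit x = true) (sy : S.testBit y = true)
    (sz : S.testBit z = true) (t1 : T x y) (t2 : T y z) (t3 : T z x) : cycIn w G G' S = true := by
  simp only [cycIn, anyB_iff, frc_eq, Bool.and_eq_true, tb_eq, land_testBit]
  refine ⟨x, hx, sx, y, hy, ⟨sy, (h.row hx hy t1).1⟩, nz_of_testBit (i := z) ?_⟩
  simp only [land_testBit, Bool.and_eq_true]
  exact ⟨(h.row hy hz t2).1, sz, (h.row hz hx t3).2⟩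

theorem okA_of {w : ℕ} {T : ℕ → ℕ → Prop} {G G' : ℕ} (h : Ub w T G G') (hA : PA w T) :
    okA w G G' = true := by
  simp only [okA, allB_iff, frc_eq]
  intro a ha
  obtain ⟨x, hx, y, hy, z, hz, t1, t2, t3, t4, t5, t6⟩ := hA a ha
  exact cycIn_of h hx hy hz (h.row ha hx t1).1 (h.row ha hy t2).1 (h.row ha hz t3).1 t4 t5 t6

theorem okB_of {w : ℕ} {T : ℕ → ℕ → Prop} {G G' : ℕ} (h : Ub w T G G') (hB : PB w T) :
    okB w G = true := by
  simp only [okB, allB_iff, frc_eq, anyB_iff, Bool.and_eq_true, tb_eq, land_testBit,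
    Bool.not_eq_true', beq_false_iff]
  intro a ha
  obtain ⟨c, hc, b, hb, d, hd, n1, n2, t1, t2, t3, t4⟩ := hB a ha
  refine ⟨c, hc, n1, b, hb, ⟨(h.row ha hb t1).1, (h.row hc hb t3).1⟩, fun e => ?_⟩
  have : (Nat.land (row w G a) (row w G c)).testBit d = true := by
    simp only [land_testBit, Bool.and_eq_true]
    exact ⟨(h.row ha hd t2).1, (h.row hc hd t4).1⟩
  rw [e] at this
  have h2 : (2 ^ b).testBit d = true := this
  rw [Nat.testBit_two_pow] at h2
  exact n2 (by simpa using h2)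

/-- branch on the listed pairs; `ok` prunes, `fin` must hold at unpruned leaves. -/
def srch (w : ℕ) (ok fin : ℕ → ℕ → Bool) (L : List (ℕ × ℕ)) : ℕ → ℕ → Bool :=
  List.rec (motive := fun _ => ℕ → ℕ → Bool) (fun G G' => !(ok G G') || fin G G')
    (fun p _ r G G' => !(ok G G') ||
      (frc (clr G (Nat.add (Nat.mul w p.2) p.1)) (fun G1 =>
        frc (clr G' (Nat.add (Nat.mul w p.1) p.2)) fun G1' => r G1 G1') &&
       frc (clr G (Nat.add (Nat.mul w p.1) p.2)) (fun G1 =>
        frc (clr G' (Nat.add (Nat.mul w p.2) p.1)) fun G1' => r G1 G1'))) L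

theorem srch_sound {w : ℕ} {T : ℕ → ℕ → Prop} {ok fin : ℕ → ℕ → Bool}
    (anti : ∀ i j, T i j → ¬ T j i) (hok : ∀ G G', Ub w T G G' → ok G G' = true)
    (L : List (ℕ × ℕ)) (hL : ∀ p ∈ L, p.1 < w ∧ p.2 < w) :
    ∀ G G', Ub w T G G' → srch w ok fin L G G' = true →
      ∃ G G', Ub w T G G' ∧ fin G G' = true := by
  induction L with
  | nil =>
    intro G G' h hs
    have : (!(ok G G') || fin G G') = true := hs
    rw [hok G G' h] at this
    exact ⟨G, G', h, by simpa using this⟩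
  | cons p L ih =>
    intro G G' h hs
    have hp := hL p List.mem_cons_self
    have ih' := ih (fun q hq => hL q (List.mem_cons_of_mem _ hq))
    have : (!(ok G G') ||
      (frc (clr G (w * p.2 + p.1)) (fun G1 =>
        frc (clr G' (w * p.1 + p.2)) fun G1' => srch w ok fin L G1 G1') &&
       frc (clr G (w * p.1 + p.2)) (fun G1 =>
        frc (clr G' (w * p.2 + p.1)) fun G1' => srch w ok fin L G1 G1'))) = true := hs
    rw [hok G G' h] at this
    simp only [frc_eq, Bool.not_true, Bool.false_or, Bool.and_eq_true] at this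
    by_cases t : T p.1 p.2
    · exact ih' _ _ (h.clr hp.2 hp.1 (anti _ _ t)) this.1
    · exact ih' _ _ (h.clr hp.1 hp.2 t) this.2

/-- the full matrix with the listed positions cleared. -/
def ini (w : ℕ) : List (ℕ × ℕ) → ℕ
  | [] => 2 ^ (w * w) - 1
  | p :: L => clr (ini w L) (w * p.1 + p.2)

theorem ub_ini {w : ℕ} {T : ℕ → ℕ → Prop} (L : List (ℕ × ℕ))
    (hL : ∀ p ∈ L, p.1 < w ∧ p.2 < w ∧ ¬ T p.1 p.2) :
    Ub w T (ini w L) (ini w (L.map Prod.swap)) := by
  induction L with
  | nil =>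
    intro i j hi hj _
    have h1 : w * i + j < w * w := by nlinarith
    have h2 : w * j + i < w * w := by nlinarith
    simp [ini, h1, h2]
  | cons p L ih =>
    have hp := hL p List.mem_cons_self
    exact (ih (fun q hq => hL q (List.mem_cons_of_mem _ hq))).clr hp.1 hp.2.1 hp.2.2

end Pool.Agent.OCP
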