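import Pool.Agent.Lib.MP_55dd22_co.Side

/-! Every side of a vertex of a good target has at least nine vertices. -/

namespace Pool.Agent.OCP

/-- non-arcs forced by the labelling: `0 → 1,2,3`, `4,5,6 → 0`, two cyclic triangles. -/
def fix7 : List (ℕ × ℕ) :=
  [(1,0),(2,0),(3,0),(0,4),(0,5),(0,6),(2,1),(3,2),(1,3),(5,4),(6,5),(4,6)]

def dg (w : ℕ) : List (ℕ × ℕ) := (List.range w).map fun i => (i, i)

def ok8 (G G' : ℕ) : Bool := okA 8 G G' && okA 8 G' G && okB 8 G && okB 8 G'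

def L8 : List (ℕ × ℕ) :=
  [(0,7),(1,7),(1,4),(1,5),(1,6),(2,7),(2,4),(2,5),(2,6),(3,7),(3,4),(3,5),(3,6),(4,7),(5,7),(6,7)]

theorem run8 : srch 8 ok8 (fun _ _ => false) L8 (ini 8 (fix7 ++ dg 8))
    (ini 8 ((fix7 ++ dg 8).map Prod.swap)) = true := by decide +kernel

theorem ar_cpl {W : Type} [LinearOrder W] {H : W → W → Prop} {o : Bool} {x y : W}
    (h : ar H o x y) : ar (cpl H) o x y := by
  cases o <;> exact Or.inl h

theorem side_label {W : Type} [Fintype W] [LinearOrder W] {H : W → W → Prop}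
    (hH : ∀ x y, H x y → ¬ H y x) (hG : Good H) {u a0 : W} {o : Bool} (h0 : ar H o u a0)
    (D : Finset W) (hD : ∀ x, x ∈ D ↔ ar H o u x) (w : ℕ) (h7 : 7 ≤ w) (hw : D.card ≤ w) :
    ∃ g : ℕ → W, (∀ i, ar H o u (g i)) ∧ (∀ x, ar H o u x → ∃ i < w, g i = x) ∧
      ∀ p ∈ fix7 ++ dg w, p.1 < w ∧ p.2 < w ∧ ¬ cpl H (g p.1) (g p.2) := by
  have an := cpl_anti hH
  have ne : ∀ {x y}, cpl H x y → x ≠ y := by
    rintro x y h rfl
    exact an _ _ h h
  obtain ⟨x1, x2, x3, ⟨u1, a1⟩, ⟨u2, a2⟩, ⟨u3, a3⟩, c1, c2, c3⟩ :=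
    propA hH hG (adj_of_ar h0) o true
  obtain ⟨y1, y2, y3, ⟨v1, b1⟩, ⟨v2, b2⟩, ⟨v3, b3⟩, d1, d2, d3⟩ :=
    propA hH hG (adj_of_ar h0) o false
  have a1' : cpl H a0 x1 := Or.inl a1
  have a2' : cpl H a0 x2 := Or.inl a2
  have a3' : cpl H a0 x3 := Or.inl a3
  have b1' : cpl H y1 a0 := Or.inl b1
  have b2' : cpl H y2 a0 := Or.inl b2
  have b3' : cpl H y3 a0 := Or.inl b3
  have ne2 : ∀ {x y}, cpl H a0 x → cpl H y a0 → x ≠ y := by
    rintro x y h h' rfl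
    exact an _ _ h h'
  have hn : [a0, x1, x2, x3, y1, y2, y3].Nodup := by
    simp [ne a1', ne a2', ne a3', (ne b1').symm, (ne b2').symm, (ne b3').symm, ne c1, ne c2,
      (ne c3).symm, ne d1, ne d2, (ne d3).symm, ne2 a1' b1', ne2 a1' b2', ne2 a1' b3',
      ne2 a2' b1', ne2 a2' b2', ne2 a2' b3', ne2 a3' b1', ne2 a3' b2', ne2 a3' b3']
  obtain ⟨g, g1, g2, g3⟩ := label D [a0, x1, x2, x3, y1, y2, y3] a0 w hn
    (by simp [hD, h0, u1, u2, u3, v1, v2, v3]) ((hD _).2 h0) hw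
  have e0 : g 0 = a0 := g3 0 (by simp)
  have e1 : g 1 = x1 := g3 1 (by simp)
  have e2 : g 2 = x2 := g3 2 (by simp)
  have e3 : g 3 = x3 := g3 3 (by simp)
  have e4 : g 4 = y1 := g3 4 (by simp)
  have e5 : g 5 = y2 := g3 5 (by simp)
  have e6 : g 6 = y3 := g3 6 (by simp)
  refine ⟨g, fun i => (hD _).1 (g1 i), fun x hx => g2 x ((hD _).2 hx), fun p hp => ?_⟩
  rcases List.mem_append.1 hp with hp | hp
  · simp only [fix7, List.mem_cons, List.not_mem_nil, or_false] at hp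
    rcases hp with rfl | rfl | rfl | rfl | rfl | rfl | rfl | rfl | rfl | rfl | rfl | rfl
    all_goals
      refine ⟨by simp only; omega, by simp only; omega, ?_⟩
      simp only [e0, e1, e2, e3, e4, e5, e6]
      apply an
      assumption
  · obtain ⟨i, hi, rfl⟩ := List.mem_map.1 hp
    have := List.mem_range.1 hi
    exact ⟨this, this, fun h => an _ _ h h⟩

theorem side_PA {W : Type} [Fintype W] [LinearOrder W] {H : W → W → Prop}
    (hH : ∀ x y, H x y → ¬ H y x) (hG : Good H) {u : W} {o : Bool} {w : ℕ} {g : ℕ → W}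
    (g1 : ∀ i, ar H o u (g i)) (g2 : ∀ x, ar H o u x → ∃ i < w, g i = x) :
    PA w (fun i j => cpl H (g i) (g j)) ∧ PA w (fun i j => cpl H (g j) (g i)) := by
  constructor
  · intro a _
    obtain ⟨x, y, z, ⟨u1, a1⟩, ⟨u2, a2⟩, ⟨u3, a3⟩, c1, c2, c3⟩ :=
      propA hH hG (adj_of_ar (g1 a)) o true
    obtain ⟨x, hx, rfl⟩ := g2 x u1
    obtain ⟨y, hy, rfl⟩ := g2 y u2
    obtain ⟨z, hz, rfl⟩ := g2 z u3
    exact ⟨x, hx, y, hy, z, hz, Or.inl a1, Or.inl a2, Or.inl a3, c1, c2, c3⟩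
  · intro a _
    obtain ⟨x, y, z, ⟨u1, a1⟩, ⟨u2, a2⟩, ⟨u3, a3⟩, c1, c2, c3⟩ :=
      propA hH hG (adj_of_ar (g1 a)) o false
    obtain ⟨x, hx, rfl⟩ := g2 x u1
    obtain ⟨y, hy, rfl⟩ := g2 y u2
    obtain ⟨z, hz, rfl⟩ := g2 z u3
    exact ⟨x, hx, z, hz, y, hy, Or.inl a1, Or.inl a3, Or.inl a2, c3, c2, c1⟩

theorem side_PB {W : Type} [LinearOrder W] {H : W → W → Prop}
    (hH : ∀ x y, H x y → ¬ H y x) (hG : Good H) {u : W} {o : Bool} {w : ℕ} {g : ℕ → W}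
    (g1 : ∀ i, ar H o u (g i)) (g2 : ∀ x, ar H o u x → ∃ i < w, g i = x) (s : Bool) :
    PB w (fun i j => ar (cpl H) s (g i) (g j)) := by
  intro a _
  obtain ⟨c, b, d, u1, u2, u3, n1, n2, t1, t2, t3, t4⟩ := propB hH hG (adj_of_ar (g1 a)) o s
  obtain ⟨c, hc, rfl⟩ := g2 c u1
  obtain ⟨b, hb, rfl⟩ := g2 b u2
  obtain ⟨d, hd, rfl⟩ := g2 d u3
  exact ⟨c, hc, b, hb, d, hd, fun e => n1 (by rw [e]), fun e => n2 (by rw [e]), ar_cpl t1,
    ar_cpl t2, ar_cpl t3, ar_cpl t4⟩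

theorem side_nine {W : Type} [Fintype W] [LinearOrder W] {H : W → W → Prop}
    (hH : ∀ x y, H x y → ¬ H y x) (hG : Good H) {u a0 : W} {o : Bool} (h0 : ar H o u a0)
    (D : Finset W) (hD : ∀ x, x ∈ D ↔ ar H o u x) : 9 ≤ D.card := by
  by_contra hc
  obtain ⟨g, g1, g2, g3⟩ := side_label hH hG h0 D hD 8 (by norm_num) (by omega)
  have hA := side_PA hH hG g1 g2
  have hB := side_PB hH hG g1 g2
  obtain ⟨G, G', -, h⟩ := srch_sound (T := fun i j => cpl H (g i) (g j)) (ok := ok8)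
    (fin := fun _ _ => false) (fun i j => cpl_anti hH _ _) (fun G G' h => by
      simp only [ok8, Bool.and_eq_true]
      exact ⟨⟨⟨okA_of h hA.1, okA_of h.swap hA.2⟩, okB_of h (hB true)⟩, okB_of h.swap (hB false)⟩)
    L8 (by decide) _ _ (ub_ini _ g3) run8
  exact absurd h (by simp)

theorem both_sides {W : Type} {H : W → W → Prop} (hG : Good H) {u a : W} (h : H u a ∨ H a u)
    (o : Bool) : ∃ b, ar H o u b := by
  obtain ⟨z, v, h, -⟩ := hG u a h (.st o true true .leaf .leaf .leaf)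
  exact ⟨v, h⟩

theorem card_sides {W : Type} [Fintype W] [DecidableEq W] {H : W → W → Prop}
    (hH : ∀ x y, H x y → ¬ H y x) (u : W) (D D' : Finset W) (hD : ∀ x, x ∈ D ↔ H u x)
    (hD' : ∀ x, x ∈ D' ↔ H x u) : D.card + D'.card + 1 ≤ Fintype.card W := by
  have hd : Disjoint D D' := Finset.disjoint_left.2 fun x h h' => hH _ _ ((hD x).1 h) ((hD' x).1 h')
  have hu : u ∉ D ∪ D' := by
    rw [Finset.mem_union, hD, hD']
    rintro (h | h) <;> exact hH _ _ h h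
  have := Finset.card_le_univ (insert u (D ∪ D'))
  rwa [Finset.card_insert_of_notMem hu, Finset.card_union_of_disjoint hd] at this

theorem card_nineteen {W : Type} [Fintype W] [LinearOrder W] {H : W → W → Prop}
    (hH : ∀ x y, H x y → ¬ H y x) (hx : ∃ x y, H x y) (hG : Good H) : 19 ≤ Fintype.card W := by
  classical
  obtain ⟨u, a, h⟩ := hx
  obtain ⟨b, hb⟩ := both_sides hG (Or.inl h) false
  have h1 := side_nine hH hG (o := true) h (Finset.univ.filter (fun x => H u x)) (by simp [ar])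
  have h2 := side_nine hH hG (o := false) hb (Finset.univ.filter (fun x => H x u)) (by simp [ar])
  have h3 := card_sides hH u (Finset.univ.filter (fun x => H u x))
    (Finset.univ.filter (fun x => H x u)) (by simp) (by simp)
  omega

end Pool.Agent.OCP
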